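import Mathlib

/-!
# Counting in algebraic matroids (helper64)
-/

set_option autoImplicit false

namespace Pool.Agent.L0h64.ZV

open Set Matroid

section Mat

variable {α : Type*}

lemma count (M : Matroid α) {Z X E : Set α} (hZ : M.Indep Z) (hE : E ⊆ Z)
    (hc : E ⊆ M.closure (X ∪ (Z \ E))) : E.encard ≤ M.eRk X := by
  have hJ : M.Indep (Z \ E) := hZ.subset sdiff_subset
  have h1 : (M ／ (Z \ E)).Indep E := by
    rw [hJ.contract_indep_iff]
    refine ⟨disjoint_sdiff_right, ?_⟩
    rwa [union_sdiff_cancel hE]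
  have h2 : E ⊆ (M ／ (Z \ E)).closure X := by
    rw [Matroid.contract_closure_eq]
    exact subset_sdiff.2 ⟨hc, disjoint_sdiff_right⟩
  calc E.encard = (M ／ (Z \ E)).eRk E := h1.eRk_eq_encard.symm
    _ ≤ (M ／ (Z \ E)).eRk ((M ／ (Z \ E)).closure X) := Matroid.eRk_mono _ h2
    _ = (M ／ (Z \ E)).eRk X := Matroid.eRk_closure_eq _ _
    _ ≤ M.eRk X := by
      rw [Matroid.eRk_le_iff]
      intro I hI hI'
      exact hI'.of_contract.encard_le_eRk_of_subset hI

lemma step (M : Matroid α) (hM : M.E = univ) {Z X E : Set α} {e : α}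
    (hc : E ⊆ M.closure (X ∪ (Z \ E))) (he : e ∈ M.closure (X ∪ (Z \ insert e E))) :
    insert e E ⊆ M.closure (X ∪ (Z \ insert e E)) := by
  refine insert_subset he (hc.trans ?_)
  have h0 : X ∪ (Z \ insert e E) ⊆ M.closure (X ∪ (Z \ insert e E)) :=
    M.subset_closure _ (by rw [hM]; exact subset_univ _)
  refine (M.closure_subset_closure (Y := M.closure (X ∪ (Z \ insert e E))) ?_).trans
    (M.closure_closure _).subset
  refine union_subset (subset_union_left.trans h0) ?_
  intro a ha
  by_cases hae : a = e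
  · rw [hae]
    exact he
  · exact h0 (Or.inr ⟨ha.1, fun h => h.elim hae ha.2⟩)

end Mat

section Dep

open Algebra

variable {R k : Type*} [CommRing R] [Field k] [Algebra R k] [FaithfulSMul R k]

lemma mem_cl_iff (X : Set k) (a : k) : a ∈ (AlgebraicIndependent.matroid R k).closure X ↔
    IsAlgebraic (adjoin R X) a := by
  rw [AlgebraicIndependent.matroid_closure_eq]
  rfl

omit [FaithfulSMul R k] in
lemma isAlg_union (X Y : Set k) (a : k) (h : IsAlgebraic (adjoin (adjoin R X) Y) a) :
    IsAlgebraic (adjoin R (X ∪ Y)) a := by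
  rw [adjoin_union_eq_adjoin_adjoin]
  exact h

/-- a polynomial relation makes one of the numbers algebraic over the others -/
lemma dep {n : ℕ} (X : Set k) (z : Fin n → k) (hz : Function.Injective z)
    (p : MvPolynomial (Fin n) k) (hp : ∀ b, p.coeff b ∈ adjoin R X) (h0 : p ≠ 0)
    (h1 : MvPolynomial.eval z p = 0) :
    ∃ j, z j ∈ (AlgebraicIndependent.matroid R k).closure (X ∪ (range z \ {z j})) := by
  by_contra hcon
  push Not at hcon
  -- the polynomial over the ring generated by `X`
  have h2 : p ∈ range (MvPolynomial.map (σ := Fin n) (algebraMap (adjoin R X) k)) := by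
    rw [MvPolynomial.mem_range_map_iff_coeffs_subset]
    intro c hc
    rw [Finset.mem_coe, MvPolynomial.mem_coeffs_iff] at hc
    obtain ⟨b, _, hb⟩ := hc
    rw [hb]
    exact ⟨⟨_, hp b⟩, rfl⟩
  obtain ⟨q, hq⟩ := h2
  have h3 : MvPolynomial.aeval z q = 0 := by
    rw [MvPolynomial.aeval_def, ← h1, ← hq, MvPolynomial.eval_map]
  have h4 : ¬ AlgebraicIndependent (adjoin R X) z := by
    intro h
    apply h0
    rw [← hq, (injective_iff_map_eq_zero _).1 h q h3, map_zero]
  apply h4
  have h5 : (AlgebraicIndependent.matroid (adjoin R X) k).Indep (range z) := by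
    rw [Matroid.indep_iff_forall_notMem_closure_sdiff (subset_univ _)]
    rintro _ ⟨j, rfl⟩ hj
    apply hcon j
    rw [mem_cl_iff] at hj ⊢
    exact isAlg_union _ _ _ hj
  rw [AlgebraicIndependent.matroid_indep_iff] at h5
  exact h5.comp (fun j => ⟨z j, mem_range_self j⟩) fun i j h => hz (congrArg Subtype.val h)

end Dep

section Res

open Algebra IsLocalRing

/-- **the residue field has no more independent elements** -/
lemma rank_res {R V K k : Type*} [CommRing R] [CommRing V] [Field K] [Field k] [Algebra R V]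
    [Algebra R K] [Algebra R k] [FaithfulSMul R K] [FaithfulSMul R k] (i : V →ₐ[R] K)
    (hi : Function.Injective i) (π : V →ₐ[R] k) (Y : Set K) :
    (AlgebraicIndependent.matroid R k).eRk
      (π '' {w | i w ∈ (AlgebraicIndependent.matroid R K).closure Y}) ≤ Y.encard := by
  rw [Matroid.eRk_le_iff]
  intro I hI hI'
  have h0 : ∀ u : I, ∃ w, i w ∈ (AlgebraicIndependent.matroid R K).closure Y ∧ π w = u :=
    fun u => hI u.2
  choose w hw1 hw2 using h0
  have h1 : AlgebraicIndependent R (fun u : I => (u : k)) := hI'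
  have h2 : AlgebraicIndependent R w := by
    apply AlgebraicIndependent.of_comp π
    have : (π ∘ w) = fun u : I => (u : k) := funext hw2
    rw [this]
    exact h1
  have h3 : AlgebraicIndependent R (i ∘ w) := h2.map' hi
  have hinj : Function.Injective (i ∘ w) := by
    intro u v huv
    have := hi huv
    exact Subtype.ext (by rw [← hw2 u, ← hw2 v, this])
  have h4 : (AlgebraicIndependent.matroid R K).Indep (range (i ∘ w)) := h3.to_subtype_range
  have h5 : range (i ∘ w) ⊆ (AlgebraicIndependent.matroid R K).closure Y := by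
    rintro _ ⟨u, rfl⟩
    exact hw1 u
  calc I.encard ≤ (range (i ∘ w)).encard := hinj.encard_range
    _ ≤ (AlgebraicIndependent.matroid R K).eRk
        ((AlgebraicIndependent.matroid R K).closure Y) := h4.encard_le_eRk_of_subset h5
    _ = (AlgebraicIndependent.matroid R K).eRk Y := Matroid.eRk_closure_eq _ _
    _ ≤ Y.encard := Matroid.eRk_le_encard _ _

/-- **reduction of a polynomial relation** -/
lemma red {K : Type*} [Field K] (V : ValuationSubring K) {n : ℕ} (p : MvPolynomial (Fin n) K)
    (z y : Fin n → V) (hy : MvPolynomial.eval (fun j => (y j : K)) p ≠ 0)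
    (hz : ∃ w ∈ maximalIdeal V, MvPolynomial.eval (fun j => (z j : K)) p =
      w * MvPolynomial.eval (fun j => (y j : K)) p) :
    ∃ q : MvPolynomial (Fin n) V, ∃ b0, p.coeff b0 ≠ 0 ∧
      (∀ b, ((q.coeff b : V) : K) = p.coeff b / p.coeff b0) ∧
      q.map (residue V) ≠ 0 ∧ MvPolynomial.eval (fun j => residue V (z j)) (q.map (residue V)) = 0 := by
  classical
  have hp : p ≠ 0 := fun h => hy (by rw [h, map_zero])
  -- the coefficient of the largest absolute value
  obtain ⟨b0, hb0, hmax⟩ := Finset.exists_max_image p.support (fun b => V.valuation (p.coeff b))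
    (MvPolynomial.support_nonempty.2 hp)
  have hc : p.coeff b0 ≠ 0 := MvPolynomial.mem_support_iff.1 hb0
  have hV : ∀ b, p.coeff b / p.coeff b0 ∈ V := by
    intro b
    by_cases hb : b ∈ p.support
    · rw [← V.valuation_le_one_iff, map_div₀]
      exact div_le_one_of_le₀ (hmax b hb) zero_le
    · rw [MvPolynomial.notMem_support_iff.1 hb, zero_div]
      exact V.zero_mem
  have h2 : p * MvPolynomial.C (p.coeff b0)⁻¹ ∈
      range (MvPolynomial.map (σ := Fin n) (algebraMap V K)) := by
    rw [MvPolynomial.mem_range_map_iff_coeffs_subset]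
    intro c hc
    rw [Finset.mem_coe, MvPolynomial.mem_coeffs_iff] at hc
    obtain ⟨b, _, hb⟩ := hc
    rw [hb, mul_comm, MvPolynomial.coeff_C_mul]
    refine ⟨⟨_, hV b⟩, ?_⟩
    exact div_eq_inv_mul _ _
  obtain ⟨q, hq⟩ := h2
  have hqc : ∀ b, ((q.coeff b : V) : K) = p.coeff b / p.coeff b0 := by
    intro b
    have := congrArg (MvPolynomial.coeff b) hq
    rw [MvPolynomial.coeff_map, mul_comm, MvPolynomial.coeff_C_mul] at this
    rw [← ValuationSubring.algebraMap_apply, this, div_eq_inv_mul]
  have hev : ∀ u : Fin n → V, ((MvPolynomial.eval u q : V) : K) =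
      MvPolynomial.eval (fun j => (u j : K)) p * (p.coeff b0)⁻¹ := by
    intro u
    have h3 := congrArg (MvPolynomial.eval (fun j => (u j : K))) hq
    rw [map_mul, MvPolynomial.eval_C, MvPolynomial.eval_map] at h3
    rw [← h3]
    have h4 := MvPolynomial.eval₂_comp (algebraMap V K) u q
    exact h4
  refine ⟨q, b0, hc, hqc, ?_, ?_⟩
  · intro h
    have h3 := congrArg (MvPolynomial.coeff b0) h
    rw [MvPolynomial.coeff_map, MvPolynomial.coeff_zero] at h3
    have h4 : q.coeff b0 = 1 := by
      apply Subtype.ext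
      rw [hqc, div_self hc]
      rfl
    rw [h4, map_one] at h3
    exact one_ne_zero h3
  · rw [MvPolynomial.eval_map]
    have h3 : residue V (MvPolynomial.eval z q) =
        MvPolynomial.eval₂ (residue V) (fun j => residue V (z j)) q :=
      MvPolynomial.eval₂_comp (residue V) z q
    rw [← h3, residue_eq_zero_iff]
    obtain ⟨w, hw, hzw⟩ := hz
    have h4 : MvPolynomial.eval z q = w * MvPolynomial.eval y q := by
      apply Subtype.ext
      rw [hev, hzw]
      push_cast
      rw [hev]
      ring
    rw [h4]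
    exact Ideal.mul_mem_right _ _ hw

end Res

end Pool.Agent.L0h64.ZV
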