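import Pool.Agent.L0h64.ZV.Gen

/-!
# The points of an algebraic set whose coordinates are zeta values (helper64)
-/

set_option autoImplicit false

namespace Pool.Agent.L0h64.ZV

open MvPolynomial

/-- the exponents of degree at most `d` -/
noncomputable def mons (n d : ℕ) : Finset (Fin n →₀ ℕ) :=
  (Finset.range (d + 1)).biUnion fun e => Finset.finsuppAntidiag Finset.univ e

lemma mem_mons {n d : ℕ} (a : Fin n →₀ ℕ) : a ∈ mons n d ↔ (a.sum fun _ e => e) ≤ d := by
  unfold mons
  rw [Finset.mem_biUnion]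
  have h1 : (a.sum fun _ e => e) = ∑ i, a i := Finsupp.sum_fintype _ _ fun _ => rfl
  constructor
  · rintro ⟨e, he, ha⟩
    rw [Finset.mem_finsuppAntidiag] at ha
    rw [h1, ha.1]
    exact Nat.lt_succ_iff.1 (Finset.mem_range.1 he)
  · intro h
    refine ⟨∑ i, a i, Finset.mem_range.2 (by omega), ?_⟩
    rw [Finset.mem_finsuppAntidiag]
    exact ⟨rfl, Finset.subset_univ _⟩

lemma card_mons (n d : ℕ) : (mons n d).card = (n + d).choose n := by
  unfold mons
  rw [Finset.card_biUnion]
  · have h1 : ∀ e, (Finset.finsuppAntidiag (Finset.univ : Finset (Fin n)) e).card =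
        (n + e - 1).choose e := by
      intro e
      rw [Finset.card_finsuppAntidiag_nat_eq_choose]
      simp
    simp only [h1]
    rw [Nat.choose_symm_add]
    induction d with
    | zero => simp
    | succ d ih =>
      rw [Finset.sum_range_succ, ih]
      have e1 : n + (d + 1) - 1 = n + d := by omega
      have e2 : n + (d + 1) = (n + d) + 1 := by omega
      rw [e1, e2, Nat.choose_succ_succ]
  · intro e _ e' _ hne
    rw [Function.onFun, Finset.disjoint_left]
    intro a ha ha'
    rw [Finset.mem_finsuppAntidiag] at ha ha'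
    exact hne (ha.1.symm.trans ha'.1)

/-- **general position for polynomials with complex coefficients** -/
theorem polyGen (n d : ℕ) (κ : ℝ) : ∃ B : ℝ, 1 < B ∧ ∃ N0 : ℕ, ∀ N : ℕ, N0 ≤ N →
    ∀ P : MvPolynomial (Fin n) ℂ, P.totalDegree ≤ d → (∃ b, 1 ≤ ‖P.coeff b‖) →
    ∃ H : Finset ℕ, H.card ≤ n * ((n + d).choose n - 1) ∧ ∀ s, Box κ N s → (∀ i, s i ∉ H) →
      (B ^ N)⁻¹ < ‖eval (fun j => ((zt (s j) : ℝ) : ℂ)) P‖ := by
  classical
  obtain ⟨B, hB, N0, hmain⟩ := general n d (mons n d).card κ 1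
  refine ⟨B, hB, N0, fun N hN P hP hb => ?_⟩
  obtain ⟨b0, hb0⟩ := hb
  have hsup : ∀ b ∈ P.support, b ∈ mons n d := fun b hb => by
    rw [mem_mons]
    exact (Finset.le_sup (f := fun s : Fin n →₀ ℕ => s.sum fun _ e => e) hb).trans hP
  have hb0m : b0 ∈ mons n d := by
    refine hsup b0 ?_
    rw [mem_support_iff]
    intro h
    rw [h, norm_zero] at hb0
    linarith
  set e : Fin (mons n d).card ≃ (mons n d) := (mons n d).equivFin.symm with he
  have hQ : LinearIndependent ℤ (fun a => (monomial (e a).1 1 : MvPolynomial (Fin n) ℤ)) := by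
    have h1 := (basisMonomials (Fin n) ℤ).linearIndependent
    rw [coe_basisMonomials] at h1
    exact h1.comp (fun a => (e a).1) (Subtype.val_injective.comp e.injective)
  have hQ1 : ∀ a, ((monomial (e a).1 1 : MvPolynomial (Fin n) ℤ)).totalDegree ≤ d := fun a =>
    (totalDegree_monomial_le _ _).trans ((mem_mons _).1 (e a).2)
  have hQ2 : ∀ a b, |(((monomial (e a).1 1 : MvPolynomial (Fin n) ℤ).coeff b : ℤ) : ℝ)| ≤
      1 ^ N := by
    intro a b
    rw [coeff_monomial]
    split_ifs <;> simp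
  obtain ⟨H, hH, hmain⟩ := hmain N hN (fun a => P.coeff (e a).1)
    ⟨e.symm ⟨b0, hb0m⟩, by simpa using hb0⟩
  rw [card_mons] at hH
  refine ⟨H, hH, fun s hs hsH => ?_⟩
  have h1 := hmain s hs hsH (fun a => monomial (e a).1 1) hQ hQ1 hQ2
  have h2 : ∑ a, P.coeff (e a).1 * aeval (fun j => ((zt (s j) : ℝ) : ℂ))
      (monomial (e a).1 (1 : ℤ)) = eval (fun j => ((zt (s j) : ℝ) : ℂ)) P := by
    rw [eval_eq']
    have h3 : ∑ b ∈ P.support, P.coeff b * ∏ i, ((zt (s i) : ℝ) : ℂ) ^ b i =
        ∑ b ∈ mons n d, P.coeff b * ∏ i, ((zt (s i) : ℝ) : ℂ) ^ b i := by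
      refine Finset.sum_subset hsup fun b _ hb => ?_
      rw [notMem_support_iff.1 hb, zero_mul]
    rw [h3, ← Finset.sum_coe_sort (mons n d)
      (fun b => P.coeff b * ∏ i, ((zt (s i) : ℝ) : ℂ) ^ b i), ← e.sum_comp]
    refine Finset.sum_congr rfl fun a _ => ?_
    rw [aeval_monomial, map_one, one_mul, Finsupp.prod_fintype _ _ fun _ => pow_zero _]
  rwa [h2] at h1

/-- substitution of a number for one variable -/
noncomputable def sub {n : ℕ} (i : Fin (n + 1)) (c : ℂ) (P : MvPolynomial (Fin (n + 1)) ℂ) :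
    MvPolynomial (Fin n) ℂ :=
  bind₁ (i.insertNth (α := fun _ => MvPolynomial (Fin n) ℂ) (C c) X) P

lemma eval_sub {n : ℕ} (i : Fin (n + 1)) (c : ℂ) (P : MvPolynomial (Fin (n + 1)) ℂ)
    (y : Fin n → ℂ) : eval y (sub i c P) = eval (i.insertNth (α := fun _ => ℂ) c y) P := by
  unfold sub
  rw [eval, eval₂Hom_bind₁]
  have h1 : (fun j => eval₂Hom (RingHom.id ℂ) y
      ((i.insertNth (α := fun _ => MvPolynomial (Fin n) ℂ) (C c) X) j)) =
      i.insertNth (α := fun _ => ℂ) c y := by
    funext j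
    refine Fin.succAboveCases i ?_ (fun j => ?_) j
    · simp
    · simp
  rw [h1]
  rfl

lemma totalDegree_sub {n : ℕ} (i : Fin (n + 1)) (c : ℂ) (P : MvPolynomial (Fin (n + 1)) ℂ)
    (d : ℕ) (hP : P.totalDegree ≤ d) : (sub i c P).totalDegree ≤ d := by
  unfold sub
  rw [P.as_sum, map_sum]
  refine totalDegree_finsetSum_le fun b hb => ?_
  rw [bind₁_monomial]
  refine (totalDegree_mul _ _).trans ?_
  rw [totalDegree_C, zero_add]
  refine (totalDegree_finsetProd _ _).trans ?_
  have h1 : ∀ j, ((i.insertNth (α := fun _ => MvPolynomial (Fin n) ℂ) (C c) X) j).totalDegree ≤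
      1 := by
    intro j
    refine Fin.succAboveCases i ?_ (fun j => ?_) j
    · simp
    · rw [Fin.insertNth_apply_succAbove, totalDegree_X]
  calc ∑ j ∈ b.support, ((i.insertNth (α := fun _ => MvPolynomial (Fin n) ℂ) (C c) X) j ^
        b j).totalDegree ≤ ∑ j ∈ b.support, b j := Finset.sum_le_sum fun j _ => by
        refine (totalDegree_pow _ _).trans ?_
        calc b j * _ ≤ b j * 1 := Nat.mul_le_mul_left _ (h1 j)
          _ = b j := mul_one _
    _ ≤ d := (Finset.le_sup (f := fun s : Fin (n + 1) →₀ ℕ => s.sum fun _ e => e) hb).trans hP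

/-- the tuple `s` belongs to the family `f` -/
def Fits {n : ℕ} (f : Fin n → Option ℕ) (s : Fin n → ℕ) : Prop := ∀ i a, f i = some a → s i = a

/-- the linear subspace of the family `f` -/
def Sp {n : ℕ} (f : Fin n → Option ℕ) : Set (Fin n → ℂ) :=
  {x | ∀ i a, f i = some a → x i = ((zt a : ℝ) : ℂ)}

/-- **structure, one polynomial** -/
theorem strOne (n d : ℕ) : ∃ K : ℕ, ∀ κ : ℝ, ∃ N0 : ℕ, ∀ N : ℕ, N0 ≤ N →
    ∀ P : MvPolynomial (Fin n) ℂ, P.totalDegree ≤ d →
    ∃ F : Finset (Fin n → Option ℕ), F.card ≤ K ∧ (∀ f ∈ F, ∀ x ∈ Sp f, eval x P = 0) ∧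
      ∀ s, Box κ N s → eval (fun j => ((zt (s j) : ℝ) : ℂ)) P = 0 → ∃ f ∈ F, Fits f s := by
  classical
  induction n with
  | zero =>
    refine ⟨1, fun κ => ⟨0, fun N _ P _ => ?_⟩⟩
    by_cases hP : P = 0
    · refine ⟨{fun _ => none}, by simp, fun f _ x _ => by rw [hP, map_zero], fun s _ _ => ?_⟩
      exact ⟨fun _ => none, Finset.mem_singleton_self _, fun i => i.elim0⟩
    · refine ⟨∅, by simp, fun f hf => absurd hf (Finset.notMem_empty f), fun s _ h => ?_⟩
      exfalso
      apply hP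
      refine MvPolynomial.funext fun x => ?_
      rw [map_zero, ← h]
      congr 1
      congr 1
      exact Subsingleton.elim _ _
  | succ n ih =>
    obtain ⟨K, hK⟩ := ih
    refine ⟨(n + 1) * (((n + 1) * ((n + 1 + d).choose (n + 1) - 1)) * K) + 1, fun κ => ?_⟩
    obtain ⟨N1, hN1⟩ := hK κ
    obtain ⟨B, hB, N2, hN2⟩ := polyGen (n + 1) d κ
    refine ⟨N1 + N2, fun N hN P hP => ?_⟩
    by_cases hP0 : P = 0
    · refine ⟨{fun _ => none}, by simp, fun f _ x _ => by rw [hP0, map_zero], fun s _ _ => ?_⟩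
      exact ⟨fun _ => none, Finset.mem_singleton_self _, fun i a h => by cases h⟩
    obtain ⟨b0, hb0⟩ := ne_zero_iff.1 hP0
    obtain ⟨H, hH, hHs⟩ := hN2 N (by omega) (C (P.coeff b0)⁻¹ * P) (by
      refine (totalDegree_mul _ _).trans ?_
      rw [totalDegree_C, zero_add]
      exact hP) ⟨b0, by rw [coeff_C_mul, inv_mul_cancel₀ hb0, norm_one]⟩
    choose F hFc hFv hFs using fun (i : Fin (n + 1)) (h : ℕ) =>
      hN1 N (by omega) (sub i ((zt h : ℝ) : ℂ) P) (totalDegree_sub i _ P d hP)
    set G : Finset (Fin (n + 1) → Option ℕ) := Finset.univ.biUnion fun i : Fin (n + 1) =>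
      H.biUnion fun h => (F i h).image fun f =>
        (i.insertNth (α := fun _ => Option ℕ) (some h) f : Fin (n + 1) → Option ℕ) with hG
    refine ⟨G, ?_, ?_, ?_⟩
    · have h1 : G.card ≤ ∑ i : Fin (n + 1), ∑ h ∈ H, K := by
        refine Finset.card_biUnion_le.trans (Finset.sum_le_sum fun i _ => ?_)
        refine Finset.card_biUnion_le.trans (Finset.sum_le_sum fun h _ => ?_)
        exact Finset.card_image_le.trans (hFc i h)
      refine h1.trans ?_
      rw [Finset.sum_const, Finset.sum_const, Finset.card_univ, Fintype.card_fin, smul_eq_mul,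
        smul_eq_mul]
      exact (Nat.mul_le_mul_left _ (Nat.mul_le_mul_right _ hH)).trans (Nat.le_succ _)
    · intro f hf x hx
      rw [hG] at hf
      simp only [Finset.mem_biUnion, Finset.mem_univ, true_and, Finset.mem_image] at hf
      obtain ⟨i, h, hh, f', hf', rfl⟩ := hf
      have h1 := hFv i h f' hf' (fun j => x (i.succAbove j)) (fun j a hj => by
        apply hx
        rw [Fin.insertNth_apply_succAbove]
        exact hj)
      rw [eval_sub] at h1
      have h2 : i.insertNth (α := fun _ => ℂ) ((zt h : ℝ) : ℂ) (fun j => x (i.succAbove j)) =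
          x := by
        have h3 : x i = ((zt h : ℝ) : ℂ) := by
          apply hx
          rw [Fin.insertNth_apply_same]
        rw [← h3]
        exact Fin.insertNth_self_removeNth i x
      rwa [h2] at h1
    · intro s hs hz
      have h1 : ∃ i, s i ∈ H := by
        by_contra hcon
        push Not at hcon
        have h2 := hHs s hs hcon
        rw [map_mul, hz, mul_zero, norm_zero] at h2
        have h3 : 0 < (B ^ N)⁻¹ := inv_pos.2 (pow_pos (by linarith) _)
        linarith
      obtain ⟨i, hi⟩ := h1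
      have hs' : Box κ N (fun j => s (i.succAbove j)) :=
        ⟨hs.1.comp Fin.succAbove_right_injective, fun j => hs.2 _⟩
      obtain ⟨f, hf, hfs⟩ := hFs i (s i) (fun j => s (i.succAbove j)) hs' (by
        rw [eval_sub, ← hz]
        congr 1
        congr 1
        funext j
        refine Fin.succAboveCases i ?_ (fun j => ?_) j
        · simp
        · simp)
      refine ⟨i.insertNth (α := fun _ => Option ℕ) (some (s i)) f, ?_, ?_⟩
      · rw [hG]
        simp only [Finset.mem_biUnion, Finset.mem_univ, true_and, Finset.mem_image]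
        exact ⟨i, s i, hi, f, hf, rfl⟩
      · intro j
        refine Fin.succAboveCases i ?_ (fun j => ?_) j
        · intro a ha
          rw [Fin.insertNth_apply_same] at ha
          exact Option.some.inj ha
        · intro a ha
          rw [Fin.insertNth_apply_succAbove] at ha
          exact hfs j a ha

/-- **structure, finitely many polynomials** -/
theorem strFin (n d : ℕ) : ∃ K : ℕ, 1 ≤ K ∧ ∀ κ : ℝ, ∃ N0 : ℕ, ∀ N : ℕ, N0 ≤ N →
    ∀ S : Finset (MvPolynomial (Fin n) ℂ), (∀ P ∈ S, P.totalDegree ≤ d) →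
    ∃ F : Finset (Fin n → Option ℕ), F.card ≤ K ^ S.card ∧
      (∀ f ∈ F, ∀ x ∈ Sp f, ∀ P ∈ S, eval x P = 0) ∧
      ∀ s, Box κ N s → (∀ P ∈ S, eval (fun j => ((zt (s j) : ℝ) : ℂ)) P = 0) →
        ∃ f ∈ F, Fits f s := by
  classical
  obtain ⟨K, hK⟩ := strOne n d
  refine ⟨K + 1, by omega, fun κ => ?_⟩
  obtain ⟨N0, hN0⟩ := hK κ
  refine ⟨N0, fun N hN S => ?_⟩
  induction S using Finset.induction_on with
  | empty =>
    intro _
    refine ⟨{fun _ => none}, by simp, fun f _ x _ P hP => absurd hP (Finset.notMem_empty P),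
      fun s _ _ => ⟨fun _ => none, Finset.mem_singleton_self _, fun i a h => by cases h⟩⟩
  | insert P S hPS ih =>
    intro hd
    obtain ⟨F, hFc, hFv, hFs⟩ := ih fun Q hQ => hd Q (Finset.mem_insert_of_mem hQ)
    obtain ⟨F', hFc', hFv', hFs'⟩ := hN0 N hN P (hd P (Finset.mem_insert_self _ _))
    set mg : (Fin n → Option ℕ) × (Fin n → Option ℕ) → (Fin n → Option ℕ) :=
      fun p i => (p.1 i).or (p.2 i) with hmg
    set G : Finset (Fin n → Option ℕ) :=
      ((F ×ˢ F').filter fun p => ∀ i a b, p.1 i = some a → p.2 i = some b → a = b).image mg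
      with hG
    have hmg1 : ∀ p : (Fin n → Option ℕ) × (Fin n → Option ℕ), ∀ i a, p.1 i = some a →
        mg p i = some a := by
      intro p i a h
      rw [hmg]
      simp only [h, Option.some_or]
    have hmg2 : ∀ p : (Fin n → Option ℕ) × (Fin n → Option ℕ),
        (∀ i a b, p.1 i = some a → p.2 i = some b → a = b) → ∀ i a, p.2 i = some a →
        mg p i = some a := by
      intro p hp i a h
      rw [hmg]
      simp only
      cases h1 : p.1 i with
      | none => rw [Option.none_or, h]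
      | some b => rw [Option.some_or, hp i b a h1 h]
    refine ⟨G, ?_, ?_, ?_⟩
    · rw [Finset.card_insert_of_notMem hPS, pow_succ]
      refine Finset.card_image_le.trans ((Finset.card_filter_le _ _).trans ?_)
      rw [Finset.card_product]
      exact Nat.mul_le_mul hFc (hFc'.trans (Nat.le_succ _))
    · intro g hg x hx Q hQ
      rw [hG, Finset.mem_image] at hg
      obtain ⟨p, hp, rfl⟩ := hg
      rw [Finset.mem_filter, Finset.mem_product] at hp
      rcases Finset.mem_insert.1 hQ with rfl | hQ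
      · exact hFv' p.2 hp.1.2 x fun i a h => hx i a (hmg2 p hp.2 i a h)
      · exact hFv p.1 hp.1.1 x (fun i a h => hx i a (hmg1 p i a h)) Q hQ
    · intro s hs hz
      obtain ⟨f, hf, hfs⟩ := hFs s hs fun Q hQ => hz Q (Finset.mem_insert_of_mem hQ)
      obtain ⟨f', hf', hfs'⟩ := hFs' s hs (hz P (Finset.mem_insert_self _ _))
      refine ⟨mg (f, f'), ?_, ?_⟩
      · rw [hG]
        refine Finset.mem_image_of_mem _ (Finset.mem_filter.2
          ⟨Finset.mem_product.2 ⟨hf, hf'⟩, fun i a b h1 h2 => ?_⟩)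
        rw [← hfs i a h1, ← hfs' i b h2]
      · intro i a h
        rw [hmg] at h
        simp only at h
        cases h1 : f i with
        | none =>
          rw [h1, Option.none_or] at h
          exact hfs' i a h
        | some b =>
          rw [h1, Option.some_or] at h
          exact hfs i a (h1.trans h)

/-- **structure of the zeta points of an algebraic set** -/
theorem strSet (n d : ℕ) : ∃ K : ℕ, ∀ κ : ℝ, ∃ N0 : ℕ, ∀ N : ℕ, N0 ≤ N →
    ∀ S : Set (MvPolynomial (Fin n) ℂ), (∀ P ∈ S, P.totalDegree ≤ d) →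
    ∃ F : Finset (Fin n → Option ℕ), F.card ≤ K ∧
      (∀ f ∈ F, ∀ x ∈ Sp f, ∀ P ∈ S, eval x P = 0) ∧
      ∀ s, Box κ N s → (∀ P ∈ S, eval (fun j => ((zt (s j) : ℝ) : ℂ)) P = 0) →
        ∃ f ∈ F, Fits f s := by
  classical
  obtain ⟨K, hK1, hK⟩ := strFin n d
  set V := restrictTotalDegree (Fin n) ℂ d with hV
  refine ⟨K ^ Module.finrank ℂ V, fun κ => ?_⟩
  obtain ⟨N0, hN0⟩ := hK κ
  refine ⟨N0, fun N hN S hS => ?_⟩
  obtain ⟨b, hbS, hspan, hli⟩ := exists_linearIndependent ℂ S
  have hbV : ∀ P ∈ b, P ∈ V := fun P hP => (mem_restrictTotalDegree _ _ _).2 (hS P (hbS hP))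
  have hli' : LinearIndependent ℂ (fun P : b => (⟨P.1, hbV P.1 P.2⟩ : V)) := by
    apply LinearIndependent.of_comp V.subtype
    exact hli
  have hfin : Finite b := hli'.finite
  have := Fintype.ofFinite b
  have hcard : Fintype.card b ≤ Module.finrank ℂ V := hli'.fintype_card_le_finrank
  obtain ⟨F, hFc, hFv, hFs⟩ := hN0 N hN b.toFinset fun P hP => hS P (hbS (Set.mem_toFinset.1 hP))
  refine ⟨F, ?_, ?_, ?_⟩
  · refine hFc.trans (Nat.pow_le_pow_right hK1 ?_)
    rw [Set.toFinset_card]
    exact hcard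
  · intro f hf x hx P hP
    have h1 : P ∈ Submodule.span ℂ b := by
      rw [hspan]
      exact Submodule.subset_span hP
    have h2 : Submodule.span ℂ b ≤ LinearMap.ker (aeval x : MvPolynomial (Fin n) ℂ →ₐ[ℂ] ℂ).toLinearMap := by
      rw [Submodule.span_le]
      intro Q hQ
      rw [SetLike.mem_coe, LinearMap.mem_ker]
      have h3 := hFv f hf x hx Q (Set.mem_toFinset.2 hQ)
      rw [← h3]
      rfl
    have h3 := LinearMap.mem_ker.1 (h2 h1)
    rw [← h3]
    rfl
  · intro s hs hz
    exact hFs s hs fun P hP => hz P (hbS (Set.mem_toFinset.1 hP))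

end Pool.Agent.L0h64.ZV
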