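import Pool.Agent.L0h64.ZV.Main
import Pool.Agent.L0h64.ZV.Str

/-!
# Zeta points on algebraic sets (helper64)
-/

set_option autoImplicit false

namespace Pool.Agent.L0h64.ZV

open MvPolynomial

/-- **complex polynomials** -/
theorem cplx (n d : ℕ) (κ : ℝ) : ∃ N0 : ℕ, ∀ N : ℕ, N0 ≤ N →
    ∀ P : MvPolynomial (Fin n) ℂ, P.totalDegree ≤ d → P ≠ 0 →
    ∃ H : Finset ℕ, H.card ≤ (n + d).choose n - 1 ∧ ∀ s, Box κ N s → (∀ i, s i ∉ H) →
      eval (fun j => ((zt (s j) : ℝ) : ℂ)) P ≠ 0 := by
  classical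
  obtain ⟨M, hM⟩ : ∃ M, M = (n + d).choose n := ⟨_, rfl⟩
  obtain ⟨B, hB, N0, hmain⟩ := mainT n (M - 1) (d + 1) κ M
  refine ⟨N0 + 1, fun N hN P hP hP0 => ?_⟩
  have hsup : ∀ b ∈ P.support, b ∈ mons n d := fun b hb => by
    rw [mem_mons]
    exact (Finset.le_sup (f := fun s : Fin n →₀ ℕ => s.sum fun _ e => e) hb).trans hP
  obtain ⟨b0, hb0⟩ := MvPolynomial.support_nonempty.2 hP0
  have hb0m : b0 ∈ mons n d := hsup b0 hb0
  have hc0 : P.coeff b0 ≠ 0 := mem_support_iff.1 hb0
  have hcard : ((mons n d).erase b0).card = M - 1 := by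
    rw [Finset.card_erase_of_mem hb0m, card_mons, hM]
  have hM1 : 1 ≤ M := by
    rw [hM]
    exact Nat.choose_pos (by omega)
  obtain ⟨e, -⟩ : ∃ e : Fin (M - 1) ≃ ((mons n d).erase b0), True :=
    ⟨(((mons n d).erase b0).equivFinOfCardEq hcard).symm, trivial⟩
  obtain ⟨x, hx⟩ : ∃ x : Fin (M - 1) → ℂ, x = fun i => P.coeff (e i).1 / P.coeff b0 := ⟨_, rfl⟩
  obtain ⟨U, hU⟩ : ∃ U : MvPolynomial (Fin (M - 1) ⊕ Fin n) ℤ,
      U = rename Sum.inr (monomial b0 1) +
        ∑ i, X (Sum.inl i) * rename Sum.inr (monomial (e i).1 1) := ⟨_, rfl⟩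
  have hmd : ∀ b ∈ mons n d, (rename (σ := Fin n) (τ := Fin (M - 1) ⊕ Fin n) Sum.inr
      (monomial b (1 : ℤ))).totalDegree ≤ d := fun b hb =>
    (totalDegree_rename_le _ _).trans ((totalDegree_monomial_le _ _).trans ((mem_mons _).1 hb))
  have hUd : U.totalDegree ≤ d + 1 := by
    rw [hU]
    refine (totalDegree_add _ _).trans (max_le ((hmd b0 hb0m).trans (Nat.le_succ d)) ?_)
    refine totalDegree_finsetSum_le fun i _ => ?_
    refine (totalDegree_mul _ _).trans ?_
    rw [totalDegree_X, add_comm]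
    exact Nat.succ_le_succ (hmd _ (Finset.mem_of_mem_erase (e i).2))
  have hUc : ∀ b, |((U.coeff b : ℤ) : ℝ)| ≤ (M : ℝ) ^ N := by
    intro b
    have h1 : ∀ (j : Fin n →₀ ℕ) (c : (Fin (M - 1) ⊕ Fin n) →₀ ℕ),
        |(rename (σ := Fin n) (τ := Fin (M - 1) ⊕ Fin n) Sum.inr (monomial j (1 : ℤ))).coeff c| ≤
          1 := by
      intro j c
      rw [rename_monomial, coeff_monomial]
      split_ifs <;> simp
    have h2 : |U.coeff b| ≤ M := by
      rw [hU, coeff_add, coeff_sum]
      refine (abs_add_le _ _).trans ?_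
      have h3 : |∑ i : Fin (M - 1), (X (Sum.inl i) * rename (σ := Fin n)
          (τ := Fin (M - 1) ⊕ Fin n) Sum.inr (monomial (e i).1 (1 : ℤ))).coeff b| ≤
          ((M - 1 : ℕ) : ℤ) := by
        refine (Finset.abs_sum_le_sum_abs _ _).trans ?_
        refine (Finset.sum_le_card_nsmul _ _ 1 fun i _ => ?_).trans (by simp)
        rw [mul_comm, coeff_mul_X']
        split_ifs
        · exact h1 _ _
        · simp
      have h4 := h1 b0 b
      have h5 : ((M - 1 : ℕ) : ℤ) = (M : ℤ) - 1 := by omega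
      omega
    calc |((U.coeff b : ℤ) : ℝ)| = ((|U.coeff b| : ℤ) : ℝ) := by push_cast; rfl
      _ ≤ ((M : ℤ) : ℝ) := by exact_mod_cast h2
      _ = (M : ℝ) := by push_cast; rfl
      _ ≤ (M : ℝ) ^ N := le_self_pow₀ (by exact_mod_cast hM1) (by omega)
  have hval : ∀ y : Fin n → ℂ, aeval (Sum.elim x y) U = eval y P / P.coeff b0 := by
    intro y
    have h1 : ∀ b, aeval (Sum.elim x y) (rename (σ := Fin n) (τ := Fin (M - 1) ⊕ Fin n) Sum.inr
        (monomial b (1 : ℤ))) = ∏ i, y i ^ b i := by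
      intro b
      rw [aeval_rename, Sum.elim_comp_inr, aeval_monomial, map_one, one_mul,
        Finsupp.prod_fintype _ _ fun _ => pow_zero _]
    have h2 : eval y P = ∑ b ∈ mons n d, P.coeff b * ∏ i, y i ^ b i := by
      rw [eval_eq']
      refine Finset.sum_subset hsup fun b _ hb => ?_
      rw [notMem_support_iff.1 hb, zero_mul]
    rw [h2, ← Finset.add_sum_erase _ _ hb0m, hU, map_add, h1, map_sum,
      ← Finset.sum_coe_sort ((mons n d).erase b0) (fun b => P.coeff b * ∏ i, y i ^ b i),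
      ← e.sum_comp, add_div, mul_div_cancel_left₀ _ hc0, Finset.sum_div]
    congr 1
    refine Finset.sum_congr rfl fun i _ => ?_
    rw [map_mul, h1, aeval_X, Sum.elim_inl, hx]
    ring
  obtain ⟨H, hH, hmain⟩ := hmain N (by omega) x
  refine ⟨H, by rw [← hM]; exact hH, fun s hs hsH h0 => hP0 ?_⟩
  refine funext_set (fun _ : Fin n => Metric.closedBall (0 : ℂ) 1) (fun _ => ?_) fun y hy => ?_
  · exact infinite_of_mem_nhds (0 : ℂ) (Metric.closedBall_mem_nhds 0 one_pos)
  · have h1 := hmain s hs hsH U hUd hUc y fun i => by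
      have := hy i (Set.mem_univ i)
      rwa [mem_closedBall_zero_iff] at this
    rw [hval, hval, h0, zero_div, norm_zero, mul_zero, norm_le_zero_iff, div_eq_zero_iff] at h1
    rw [map_zero]
    exact h1.resolve_right hc0

/-- the bound for the number of families -/
def famBound (n d : ℕ) : ℕ := n.factorial * ∏ j ∈ Finset.range n, ((j + 1 + d).choose (j + 1) - 1)

lemma famBound_succ (n d : ℕ) :
    famBound (n + 1) d = (n + 1) * ((n + 1 + d).choose (n + 1) - 1) * famBound n d := by
  unfold famBound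
  rw [Finset.prod_range_succ, Nat.factorial_succ]
  ring

lemma famBound_pos (n d : ℕ) (hd : 1 ≤ d) : 1 ≤ famBound n d := by
  unfold famBound
  refine Nat.succ_le_of_lt (Nat.mul_pos (Nat.factorial_pos n) (Finset.prod_pos fun j _ => ?_))
  have h1 : (j + 1 + 1).choose (j + 1) ≤ (j + 1 + d).choose (j + 1) :=
    Nat.choose_le_choose _ (by omega)
  rw [Nat.choose_succ_self_right] at h1
  omega

/-- **structure of the zeta points of an algebraic set** -/
theorem strSet' (n d : ℕ) (κ : ℝ) : ∃ N0 : ℕ, ∀ N : ℕ, N0 ≤ N →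
    ∀ S : Set (MvPolynomial (Fin n) ℂ), (∀ P ∈ S, P.totalDegree ≤ d) →
    ∃ F : Finset (Fin n → Option ℕ), F.card ≤ max 1 (famBound n d) ∧
      (∀ f ∈ F, ∀ x ∈ Sp f, ∀ P ∈ S, eval x P = 0) ∧
      ∀ s, Box κ N s → (∀ P ∈ S, eval (fun j => ((zt (s j) : ℝ) : ℂ)) P = 0) →
        ∃ f ∈ F, Fits f s := by
  classical
  induction n with
  | zero =>
    refine ⟨0, fun N _ S _ => ?_⟩
    by_cases hS : ∀ P ∈ S, P = 0
    · refine ⟨{fun _ => none}, by simp, fun f _ x _ P hP => by rw [hS P hP, map_zero],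
        fun s _ _ => ?_⟩
      exact ⟨_, Finset.mem_singleton_self _, fun i => i.elim0⟩
    · refine ⟨∅, by simp, by simp, fun s _ h => ?_⟩
      exfalso
      push Not at hS
      obtain ⟨P, hP, hP0⟩ := hS
      apply hP0
      apply MvPolynomial.funext
      intro y
      rw [map_zero, ← h P hP]
      congr 1
      congr 1
      funext i
      exact i.elim0
  | succ n ih =>
    obtain ⟨N1, ih⟩ := ih
    obtain ⟨N2, hc⟩ := cplx (n + 1) d κ
    refine ⟨max N1 N2, fun N hN S hS => ?_⟩
    by_cases hS0 : ∀ P ∈ S, P = 0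
    · refine ⟨{fun _ => none}, by simp, fun f _ x _ P hP => by rw [hS0 P hP, map_zero],
        fun s _ _ => ?_⟩
      exact ⟨_, Finset.mem_singleton_self _, fun i a h => by simp at h⟩
    · push Not at hS0
      obtain ⟨P0, hP0, hP00⟩ := hS0
      obtain ⟨H, hH, hHs⟩ := hc N ((le_max_right _ _).trans hN) P0 (hS P0 hP0) hP00
      -- the sets of polynomials after the substitution of `ζ(a)` for the variable `i`
      have h1 : ∀ p : Fin (n + 1) × ℕ, ∃ F : Finset (Fin n → Option ℕ),
          F.card ≤ max 1 (famBound n d) ∧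
          (∀ f ∈ F, ∀ x ∈ Sp f, ∀ P ∈ S, eval x (sub p.1 ((zt p.2 : ℝ) : ℂ) P) = 0) ∧
          ∀ s, Box κ N s → (∀ P ∈ S, eval (fun j => ((zt (s j) : ℝ) : ℂ))
            (sub p.1 ((zt p.2 : ℝ) : ℂ) P) = 0) → ∃ f ∈ F, Fits f s := by
        intro p
        obtain ⟨F, hF1, hF2, hF3⟩ := ih N ((le_max_left _ _).trans hN)
          ((fun P => sub p.1 ((zt p.2 : ℝ) : ℂ) P) '' S) (by
            rintro _ ⟨P, hP, rfl⟩
            exact totalDegree_sub _ _ _ _ (hS P hP))
        refine ⟨F, hF1, fun f hf x hx P hP => hF2 f hf x hx _ ⟨P, hP, rfl⟩,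
          fun s hs h => hF3 s hs ?_⟩
        rintro _ ⟨P, hP, rfl⟩
        exact h P hP
      choose F hF1 hF2 hF3 using h1
      refine ⟨(Finset.univ ×ˢ H).biUnion fun p => (F p).image fun f =>
        p.1.insertNth (α := fun _ => Option ℕ) (some p.2) f, ?_, ?_, ?_⟩
      · refine (Finset.card_biUnion_le_card_mul _ _ (max 1 (famBound n d)) fun p _ =>
          Finset.card_image_le.trans (hF1 p)).trans ?_
        rw [Finset.card_product, Finset.card_univ, Fintype.card_fin]
        rcases Nat.eq_zero_or_pos d with hd | hd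
        · have h2 : H.card = 0 := by
            rw [hd, Nat.add_zero, Nat.choose_self] at hH
            omega
          rw [h2, Nat.mul_zero, Nat.zero_mul]
          exact Nat.zero_le _
        · have h2 := famBound_pos n d hd
          rw [max_eq_right h2, famBound_succ]
          refine le_trans ?_ (le_max_right _ _)
          exact Nat.mul_le_mul_right _ (Nat.mul_le_mul_left _ hH)
      · intro f hf x hx P hP
        rw [Finset.mem_biUnion] at hf
        obtain ⟨p, -, hf⟩ := hf
        rw [Finset.mem_image] at hf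
        obtain ⟨g, hg, rfl⟩ := hf
        have h2 := hF2 p g hg (fun j => x (p.1.succAbove j)) (by
          intro j a hja
          exact hx (p.1.succAbove j) a (by rw [Fin.insertNth_apply_succAbove]; exact hja)) P hP
        rw [eval_sub] at h2
        have h3 : p.1.insertNth (α := fun _ => ℂ) ((zt p.2 : ℝ) : ℂ)
            (fun j => x (p.1.succAbove j)) = x := by
          rw [← hx p.1 p.2 (by rw [Fin.insertNth_apply_same])]
          exact Fin.insertNth_self_removeNth p.1 x
        rwa [h3] at h2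
      · intro s hs h
        have h2 : ∃ i, s i ∈ H := by
          by_contra hcon
          push Not at hcon
          exact hHs s hs hcon (h P0 hP0)
        obtain ⟨i, hi⟩ := h2
        obtain ⟨g, hg, hgs⟩ := hF3 (i, s i) (fun j => s (i.succAbove j))
          ⟨hs.1.comp Fin.succAbove_right_injective, fun j => hs.2 _⟩ (by
            intro P hP
            rw [eval_sub]
            have h3 : i.insertNth (α := fun _ => ℂ) ((zt (s i) : ℝ) : ℂ)
                (fun j => ((zt (s (i.succAbove j)) : ℝ) : ℂ)) =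
                fun j => ((zt (s j) : ℝ) : ℂ) :=
              Fin.insertNth_self_removeNth i fun j => ((zt (s j) : ℝ) : ℂ)
            rw [h3]
            exact h P hP)
        refine ⟨_, Finset.mem_biUnion.2 ⟨(i, s i), Finset.mem_product.2
          ⟨Finset.mem_univ _, hi⟩, Finset.mem_image.2 ⟨g, hg, rfl⟩⟩, ?_⟩
        intro j a hja
        rcases eq_or_ne j i with rfl | hji
        · rw [Fin.insertNth_apply_same, Option.some.injEq] at hja
          exact hja
        · obtain ⟨l, rfl⟩ := Fin.exists_succAbove_eq hji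
          rw [Fin.insertNth_apply_succAbove] at hja
          exact hgs l a hja

end Pool.Agent.L0h64.ZV
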