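import Mathlib

/-!
# Determinants of polynomials in separate variables (helper64)
-/

set_option autoImplicit false

namespace Pool.Agent.L0h64.ZV

open MvPolynomial

/-- the sum of the absolute values of the coefficients -/
noncomputable def len {σ : Type*} (P : MvPolynomial σ ℤ) : ℝ :=
  ∑ a ∈ P.support, |((P.coeff a : ℤ) : ℝ)|

section len

variable {σ : Type*}

lemma len_eq {P : MvPolynomial σ ℤ} {S : Finset (σ →₀ ℕ)} (h : P.support ⊆ S) :
    len P = ∑ a ∈ S, |((P.coeff a : ℤ) : ℝ)| := by
  unfold len
  refine Finset.sum_subset h fun a _ ha => ?_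
  rw [MvPolynomial.notMem_support_iff.1 ha]
  simp

lemma len_nonneg (P : MvPolynomial σ ℤ) : 0 ≤ len P :=
  Finset.sum_nonneg fun _ _ => abs_nonneg _

lemma coeff_le_len (P : MvPolynomial σ ℤ) (a : σ →₀ ℕ) : |((P.coeff a : ℤ) : ℝ)| ≤ len P := by
  by_cases h : a ∈ P.support
  · exact Finset.single_le_sum (f := fun a => |((P.coeff a : ℤ) : ℝ)|)
      (fun _ _ => abs_nonneg _) h
  · rw [MvPolynomial.notMem_support_iff.1 h]
    simpa using len_nonneg P

lemma len_zero : len (0 : MvPolynomial σ ℤ) = 0 := by
  unfold len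
  simp

lemma len_add_le (P Q : MvPolynomial σ ℤ) : len (P + Q) ≤ len P + len Q := by
  classical
  rw [len_eq (MvPolynomial.support_add (p := P) (q := Q)),
    len_eq (Finset.subset_union_left (s₁ := P.support) (s₂ := Q.support)),
    len_eq (Finset.subset_union_right (s₁ := P.support) (s₂ := Q.support)),
    ← Finset.sum_add_distrib]
  refine Finset.sum_le_sum fun a _ => ?_
  rw [coeff_add]
  push_cast
  exact abs_add_le _ _

lemma len_sum_le {ι : Type*} (s : Finset ι) (f : ι → MvPolynomial σ ℤ) :
    len (∑ i ∈ s, f i) ≤ ∑ i ∈ s, len (f i) := by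
  classical
  induction s using Finset.induction_on with
  | empty => simp [len_zero]
  | insert i s hi ih =>
    rw [Finset.sum_insert hi, Finset.sum_insert hi]
    exact (len_add_le _ _).trans (by linarith)

lemma len_monomial_mul_le (a : σ →₀ ℕ) (c : ℤ) (Q : MvPolynomial σ ℤ) :
    len (monomial a c * Q) ≤ |(c : ℝ)| * len Q := by
  classical
  have h1 : (monomial a c * Q).support ⊆ Q.support.image (a + ·) := by
    intro m hm
    rw [mem_support_iff, coeff_monomial_mul'] at hm
    split_ifs at hm with h
    · rw [Finset.mem_image]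
      refine ⟨m - a, ?_, ?_⟩
      · rw [mem_support_iff]
        intro h2
        rw [h2, mul_zero] at hm
        exact hm rfl
      · show a + (m - a) = m
        rw [add_comm]
        exact tsub_add_cancel_of_le h
    · exact absurd rfl hm
  rw [len_eq h1, Finset.sum_image fun x _ y _ h => add_left_cancel h]
  unfold len
  rw [Finset.mul_sum]
  refine Finset.sum_le_sum fun b _ => ?_
  rw [coeff_monomial_mul', if_pos le_self_add, add_tsub_cancel_left]
  push_cast
  rw [abs_mul]

lemma len_mul_le (P Q : MvPolynomial σ ℤ) : len (P * Q) ≤ len P * len Q := by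
  have h1 : P * Q = ∑ a ∈ P.support, monomial a (P.coeff a) * Q := by
    rw [← Finset.sum_mul]
    congr 1
    exact P.as_sum
  rw [h1]
  refine (len_sum_le _ _).trans ?_
  conv_rhs => rw [len, Finset.sum_mul]
  exact Finset.sum_le_sum fun a _ => len_monomial_mul_le _ _ _

lemma len_one_le : len (1 : MvPolynomial σ ℤ) ≤ 1 := by
  classical
  have h1 : (1 : MvPolynomial σ ℤ).support ⊆ {0} := by
    intro a ha
    rw [mem_support_iff, coeff_one] at ha
    rw [Finset.mem_singleton]
    by_contra h
    rw [if_neg (Ne.symm h)] at ha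
    exact ha rfl
  rw [len_eq h1, Finset.sum_singleton, coeff_one, if_pos rfl]
  simp

lemma len_prod_le {ι : Type*} (s : Finset ι) (f : ι → MvPolynomial σ ℤ) (L : ℝ) (hL : 0 ≤ L)
    (h : ∀ i ∈ s, len (f i) ≤ L) : len (∏ i ∈ s, f i) ≤ L ^ s.card := by
  classical
  induction s using Finset.induction_on with
  | empty => simpa using len_one_le
  | insert i s hi ih =>
    rw [Finset.prod_insert hi, Finset.card_insert_of_notMem hi, pow_succ']
    refine (len_mul_le _ _).trans ?_
    exact mul_le_mul (h i (Finset.mem_insert_self _ _))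
      (ih fun j hj => h j (Finset.mem_insert_of_mem hj)) (len_nonneg _) hL

lemma len_neg (P : MvPolynomial σ ℤ) : len (-P) = len P := by
  unfold len
  rw [support_neg]
  refine Finset.sum_congr rfl fun a _ => ?_
  rw [coeff_neg]
  push_cast
  rw [abs_neg]

lemma len_units_smul (u : ℤˣ) (P : MvPolynomial σ ℤ) : len (u • P) = len P := by
  rcases Int.units_eq_one_or u with rfl | rfl
  · rw [one_smul]
  · have : (-1 : ℤˣ) • P = -P := by
      rw [Units.neg_smul, one_smul]
    rw [this, len_neg]

lemma len_rename {τ : Type*} (f : σ → τ) (hf : Function.Injective f) (P : MvPolynomial σ ℤ) :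
    len (rename f P) = len P := by
  classical
  have h1 : (rename f P).support ⊆ P.support.image (Finsupp.mapDomain f) := by
    rw [support_rename_of_injective hf]
  rw [len_eq h1, Finset.sum_image fun x _ y _ h => Finsupp.mapDomain_injective hf h]
  unfold len
  refine Finset.sum_congr rfl fun a _ => ?_
  rw [coeff_rename_mapDomain f hf]

lemma abs_aeval_le {R : ℝ} (hR : 1 ≤ R) (P : MvPolynomial σ ℤ) (x : σ → ℂ) (hx : ∀ i, ‖x i‖ ≤ R)
    (d : ℕ) (hd : P.totalDegree ≤ d) : ‖aeval x P‖ ≤ len P * R ^ d := by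
  rw [aeval_def, eval₂_eq]
  refine (norm_sum_le _ _).trans ?_
  unfold len
  rw [Finset.sum_mul]
  refine Finset.sum_le_sum fun a ha => ?_
  rw [norm_mul, norm_prod]
  have h1 : ‖(algebraMap ℤ ℂ) (P.coeff a)‖ = |((P.coeff a : ℤ) : ℝ)| := by
    simp
  rw [h1]
  refine mul_le_mul_of_nonneg_left ?_ (abs_nonneg _)
  have h2 : ∏ i ∈ a.support, ‖x i ^ a i‖ ≤ ∏ i ∈ a.support, R ^ a i := by
    refine Finset.prod_le_prod (fun _ _ => norm_nonneg _) fun i _ => ?_
    rw [norm_pow]
    exact pow_le_pow_left₀ (norm_nonneg _) (hx i) _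
  refine h2.trans ?_
  rw [Finset.prod_pow_eq_pow_sum]
  refine pow_le_pow_right₀ hR ?_
  exact (Finset.le_sup (f := fun s : σ →₀ ℕ => s.sum fun _ e => e) ha).trans hd

end len

lemma len_le {n : ℕ} (P : MvPolynomial (Fin n) ℤ) (d : ℕ) (hd : P.totalDegree ≤ d) (c : ℝ)
    (hc0 : 0 ≤ c) (hc : ∀ a, |((P.coeff a : ℤ) : ℝ)| ≤ c) : len P ≤ (d + 1) ^ n * c := by
  classical
  have hcard : P.support.card ≤ (d + 1) ^ n := by
    have h1 : P.support ⊆ (Fintype.piFinset fun _ : Fin n => Finset.range (d + 1)).image
        Finsupp.equivFunOnFinite.symm := by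
      intro a ha
      rw [Finset.mem_image]
      refine ⟨a, Fintype.mem_piFinset.2 fun i => ?_, ?_⟩
      · rw [Finset.mem_range, Nat.lt_succ_iff]
        refine le_trans ?_ ((Finset.le_sup (f := fun s : Fin n →₀ ℕ => s.sum fun _ e => e)
          ha).trans hd)
        by_cases hi : a i = 0
        · rw [hi]
          exact Nat.zero_le _
        · exact Finset.single_le_sum (f := fun i => a i) (fun _ _ => Nat.zero_le _)
            (Finsupp.mem_support_iff.2 hi)
      · ext i
        rfl
    refine (Finset.card_le_card h1).trans (Finset.card_image_le.trans ?_)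
    rw [Fintype.card_piFinset]
    simp
  unfold len
  calc ∑ a ∈ P.support, |((P.coeff a : ℤ) : ℝ)| ≤ ∑ _a ∈ P.support, c :=
        Finset.sum_le_sum fun a _ => hc a
    _ = P.support.card * c := by rw [Finset.sum_const, nsmul_eq_mul]
    _ ≤ (d + 1) ^ n * c := mul_le_mul_of_nonneg_right (by exact_mod_cast hcard) hc0

section det

variable {m n : ℕ}

/-- the determinant of polynomials in separate variables -/
noncomputable def sepDet (Q : Fin m → Fin m → MvPolynomial (Fin n) ℤ) :
    MvPolynomial (Fin m × Fin n) ℤ :=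
  Matrix.det (Matrix.of fun i a => rename (fun j => (i, j)) (Q i a))

lemma aeval_sepDet {A : Type*} [CommRing A] (Q : Fin m → Fin m → MvPolynomial (Fin n) ℤ)
    (z : Fin m × Fin n → A) :
    aeval z (sepDet Q) = Matrix.det (Matrix.of fun i a => aeval (fun j => z (i, j)) (Q i a)) := by
  unfold sepDet
  rw [AlgHom.map_det]
  congr 1
  ext i a
  simp only [AlgHom.mapMatrix_apply, Matrix.map_apply, Matrix.of_apply]
  rw [aeval_rename]
  rfl

lemma inj_pair (i : Fin m) : Function.Injective (fun j : Fin n => (i, j)) :=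
  fun _ _ h => (Prod.mk.inj h).2

lemma totalDegree_sepDet (Q : Fin m → Fin m → MvPolynomial (Fin n) ℤ) (d : ℕ)
    (hQ : ∀ i a, (Q i a).totalDegree ≤ d) : (sepDet Q).totalDegree ≤ m * d := by
  unfold sepDet
  rw [Matrix.det_apply]
  refine MvPolynomial.totalDegree_finsetSum_le fun σ _ => ?_
  have h1 : (∏ i, (Matrix.of fun i a => rename (fun j => (i, j)) (Q i a)) (σ i) i).totalDegree ≤
      m * d := by
    refine (MvPolynomial.totalDegree_finset_prod _ _).trans ?_
    calc ∑ i : Fin m, ((Matrix.of fun i a => rename (fun j => (i, j)) (Q i a)) (σ i) i).totalDegree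
        ≤ ∑ _i : Fin m, d := Finset.sum_le_sum fun i _ => by
          rw [Matrix.of_apply]
          exact (totalDegree_rename_le _ _).trans (hQ _ _)
      _ = m * d := by simp
  rcases Int.units_eq_one_or (Equiv.Perm.sign σ) with h | h
  · rw [h, one_smul]
    exact h1
  · rw [h, Units.neg_smul, one_smul, totalDegree_neg]
    exact h1

lemma len_sepDet (Q : Fin m → Fin m → MvPolynomial (Fin n) ℤ) (L : ℝ) (hL : 0 ≤ L)
    (hQ : ∀ i a, len (Q i a) ≤ L) : len (sepDet Q) ≤ m.factorial * L ^ m := by
  unfold sepDet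
  rw [Matrix.det_apply]
  refine (len_sum_le _ _).trans ?_
  calc ∑ σ : Equiv.Perm (Fin m), len (Equiv.Perm.sign σ •
        ∏ i, (Matrix.of fun i a => rename (fun j => (i, j)) (Q i a)) (σ i) i)
      ≤ ∑ _σ : Equiv.Perm (Fin m), L ^ m := Finset.sum_le_sum fun σ _ => by
        rw [len_units_smul]
        have h := len_prod_le Finset.univ
          (fun i => (Matrix.of fun i a => rename (fun j => (i, j)) (Q i a)) (σ i) i) L hL
          fun i _ => by
            rw [Matrix.of_apply, len_rename _ (inj_pair _)]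
            exact hQ _ _
        rwa [Finset.card_univ, Fintype.card_fin] at h
    _ = m.factorial * L ^ m := by
        rw [Finset.sum_const, Finset.card_univ, Fintype.card_perm, Fintype.card_fin, nsmul_eq_mul]

/-- the rows of the values span the whole space -/
lemma span_rows (q : Fin m → MvPolynomial (Fin n) ℤ) (hq : LinearIndependent ℤ q) :
    Submodule.span ℚ (Set.range fun x : Fin n → ℚ => fun a => aeval x (q a)) = ⊤ := by
  by_contra h
  obtain ⟨f, hf0, hf⟩ := Submodule.exists_le_ker_of_lt_top _ (lt_top_iff_ne_top.2 h)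
  set b : Fin m → MvPolynomial (Fin n) ℚ := fun a => map (Int.castRingHom ℚ) (q a) with hb
  have hbi : LinearIndependent ℤ b := by
    have h1 := hq.map' ((map (σ := Fin n) (Int.castRingHom ℚ)).toAddMonoidHom.toIntLinearMap)
      (LinearMap.ker_eq_bot.2 (map_injective _ Int.cast_injective))
    exact h1
  have hbq : LinearIndependent ℚ b := (LinearIndependent.iff_fractionRing ℤ ℚ).1 hbi
  rw [Fintype.linearIndependent_iff] at hbq
  have h2 : ∑ a, f (Pi.single a 1) • b a = 0 := by
    refine MvPolynomial.funext fun x => ?_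
    have h3 : f (fun a => aeval x (q a)) = 0 :=
      LinearMap.mem_ker.1 (hf (Submodule.subset_span ⟨x, rfl⟩))
    rw [LinearMap.pi_apply_eq_sum_univ] at h3
    rw [map_sum, map_zero, ← h3]
    refine Finset.sum_congr rfl fun a _ => ?_
    rw [smul_eval, hb]
    simp only [smul_eq_mul]
    rw [mul_comm]
    congr 1
    · rw [eval_map, aeval_def]
      rfl
    · congr 1
      funext j
      rw [Pi.single_apply]
      by_cases h : a = j
      · subst h
        simp
      · rw [if_neg h, if_neg (Ne.symm h)]
  have h4 := hbq _ h2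
  apply hf0
  refine LinearMap.ext fun v => ?_
  rw [LinearMap.pi_apply_eq_sum_univ]
  rw [LinearMap.zero_apply]
  refine Finset.sum_eq_zero fun a _ => ?_
  have h5 : f (fun j => if a = j then 1 else 0) = f (Pi.single a 1) := by
    congr 1
    funext j
    rw [Pi.single_apply]
    by_cases h : a = j
    · subst h
      simp
    · rw [if_neg h, if_neg (Ne.symm h)]
  rw [h5, h4 a, smul_zero]

theorem sepDet_ne_zero (Q : Fin m → Fin m → MvPolynomial (Fin n) ℤ)
    (hQ : ∀ i, LinearIndependent ℤ (Q i)) : sepDet Q ≠ 0 := by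
  classical
  intro h0
  have key : ∀ S : Finset (Fin m), ∀ r : Matrix (Fin m) (Fin m) ℚ,
      (∀ i, i ∉ S → ∃ x : Fin n → ℚ, r i = fun a => aeval x (Q i a)) → r.det = 0 := by
    intro S
    induction S using Finset.induction_on with
    | empty =>
      intro r hr
      choose x hx using fun i => hr i (Finset.notMem_empty i)
      have h1 := aeval_sepDet Q (fun p : Fin m × Fin n => x p.1 p.2)
      rw [h0, map_zero] at h1
      rw [h1]
      congr 1
      ext i a
      rw [hx i]
      rfl
    | insert i S hi ih =>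
      intro r hr
      have h1 : r i ∈ Submodule.span ℚ
          (Set.range fun x : Fin n → ℚ => fun a => aeval x (Q i a)) := by
        rw [span_rows (Q i) (hQ i)]
        exact Submodule.mem_top
      have h2 : ∀ v ∈ Submodule.span ℚ
          (Set.range fun x : Fin n → ℚ => fun a => aeval x (Q i a)), (r.updateRow i v).det = 0 := by
        intro v hv
        induction hv using Submodule.span_induction with
        | mem v hv =>
          obtain ⟨x, rfl⟩ := hv
          refine ih _ fun j hj => ?_
          by_cases hji : j = i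
          · subst hji
            exact ⟨x, by rw [Matrix.updateRow_self]⟩
          · obtain ⟨y, hy⟩ := hr j (by
              rw [Finset.mem_insert, not_or]
              exact ⟨hji, hj⟩)
            exact ⟨y, by rw [Matrix.updateRow_ne hji, hy]⟩
        | zero =>
          refine Matrix.det_eq_zero_of_row_eq_zero i fun j => ?_
          rw [Matrix.updateRow_self]
          rfl
        | add u v _ _ hu hv => rw [Matrix.det_updateRow_add, hu, hv, add_zero]
        | smul c v _ hv => rw [Matrix.det_updateRow_smul, hv, mul_zero]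
      have h3 := h2 _ h1
      rwa [Matrix.updateRow_eq_self] at h3
  have h1 := key Finset.univ 1 fun i hi => absurd (Finset.mem_univ i) hi
  rw [Matrix.det_one] at h1
  exact one_ne_zero h1

lemma norm_det_le (A : Matrix (Fin m) (Fin m) ℂ) (E : ℝ) (hA : ∀ i a, ‖A i a‖ ≤ E) :
    ‖A.det‖ ≤ m.factorial * E ^ m := by
  rw [Matrix.det_apply]
  refine (norm_sum_le _ _).trans ?_
  calc ∑ σ : Equiv.Perm (Fin m), ‖Equiv.Perm.sign σ • ∏ i, A (σ i) i‖
      ≤ ∑ _σ : Equiv.Perm (Fin m), E ^ m := Finset.sum_le_sum fun σ _ => by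
        have h1 : ‖Equiv.Perm.sign σ • ∏ i, A (σ i) i‖ = ‖∏ i, A (σ i) i‖ := by
          rcases Int.units_eq_one_or (Equiv.Perm.sign σ) with h | h
          · rw [h, one_smul]
          · rw [h, Units.neg_smul, one_smul, norm_neg]
        rw [h1, norm_prod]
        calc ∏ i, ‖A (σ i) i‖ ≤ ∏ _i : Fin m, E :=
              Finset.prod_le_prod (fun _ _ => norm_nonneg _) fun i _ => hA _ _
          _ = E ^ m := by simp
    _ = m.factorial * E ^ m := by
        rw [Finset.sum_const, Finset.card_univ, Fintype.card_perm, Fintype.card_fin, nsmul_eq_mul]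

lemma det_small (A : Matrix (Fin m) (Fin m) ℂ) (x : Fin m → ℂ) (a0 : Fin m) (hx : 1 ≤ ‖x a0‖)
    (E ε : ℝ) (hE1 : 1 ≤ E) (hE : ∀ i a, ‖A i a‖ ≤ E) (hA : ∀ i, ‖(A.mulVec x) i‖ ≤ ε) :
    ‖A.det‖ ≤ m * (m.factorial * E ^ m) * ε := by
  classical
  have h1 : A.det * x a0 = ∑ i, A.adjugate a0 i * (A.mulVec x) i := by
    have h2 : A.adjugate.mulVec (A.mulVec x) = A.det • x := by
      rw [Matrix.mulVec_mulVec, Matrix.adjugate_mul, Matrix.smul_mulVec, Matrix.one_mulVec]
    have h3 := congrFun h2 a0
    rw [Pi.smul_apply, smul_eq_mul] at h3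
    rw [← h3]
    rfl
  have h2 : ∀ i, ‖A.adjugate a0 i‖ ≤ m.factorial * E ^ m := by
    intro i
    rw [Matrix.adjugate_apply]
    refine norm_det_le _ E fun j a => ?_
    rw [Matrix.updateRow_apply]
    split_ifs with h
    · rw [Pi.single_apply]
      split_ifs
      · simpa using hE1
      · simpa using zero_le_one.trans hE1
    · exact hE j a
  calc ‖A.det‖ ≤ ‖A.det‖ * ‖x a0‖ := le_mul_of_one_le_right (norm_nonneg _) hx
    _ = ‖∑ i, A.adjugate a0 i * (A.mulVec x) i‖ := by rw [← norm_mul, h1]
    _ ≤ ∑ i, ‖A.adjugate a0 i * (A.mulVec x) i‖ := norm_sum_le _ _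
    _ ≤ ∑ _i : Fin m, (m.factorial * E ^ m) * ε := Finset.sum_le_sum fun i _ => by
        rw [norm_mul]
        exact mul_le_mul (h2 i) (hA i) (norm_nonneg _) (by positivity)
    _ = m * (m.factorial * E ^ m) * ε := by
        rw [Finset.sum_const, Finset.card_univ, Fintype.card_fin, nsmul_eq_mul]
        ring

end det

end Pool.Agent.L0h64.ZV
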