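import Mathlib

/-!
# The sum of the absolute values of the coefficients (helper64)
-/

set_option autoImplicit false

namespace Pool.Agent.L0h64.ZV

open MvPolynomial

variable {σ τ : Type*}

/-- the sum of the absolute values of the coefficients -/
noncomputable def l1 (P : MvPolynomial σ ℤ) : ℕ := ∑ b ∈ P.support, (P.coeff b).natAbs

lemma l1_eq (P : MvPolynomial σ ℤ) {s : Finset (σ →₀ ℕ)} (h : P.support ⊆ s) :
    l1 P = ∑ b ∈ s, (P.coeff b).natAbs :=
  Finset.sum_subset h fun b _ hb => by rw [notMem_support_iff.1 hb, Int.natAbs_zero]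

lemma l1_zero : l1 (0 : MvPolynomial σ ℤ) = 0 := by
  unfold l1
  simp

lemma l1_add (P Q : MvPolynomial σ ℤ) : l1 (P + Q) ≤ l1 P + l1 Q := by
  classical
  rw [l1_eq (P + Q) (s := P.support ∪ Q.support) support_add,
    l1_eq P (s := P.support ∪ Q.support) Finset.subset_union_left,
    l1_eq Q (s := P.support ∪ Q.support) Finset.subset_union_right, ← Finset.sum_add_distrib]
  exact Finset.sum_le_sum fun b _ => by
    rw [coeff_add]
    exact Int.natAbs_add_le _ _

lemma l1_neg (P : MvPolynomial σ ℤ) : l1 (-P) = l1 P := by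
  unfold l1
  rw [support_neg]
  exact Finset.sum_congr rfl fun b _ => by rw [coeff_neg, Int.natAbs_neg]

lemma l1_sub (P Q : MvPolynomial σ ℤ) : l1 (P - Q) ≤ l1 P + l1 Q := by
  rw [sub_eq_add_neg]
  exact (l1_add _ _).trans (by rw [l1_neg])

lemma l1_sum {ι : Type*} (s : Finset ι) (f : ι → MvPolynomial σ ℤ) :
    l1 (∑ i ∈ s, f i) ≤ ∑ i ∈ s, l1 (f i) := by
  classical
  induction s using Finset.induction_on with
  | empty => rw [Finset.sum_empty, Finset.sum_empty, l1_zero]
  | insert i s hi ih =>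
    rw [Finset.sum_insert hi, Finset.sum_insert hi]
    exact (l1_add _ _).trans (Nat.add_le_add_left ih _)

lemma l1_list_sum (L : List (MvPolynomial σ ℤ)) : l1 L.sum ≤ (L.map l1).sum := by
  induction L with
  | nil => rw [List.sum_nil, l1_zero]; exact Nat.zero_le _
  | cons a L ih =>
    rw [List.sum_cons, List.map_cons, List.sum_cons]
    exact (l1_add _ _).trans (Nat.add_le_add_left ih _)

lemma l1_monomial (b : σ →₀ ℕ) (c : ℤ) : l1 (monomial b c) ≤ c.natAbs := by
  classical
  rw [l1_eq (s := {b}) _ support_monomial_subset, Finset.sum_singleton, coeff_monomial, if_pos rfl]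

lemma l1_C (c : ℤ) : l1 (C c : MvPolynomial σ ℤ) ≤ c.natAbs := l1_monomial 0 c

lemma l1_X (i : σ) : l1 (X i : MvPolynomial σ ℤ) ≤ 1 := l1_monomial _ 1

lemma l1_monomial_mul (b : σ →₀ ℕ) (c : ℤ) (Q : MvPolynomial σ ℤ) :
    l1 (monomial b c * Q) ≤ c.natAbs * l1 Q := by
  conv_lhs => rw [Q.as_sum, Finset.mul_sum]
  refine (l1_sum _ _).trans ?_
  unfold l1
  rw [Finset.mul_sum]
  refine Finset.sum_le_sum fun b' _ => ?_
  rw [monomial_mul, ← Int.natAbs_mul]
  exact l1_monomial _ _

lemma l1_mul (P Q : MvPolynomial σ ℤ) : l1 (P * Q) ≤ l1 P * l1 Q := by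
  conv_lhs => rw [P.as_sum, Finset.sum_mul]
  refine (l1_sum _ _).trans ?_
  conv_rhs => rw [l1, Finset.sum_mul]
  exact Finset.sum_le_sum fun b _ => l1_monomial_mul _ _ _

lemma l1_one : l1 (1 : MvPolynomial σ ℤ) ≤ 1 := l1_C 1

lemma l1_pow (P : MvPolynomial σ ℤ) (n : ℕ) : l1 (P ^ n) ≤ l1 P ^ n := by
  induction n with
  | zero => rw [pow_zero, pow_zero]; exact l1_one
  | succ n ih =>
    rw [pow_succ, pow_succ]
    exact (l1_mul _ _).trans (Nat.mul_le_mul_right _ ih)

lemma l1_prod {ι : Type*} (s : Finset ι) (f : ι → MvPolynomial σ ℤ) :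
    l1 (∏ i ∈ s, f i) ≤ ∏ i ∈ s, l1 (f i) := by
  classical
  induction s using Finset.induction_on with
  | empty => rw [Finset.prod_empty, Finset.prod_empty]; exact l1_one
  | insert i s hi ih =>
    rw [Finset.prod_insert hi, Finset.prod_insert hi]
    exact (l1_mul _ _).trans (Nat.mul_le_mul_left _ ih)

lemma l1_list_prod (L : List σ) : l1 (L.map (X (R := ℤ))).prod ≤ 1 := by
  induction L with
  | nil => rw [List.map_nil, List.prod_nil]; exact l1_one
  | cons a L ih =>
    rw [List.map_cons, List.prod_cons]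
    refine (l1_mul _ _).trans ?_
    calc _ ≤ 1 * 1 := Nat.mul_le_mul (l1_X _) ih
      _ = 1 := one_mul _

lemma deg_list_prod (L : List σ) : (L.map (X (R := ℤ))).prod.totalDegree ≤ L.length := by
  induction L with
  | nil => rw [List.map_nil, List.prod_nil, totalDegree_one]; exact Nat.zero_le _
  | cons a L ih =>
    rw [List.map_cons, List.prod_cons, List.length_cons, add_comm]
    exact (totalDegree_mul _ _).trans (Nat.add_le_add (totalDegree_X _).le ih)

lemma deg_list_sum (n : ℕ) (L : List (MvPolynomial σ ℤ)) (h : ∀ P ∈ L, P.totalDegree ≤ n) :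
    L.sum.totalDegree ≤ n := by
  induction L with
  | nil => rw [List.sum_nil, totalDegree_zero]; exact Nat.zero_le _
  | cons a L ih =>
    rw [List.sum_cons]
    refine (totalDegree_add _ _).trans (max_le (h a (by simp)) (ih fun P hP => h P (by simp [hP])))

lemma l1_rename (f : σ → τ) (P : MvPolynomial σ ℤ) : l1 (rename f P) ≤ l1 P := by
  conv_lhs => rw [P.as_sum, map_sum]
  refine (l1_sum _ _).trans (Finset.sum_le_sum fun b _ => ?_)
  rw [rename_monomial]
  exact l1_monomial _ _

lemma coeff_le_l1 (P : MvPolynomial σ ℤ) (b : σ →₀ ℕ) : (P.coeff b).natAbs ≤ l1 P := by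
  by_cases hb : b ∈ P.support
  · exact Finset.single_le_sum (f := fun b => (P.coeff b).natAbs) (fun _ _ => Nat.zero_le _) hb
  · rw [notMem_support_iff.1 hb, Int.natAbs_zero]
    exact Nat.zero_le _

end Pool.Agent.L0h64.ZV
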