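import Pool.Agent.L0h64.ZV.Poly
import Pool.Agent.L0h64.ZV.Det

/-!
# Zeta values in general position (helper64)
-/

set_option autoImplicit false

namespace Pool.Agent.L0h64.ZV

open MvPolynomial

lemma zt_nonneg (s : ℕ) : 0 ≤ zt s := tsum_nonneg fun k => by positivity

lemma zt_le_two {s : ℕ} (hs : 2 ≤ s) : zt s ≤ 2 := by
  have h0 := hasSum_zeta_two
  have h1 : HasSum (fun k : ℕ => 1 / ((k : ℝ) + 1) ^ 2) (Real.pi ^ 2 / 6) := by
    have h2 := (hasSum_nat_add_iff' (f := fun n : ℕ => 1 / (n : ℝ) ^ 2) 1).2 h0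
    simp only [Finset.range_one, Finset.sum_singleton, Nat.cast_zero] at h2
    norm_num at h2
    simpa using h2
  have h2 : zt s ≤ Real.pi ^ 2 / 6 := by
    unfold zt
    have h3 : ∀ k : ℕ, 1 / ((k : ℝ) + 1) ^ s ≤ 1 / ((k : ℝ) + 1) ^ 2 := by
      intro k
      apply one_div_le_one_div_of_le (by positivity)
      exact pow_le_pow_right₀ (by linarith [Nat.cast_nonneg (α := ℝ) k]) hs
    have h4 : Summable fun k : ℕ => 1 / ((k : ℝ) + 1) ^ s :=
      Summable.of_nonneg_of_le (fun k => by positivity) h3 h1.summable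
    exact (h4.tsum_le_tsum h3 h1.summable).trans h1.tsum_eq.le
  have h3 := Real.pi_lt_d2
  have h4 := Real.pi_pos
  nlinarith

/-- distinct integers between `N` and `κ N` -/
def Box {n : ℕ} (κ : ℝ) (N : ℕ) (s : Fin n → ℕ) : Prop :=
  Function.Injective s ∧ ∀ i, N ≤ s i ∧ (s i : ℝ) ≤ κ * N

lemma aeval_ofReal {σ : Type*} (z : σ → ℝ) (P : MvPolynomial σ ℤ) :
    aeval (fun i => ((z i : ℝ) : ℂ)) P = ((aeval z P : ℝ) : ℂ) := by
  rw [aeval_def, aeval_def]
  have h := MvPolynomial.eval₂_comp_left (Complex.ofRealHom) (algebraMap ℤ ℝ) z P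
  rw [← Complex.ofRealHom_eq_coe, h]
  rfl

/-- **core** -/
theorem core (n d m : ℕ) (κ C : ℝ) : ∃ B : ℝ, 1 < B ∧ ∃ N0 : ℕ, ∀ N : ℕ, N0 ≤ N →
    ∀ (x : Fin m → ℂ) (a0 : Fin m), 1 ≤ ‖x a0‖ → ∀ t : Fin m → Fin n → ℕ,
    (∀ i, Box κ N (t i)) → (∀ i i' j j', t i j = t i' j' → i = i') →
    ∀ Q : Fin m → Fin m → MvPolynomial (Fin n) ℤ, (∀ i, LinearIndependent ℤ (Q i)) →
    (∀ i a, (Q i a).totalDegree ≤ d) → (∀ i a b, |(((Q i a).coeff b : ℤ) : ℝ)| ≤ C ^ N) →
    ∃ i, (B ^ N)⁻¹ < ‖∑ a, x a * aeval (fun j => ((zt (t i j) : ℝ) : ℂ)) (Q i a)‖ := by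
  classical
  obtain ⟨L0, hL0⟩ : ∃ L0 : ℝ, L0 = (d + 1) ^ n * (|C| + 1) := ⟨_, rfl⟩
  have hL01 : 1 ≤ L0 := by
    have h1 : (1 : ℝ) ≤ (d + 1) ^ n := one_le_pow₀ (by linarith [Nat.cast_nonneg (α := ℝ) d])
    have h2 : (1 : ℝ) ≤ |C| + 1 := by linarith [abs_nonneg C]
    rw [hL0]
    nlinarith
  obtain ⟨E0, hE0⟩ : ∃ E0 : ℝ, E0 = L0 * 2 ^ d := ⟨_, rfl⟩
  have h2d : (1 : ℝ) ≤ 2 ^ d := one_le_pow₀ (by norm_num)
  have hE01 : 1 ≤ E0 := by
    rw [hE0]
    nlinarith
  have hmf : (1 : ℝ) ≤ m.factorial := by exact_mod_cast Nat.one_le_iff_ne_zero.2 m.factorial_ne_zero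
  obtain ⟨B1, hB1, N1, hmain⟩ := polyLower (m * n) (m * d) κ (m.factorial * L0 ^ m)
  have hc1 : (1 : ℝ) ≤ m * m.factorial + 1 := by
    have : (0 : ℝ) ≤ m * m.factorial := by positivity
    linarith
  have hEm : (1 : ℝ) ≤ E0 ^ m := one_le_pow₀ hE01
  obtain ⟨B, hB⟩ : ∃ B : ℝ, B = (m * m.factorial + 1) * E0 ^ m * B1 := ⟨_, rfl⟩
  refine ⟨B, ?_, N1 + 2, ?_⟩
  · have h1 : (1 : ℝ) ≤ (m * m.factorial + 1) * E0 ^ m := by nlinarith
    rw [hB]
    nlinarith
  intro N hN x a0 hx t ht hdisj Q hQi hQd hQc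
  by_contra hcon
  push Not at hcon
  have hB0 : 0 < B := by
    rw [hB]
    positivity
  have hN1 : 1 ≤ N := by omega
  -- lengths
  have hlen : ∀ i a, len (Q i a) ≤ L0 ^ N := by
    intro i a
    have h1 : ∀ b, |(((Q i a).coeff b : ℤ) : ℝ)| ≤ (|C| + 1) ^ N := by
      intro b
      refine (hQc i a b).trans ((le_abs_self _).trans ?_)
      rw [abs_pow]
      exact pow_le_pow_left₀ (abs_nonneg _) (by linarith) _
    refine (len_le _ d (hQd i a) _ (by positivity) h1).trans ?_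
    rw [hL0, mul_pow]
    refine mul_le_mul_of_nonneg_right ?_ (by positivity)
    exact le_self_pow₀ (one_le_pow₀ (by linarith [Nat.cast_nonneg (α := ℝ) d])) (by omega)
  have hz2 : ∀ i j, ‖((zt (t i j) : ℝ) : ℂ)‖ ≤ 2 := by
    intro i j
    rw [Complex.norm_real, Real.norm_of_nonneg (zt_nonneg _)]
    exact zt_le_two (by
      have := ((ht i).2 j).1
      omega)
  -- the determinant polynomial
  set Δ := sepDet Q with hΔ
  have hΔ0 : Δ ≠ 0 := sepDet_ne_zero Q hQi
  have hΔd : Δ.totalDegree ≤ m * d := totalDegree_sepDet Q d hQd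
  have hΔl : len Δ ≤ (m.factorial * L0 ^ m) ^ N := by
    refine (len_sepDet Q (L0 ^ N) (by positivity) hlen).trans ?_
    rw [mul_pow, ← pow_mul, ← pow_mul, mul_comm N m]
    exact mul_le_mul_of_nonneg_right (le_self_pow₀ hmf (by omega)) (by positivity)
  set e : Fin m × Fin n ≃ Fin (m * n) := finProdFinEquiv with he
  set s : Fin (m * n) → ℕ := fun l => t (e.symm l).1 (e.symm l).2 with hs
  have hsinj : Function.Injective s := by
    intro l l' h
    have h1 := hdisj _ _ _ _ h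
    have h2 : (e.symm l).2 = (e.symm l').2 := by
      apply (ht (e.symm l).1).1
      rw [hs] at h
      simp only at h
      rw [h]
      rw [h1]
    exact e.symm.injective (Prod.ext h1 h2)
  have hL0p : 0 < L0 := lt_of_lt_of_le one_pos hL01
  have hE0p : 0 < E0 := lt_of_lt_of_le one_pos hE01
  have hlow := hmain N (by omega) s hsinj (fun l => (ht _).2 _) (rename e Δ) (by
      intro h
      exact hΔ0 (rename_injective e e.injective (h.trans (map_zero _).symm)))
    ((totalDegree_rename_le _ _).trans hΔd) (fun b => by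
      refine (coeff_le_len _ b).trans ?_
      rw [len_rename _ e.injective]
      exact hΔl)
  have hev : aeval (fun l => zt (s l)) (rename e Δ) =
      Matrix.det (Matrix.of fun i a => aeval (fun j => zt (t i j)) (Q i a)) := by
    rw [aeval_rename, hΔ, aeval_sepDet]
    congr 1
    ext i a
    simp only [Matrix.of_apply, Function.comp, hs, Equiv.symm_apply_apply]
  rw [hev] at hlow
  set A : Matrix (Fin m) (Fin m) ℂ := Matrix.of fun i a =>
    aeval (fun j => ((zt (t i j) : ℝ) : ℂ)) (Q i a) with hA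
  have hdetA : ‖A.det‖ = |Matrix.det (Matrix.of fun i a => aeval (fun j => zt (t i j)) (Q i a))| := by
    have h1 : A = (Complex.ofRealHom : ℝ →+* ℂ).mapMatrix
        (Matrix.of fun i a => aeval (fun j => zt (t i j)) (Q i a)) := by
      ext i a
      rw [hA]
      simp only [Matrix.of_apply, RingHom.mapMatrix_apply, Matrix.map_apply]
      rw [aeval_ofReal]
      rfl
    rw [h1, ← RingHom.map_det]
    simp
  have hup := det_small A x a0 hx (E0 ^ N) ((B ^ N)⁻¹) (one_le_pow₀ hE01) (fun i a => by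
      rw [hA, Matrix.of_apply]
      refine (abs_aeval_le (by norm_num : (1 : ℝ) ≤ 2) _ _ (hz2 i) d (hQd i a)).trans ?_
      rw [hE0, mul_pow]
      refine mul_le_mul (hlen i a) ?_ (by positivity) (by positivity)
      exact le_self_pow₀ h2d (by omega)) (fun i => by
      refine le_trans (le_of_eq ?_) (hcon i)
      congr 1
      rw [Matrix.mulVec, dotProduct]
      refine Finset.sum_congr rfl fun a _ => ?_
      rw [hA, Matrix.of_apply, mul_comm])
  rw [hdetA] at hup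
  have h1 : (B1 ^ N)⁻¹ < m * (m.factorial * (E0 ^ N) ^ m) * (B ^ N)⁻¹ := hlow.trans_le hup
  have hB1N : 0 < B1 ^ N := by positivity
  have hBN : 0 < B ^ N := by positivity
  have h2 : B ^ N < m * (m.factorial * (E0 ^ N) ^ m) * B1 ^ N := by
    have h3 := mul_lt_mul_of_pos_right h1 (mul_pos hBN hB1N)
    have e1 : (B1 ^ N)⁻¹ * (B ^ N * B1 ^ N) = B ^ N := by
      field_simp
    have e2 : m * (m.factorial * (E0 ^ N) ^ m) * (B ^ N)⁻¹ * (B ^ N * B1 ^ N) =
        m * (m.factorial * (E0 ^ N) ^ m) * B1 ^ N := by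
      field_simp
    rwa [e1, e2] at h3
  have h3 : (m : ℝ) * (m.factorial * (E0 ^ N) ^ m) * B1 ^ N ≤ B ^ N := by
    rw [hB, mul_pow, mul_pow, ← pow_mul, ← pow_mul, mul_comm N m]
    refine mul_le_mul_of_nonneg_right ?_ hB1N.le
    rw [← mul_assoc]
    refine mul_le_mul_of_nonneg_right ?_ (by positivity)
    have h4 : (m * m.factorial + 1 : ℝ) ≤ (m * m.factorial + 1) ^ N :=
      le_self_pow₀ hc1 (by omega)
    linarith
  linarith

/-- **general position, general linear relations** -/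
theorem general (n d m : ℕ) (κ C : ℝ) : ∃ B : ℝ, 1 < B ∧ ∃ N0 : ℕ, ∀ N : ℕ, N0 ≤ N →
    ∀ x : Fin m → ℂ, (∃ a, 1 ≤ ‖x a‖) →
    ∃ H : Finset ℕ, H.card ≤ n * (m - 1) ∧ ∀ s, Box κ N s → (∀ i, s i ∉ H) →
      ∀ Q : Fin m → MvPolynomial (Fin n) ℤ, LinearIndependent ℤ Q →
      (∀ a, (Q a).totalDegree ≤ d) → (∀ a b, |(((Q a).coeff b : ℤ) : ℝ)| ≤ C ^ N) →
      (B ^ N)⁻¹ < ‖∑ a, x a * aeval (fun j => ((zt (s j) : ℝ) : ℂ)) (Q a)‖ := by
  classical
  obtain ⟨B, hB, N0, hmain⟩ := core n d m κ C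
  refine ⟨B, hB, N0, fun N hN x hx => ?_⟩
  obtain ⟨a0, hx⟩ := hx
  by_contra hcon
  push Not at hcon
  choose! g hg1 hg2 Q hQ using hcon
  let hs : ℕ → Finset ℕ := fun j => Nat.rec ∅ (fun _ H => H ∪ Finset.univ.image (g H)) j
  have hs0 : hs 0 = ∅ := rfl
  have hsS : ∀ j, hs (j + 1) = hs j ∪ Finset.univ.image (g (hs j)) := fun j => rfl
  have hcard : ∀ j, (hs j).card ≤ n * j := by
    intro j
    induction j with
    | zero => rw [hs0]; simp
    | succ j ih =>
      rw [hsS]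
      refine (Finset.card_union_le _ _).trans ?_
      have h1 : (Finset.univ.image (g (hs j))).card ≤ n :=
        Finset.card_image_le.trans (by simp)
      rw [Nat.mul_succ]
      omega
  have hmono : Monotone hs := monotone_nat_of_le_succ fun j => by
    rw [hsS]
    exact Finset.subset_union_left
  have hcj : ∀ j : Fin m, (hs j).card ≤ n * (m - 1) := by
    intro j
    refine (hcard j).trans (Nat.mul_le_mul_left _ ?_)
    have := j.2
    omega
  obtain ⟨i, hi⟩ := hmain N hN x a0 hx (fun j => g (hs j)) (fun j => hg1 _ (hcj j)) (by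
    have key : ∀ j j' : Fin m, j < j' → ∀ i i', g (hs j) i ≠ g (hs j') i' := by
      intro j j' hjj i i' h
      apply hg2 (hs j') (hcj j') i'
      rw [← h]
      have h1 : hs (j + 1) ⊆ hs j' := hmono (Nat.succ_le_of_lt hjj)
      apply h1
      rw [hsS]
      exact Finset.mem_union_right _ (Finset.mem_image_of_mem _ (Finset.mem_univ _))
    intro j j' i i' h
    rcases lt_trichotomy j j' with h1 | h1 | h1
    · exact absurd h (key j j' h1 i i')
    · exact h1
    · exact absurd h.symm (key j' j h1 i' i)) (fun j => Q (hs j))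
    (fun j => (hQ _ (hcj j)).1) (fun j => (hQ _ (hcj j)).2.1)
    (fun j => (hQ _ (hcj j)).2.2.1)
  exact absurd hi (not_lt.2 (hQ _ (hcj i)).2.2.2)

end Pool.Agent.L0h64.ZV
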