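import Pool.Agent.L0h64.ZV.Abs

/-!
# The valuation ring of exponentially bounded germs (helper64)
-/

set_option autoImplicit false

namespace Pool.Agent.L0h64.ZV

open Filter IsLocalRing

/-- an ultrafilter and scales tending to infinity -/
structure Sys where
  U : Ultrafilter ℕ
  N : ℕ → ℕ
  hN : Tendsto N (U : Filter ℕ) atTop

namespace Sys

variable (S : Sys)

/-- the field of germs -/
abbrev K : Type := Germ (S.U : Filter ℕ) ℂ

/-- exponentially bounded sequences -/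
def Bd (f : ℕ → ℂ) : Prop := ∃ C : ℕ, ∀ᶠ k in (S.U : Filter ℕ), ‖f k‖ ≤ (C : ℝ) ^ S.N k

/-- sequences smaller than every exponential -/
def Tiny (f : ℕ → ℂ) : Prop :=
  ∀ B : ℕ, ∀ᶠ k in (S.U : Filter ℕ), (B : ℝ) ^ S.N k * ‖f k‖ ≤ 1

lemma ev_ge (m : ℕ) : ∀ᶠ k in (S.U : Filter ℕ), m ≤ S.N k := S.hN.eventually_ge_atTop m

variable {S}

lemma Bd.add {f g : ℕ → ℂ} (hf : S.Bd f) (hg : S.Bd g) : S.Bd (f + g) := by
  obtain ⟨C, hf⟩ := hf
  obtain ⟨D, hg⟩ := hg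
  refine ⟨C + D, ?_⟩
  filter_upwards [hf, hg, S.ev_ge 1] with k h1 h2 h3
  calc ‖(f + g) k‖ ≤ ‖f k‖ + ‖g k‖ := norm_add_le _ _
    _ ≤ (C : ℝ) ^ S.N k + (D : ℝ) ^ S.N k := add_le_add h1 h2
    _ ≤ (((C + D : ℕ) : ℝ)) ^ S.N k := by
      rw [Nat.cast_add]
      exact pow_add_pow_le (Nat.cast_nonneg _) (Nat.cast_nonneg _) (by omega)

lemma Bd.mul {f g : ℕ → ℂ} (hf : S.Bd f) (hg : S.Bd g) : S.Bd (f * g) := by
  obtain ⟨C, hf⟩ := hf
  obtain ⟨D, hg⟩ := hg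
  refine ⟨C * D, ?_⟩
  filter_upwards [hf, hg] with k h1 h2
  rw [Pi.mul_apply, norm_mul, Nat.cast_mul, mul_pow]
  exact mul_le_mul h1 h2 (norm_nonneg _) (by positivity)

lemma Bd.neg {f : ℕ → ℂ} (hf : S.Bd f) : S.Bd (-f) := by
  obtain ⟨C, hf⟩ := hf
  refine ⟨C, ?_⟩
  filter_upwards [hf] with k h1
  rwa [Pi.neg_apply, norm_neg]

lemma bd_of_pow {f : ℕ → ℂ} (c : ℝ) (h : ∀ᶠ k in (S.U : Filter ℕ), ‖f k‖ ≤ c ^ S.N k) :
    S.Bd f := by
  refine ⟨⌈|c|⌉₊, ?_⟩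
  filter_upwards [h] with k h1
  calc ‖f k‖ ≤ c ^ S.N k := h1
    _ ≤ |c ^ S.N k| := le_abs_self _
    _ = |c| ^ S.N k := abs_pow _ _
    _ ≤ _ := pow_le_pow_left₀ (abs_nonneg _) (Nat.le_ceil _) _

lemma bd_of_le {f : ℕ → ℂ} (c : ℝ) (h : ∀ᶠ k in (S.U : Filter ℕ), ‖f k‖ ≤ c) : S.Bd f := by
  refine bd_of_pow (|c| + 1) ?_
  filter_upwards [h, S.ev_ge 1] with k h1 h2
  calc ‖f k‖ ≤ c := h1
    _ ≤ |c| + 1 := by linarith [le_abs_self c]
    _ ≤ (|c| + 1) ^ S.N k := le_self_pow₀ (by linarith [abs_nonneg c]) (by omega)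

lemma Bd.congr {f g : ℕ → ℂ} (hf : S.Bd f) (h : f =ᶠ[(S.U : Filter ℕ)] g) : S.Bd g := by
  obtain ⟨C, hf⟩ := hf
  refine ⟨C, ?_⟩
  filter_upwards [hf, h] with k h1 h2
  rwa [← h2]

lemma bd_zero : S.Bd 0 := bd_of_le 0 (by simp)

lemma bd_one : S.Bd 1 := bd_of_le 1 (by simp)

variable (S)

/-- the ring of exponentially bounded sequences -/
def O : Subring (ℕ → ℂ) where
  carrier := {f | S.Bd f}
  mul_mem' := fun h1 h2 => Bd.mul h1 h2
  one_mem' := bd_one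
  add_mem' := fun h1 h2 => Bd.add h1 h2
  zero_mem' := bd_zero
  neg_mem' := fun h => Bd.neg h

/-- the valuation ring of exponentially bounded germs -/
def V : ValuationSubring S.K where
  carrier := {g | ∃ f : ℕ → ℂ, S.Bd f ∧ (f : S.K) = g}
  mul_mem' := by
    rintro _ _ ⟨f, hf, rfl⟩ ⟨g, hg, rfl⟩
    exact ⟨f * g, hf.mul hg, rfl⟩
  one_mem' := ⟨1, bd_one, rfl⟩
  add_mem' := by
    rintro _ _ ⟨f, hf, rfl⟩ ⟨g, hg, rfl⟩
    exact ⟨f + g, hf.add hg, rfl⟩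
  zero_mem' := ⟨0, bd_zero, rfl⟩
  neg_mem' := by
    rintro _ ⟨f, hf, rfl⟩
    exact ⟨-f, hf.neg, rfl⟩
  mem_or_inv_mem' := by
    intro x
    induction x using Germ.inductionOn with
    | h f =>
      rcases S.U.em fun k => ‖f k‖ ≤ 1 with h | h
      · exact Or.inl ⟨f, bd_of_le 1 h, rfl⟩
      · refine Or.inr ⟨f⁻¹, bd_of_le 1 ?_, rfl⟩
        filter_upwards [h] with k hk
        rw [Pi.inv_apply, norm_inv]
        exact inv_le_one_of_one_le₀ (not_le.1 hk).le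

variable {S}

lemma coe_mem_V {f : ℕ → ℂ} : (f : S.K) ∈ S.V ↔ S.Bd f := by
  constructor
  · rintro ⟨g, hg, hfg⟩
    exact hg.congr (Germ.coe_eq.1 hfg)
  · intro h
    exact ⟨f, h, rfl⟩

variable (S)

/-- from sequences to germs -/
def toV : S.O →+* S.V where
  toFun f := ⟨((f : ℕ → ℂ) : S.K), coe_mem_V.2 f.2⟩
  map_one' := rfl
  map_mul' _ _ := rfl
  map_zero' := rfl
  map_add' _ _ := rfl

lemma toV_surj : Function.Surjective S.toV := by
  rintro ⟨g, f, hf, hfg⟩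
  exact ⟨⟨f, hf⟩, Subtype.ext hfg⟩

/-- from sequences to the residue field -/
noncomputable def ρ : S.O →+* ResidueField S.V := (residue S.V).comp S.toV

variable {S}

lemma ρ_eq_zero (f : S.O) : S.ρ f = 0 ↔ S.Tiny f := by
  unfold ρ
  rw [RingHom.comp_apply, residue_eq_zero_iff, mem_maximalIdeal, mem_nonunits_iff]
  constructor
  · intro h B
    by_contra hcon
    apply h
    have h1 : ∀ᶠ k in (S.U : Filter ℕ), ¬ ((B : ℝ) ^ S.N k * ‖(f : ℕ → ℂ) k‖ ≤ 1) :=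
      S.U.eventually_not.2 hcon
    have h0 : ∀ᶠ k in (S.U : Filter ℕ), (f : ℕ → ℂ) k ≠ 0 := by
      filter_upwards [h1] with k hk h
      rw [h, norm_zero, mul_zero] at hk
      exact hk zero_le_one
    have h2 : S.Bd (f : ℕ → ℂ)⁻¹ := by
      refine ⟨B, ?_⟩
      filter_upwards [h1, h0] with k hk hk0
      rw [Pi.inv_apply, norm_inv]
      rw [inv_le_iff_one_le_mul₀ (norm_pos_iff.2 hk0)]
      exact (not_le.1 hk).le
    refine IsUnit.of_mul_eq_one (⟨(((f : ℕ → ℂ)⁻¹ : ℕ → ℂ) : S.K), coe_mem_V.2 h2⟩ : S.V) ?_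
    apply Subtype.ext
    change ((((f : ℕ → ℂ) * (f : ℕ → ℂ)⁻¹ : ℕ → ℂ)) : S.K) = ((1 : ℕ → ℂ) : S.K)
    rw [Germ.coe_eq]
    filter_upwards [h0] with k hk
    rw [Pi.mul_apply, Pi.inv_apply, Pi.one_apply, mul_inv_cancel₀ hk]
  · intro h hu
    obtain ⟨v, hv⟩ := hu.exists_right_inv
    obtain ⟨g, rfl⟩ := S.toV_surj v
    rw [← map_mul] at hv
    have h1 : (((f * g : S.O) : ℕ → ℂ) : S.K) = ((1 : ℕ → ℂ) : S.K) := congrArg Subtype.val hv
    rw [Germ.coe_eq] at h1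
    obtain ⟨C, hC⟩ := g.2
    obtain ⟨k, hk1, hk2, hk3, hk4⟩ := (h1.and ((h (C + 1)).and (hC.and (S.ev_ge 1)))).exists
    have h2 : (1 : ℝ) = ‖(f : ℕ → ℂ) k‖ * ‖(g : ℕ → ℂ) k‖ := by
      rw [← norm_mul]
      have : (f : ℕ → ℂ) k * (g : ℕ → ℂ) k = 1 := hk1
      rw [this, norm_one]
    have h3 : (C : ℝ) ^ S.N k < ((C + 1 : ℕ) : ℝ) ^ S.N k := by
      apply pow_lt_pow_left₀ _ (Nat.cast_nonneg _) (by omega)
      push_cast
      linarith
    have h4 : 0 < ‖(f : ℕ → ℂ) k‖ := by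
      rcases (norm_nonneg ((f : ℕ → ℂ) k)).lt_or_eq with h | h
      · exact h
      · rw [← h, zero_mul] at h2
        exact absurd h2 one_ne_zero
    nlinarith

variable (S)

/-- exponentially bounded integer sequences -/
def R0 : Subring (ℕ → ℤ) where
  carrier := {a | S.Bd fun k => (a k : ℂ)}
  mul_mem' := fun {a b} h1 h2 => by
    have := Bd.mul h1 h2
    have h3 : ((fun k => (a k : ℂ)) * fun k => (b k : ℂ)) = fun k => (((a * b) k : ℤ) : ℂ) := by
      funext k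
      simp
    rw [h3] at this
    exact this
  one_mem' := by
    have h3 : (1 : ℕ → ℂ) = fun k => (((1 : ℕ → ℤ) k : ℤ) : ℂ) := by
      funext k
      simp
    change S.Bd _
    rw [← h3]
    exact bd_one
  add_mem' := fun {a b} h1 h2 => by
    have := Bd.add h1 h2
    have h3 : ((fun k => (a k : ℂ)) + fun k => (b k : ℂ)) = fun k => (((a + b) k : ℤ) : ℂ) := by
      funext k
      simp
    rw [h3] at this
    exact this
  zero_mem' := by
    have h3 : (0 : ℕ → ℂ) = fun k => (((0 : ℕ → ℤ) k : ℤ) : ℂ) := by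
      funext k
      simp
    change S.Bd _
    rw [← h3]
    exact bd_zero
  neg_mem' := fun {a} h => by
    have := Bd.neg h
    have h3 : (-(fun k => (a k : ℂ))) = fun k => (((-a) k : ℤ) : ℂ) := by
      funext k
      simp
    rw [h3] at this
    exact this

/-- inclusion -/
def ι : S.R0 →+* S.O where
  toFun a := ⟨fun k => ((a : ℕ → ℤ) k : ℂ), a.2⟩
  map_one' := Subtype.ext (by funext k; simp)
  map_mul' a b := Subtype.ext (by funext k; simp)
  map_zero' := Subtype.ext (by funext k; simp)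
  map_add' a b := Subtype.ext (by funext k; simp)

/-- the ring of exponentially bounded germs of integers -/
noncomputable def R : Subring S.V := (S.toV.comp S.ι).range

/-- from sequences to germs -/
noncomputable def β : S.R0 →+* S.R := (S.toV.comp S.ι).rangeRestrict

lemma β_surj : Function.Surjective S.β := RingHom.rangeRestrict_surjective _

variable {S}

lemma β_eq_zero (a : S.R0) : S.β a = 0 ↔ ∀ᶠ k in (S.U : Filter ℕ), (a : ℕ → ℤ) k = 0 := by
  have h1 : S.β a = 0 ↔ (((fun k => ((a : ℕ → ℤ) k : ℂ)) : ℕ → ℂ) : S.K) = ((0 : ℕ → ℂ) : S.K) := by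
    constructor
    · intro h
      exact congrArg (fun x : S.R => ((x : S.V) : S.K)) h
    · intro h
      exact Subtype.ext (Subtype.ext h)
  rw [h1, Germ.coe_eq]
  constructor
  · intro h
    filter_upwards [h] with k hk
    have : (((a : ℕ → ℤ) k : ℤ) : ℂ) = 0 := hk
    exact_mod_cast this
  · intro h
    filter_upwards [h] with k hk
    rw [hk]
    simp

lemma int_tiny {a : ℕ → ℤ} (h : S.Tiny fun k => (a k : ℂ)) :
    ∀ᶠ k in (S.U : Filter ℕ), a k = 0 := by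
  filter_upwards [h 2, S.ev_ge 1] with k h1 h2
  by_contra h3
  have h4 : (1 : ℝ) ≤ ‖(a k : ℂ)‖ := by
    rw [Complex.norm_intCast]
    exact_mod_cast Int.one_le_abs h3
  have h5 : (2 : ℝ) ≤ ((2 : ℕ) : ℝ) ^ S.N k := by
    calc (2 : ℝ) = ((2 : ℕ) : ℝ) ^ 1 := by norm_num
      _ ≤ _ := pow_le_pow_right₀ (by norm_num) h2
  nlinarith

instance : FaithfulSMul S.R (ResidueField S.V) := by
  rw [faithfulSMul_iff_algebraMap_injective, injective_iff_map_eq_zero]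
  intro x hx
  obtain ⟨a, rfl⟩ := S.β_surj x
  rw [β_eq_zero]
  apply int_tiny
  exact (ρ_eq_zero (S.ι a)).1 hx

instance : FaithfulSMul S.R S.K := by
  rw [faithfulSMul_iff_algebraMap_injective, injective_iff_map_eq_zero]
  intro x hx
  exact Subtype.ext (Subtype.ext hx)

end Sys

end Pool.Agent.L0h64.ZV
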