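import Pool.Agent.L0h64.ZV.Mgr
import Pool.Agent.L0h64.ZV.Ell

/-!
# All words are polynomials in Lyndon words (helper64)
-/

set_option autoImplicit false

namespace Pool.Agent.L0h64.ZV

open Pool.Agent.Y760.ZG Pool.Agent.Y760.ZF Pool.Agent.L0h64.ZV.Lyn MvPolynomial

/-- the first letter is at least `N`, all letters are positive -/
def Hd (N : ℕ) (w : List ℕ) : Prop := (∀ a ∈ w.head?, N ≤ a) ∧ ∀ a ∈ w, 1 ≤ a

/-- stuffle homomorphisms on the words of length at most `p` whose first letter is at least `N` -/
def StH {A : Type} [CommRing A] (N p : ℕ) (φ : List ℕ → A) : Prop :=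
  φ [] = 1 ∧ ∀ u v, Hd N u → Hd N v → u.length + v.length ≤ p →
    φ u * φ v = ((sti u v).map φ).sum

/-- the Lyndon words which occur -/
def Good (N p : ℕ) (w0 l : List ℕ) : Prop :=
  IsLyn (ng l) ∧ l.length ≤ p ∧ (∀ m ∈ l, ∃ r ≤ (w0 : Multiset ℕ), r ≠ 0 ∧ r.sum = m) ∧ Hd N l

lemma sti_Hd {N : ℕ} (u v : List ℕ) (hu : Hd N u) (hv : Hd N v) : ∀ w ∈ sti u v, Hd N w := by
  intro w hw
  refine ⟨sti_head u v hu.1 hv.1 w hw, fun a ha => ?_⟩
  obtain ⟨r, hr, hr0, rfl⟩ := (sti_mrg u v w hw).sub a ha
  obtain ⟨b, hb⟩ := Multiset.exists_mem_of_ne_zero hr0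
  have h1 : 1 ≤ b := by
    rcases Multiset.mem_add.1 (Multiset.mem_of_le hr hb) with h | h
    · exact hu.2 b h
    · exact hv.2 b h
  obtain ⟨r', rfl⟩ := Multiset.exists_cons_of_mem hb
  rw [Multiset.sum_cons]
  omega

lemma stil_Hd {N : ℕ} (M : List (List ℕ)) (hM : ∀ u ∈ M, Hd N u) : ∀ w ∈ stil M, Hd N w := by
  induction M with
  | nil =>
    intro w hw
    rw [stil, List.mem_singleton] at hw
    rw [hw]
    exact ⟨fun a ha => by simp at ha, fun a ha => by simp at ha⟩
  | cons u M ih =>
    intro w hw
    rw [stil, List.mem_flatMap] at hw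
    obtain ⟨v, hv, hw⟩ := hw
    exact sti_Hd u v (hM u (by simp)) (ih (fun u hu => hM u (by simp [hu])) v hv) w hw

lemma StH.prod {A : Type} [CommRing A] {N p : ℕ} {φ : List ℕ → A} (h : StH N p φ)
    (M : List (List ℕ)) (hM : ∀ u ∈ M, Hd N u) (hlen : M.flatten.length ≤ p) :
    (M.map φ).prod = ((stil M).map φ).sum := by
  induction M with
  | nil =>
    rw [stil]
    simp [h.1]
  | cons u M ih =>
    rw [List.flatten_cons, List.length_append] at hlen
    have hM' : ∀ u ∈ M, Hd N u := fun u hu => hM u (List.mem_cons_of_mem _ hu)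
    have hu := hM u List.mem_cons_self
    rw [List.map_cons, List.prod_cons, ih hM' (by omega), stil]
    have h3 : ∀ v ∈ stil M, Hd N v ∧ v.length ≤ M.flatten.length := fun v hv =>
      ⟨stil_Hd M hM' v hv, by
        have h4 := (stil_sh M v hv).1
        rw [List.length_flatten]
        unfold tot at h4
        rwa [Multiset.map_coe, Multiset.sum_coe] at h4⟩
    clear ih
    revert h3
    generalize stil M = T
    intro h3
    induction T with
    | nil => simp
    | cons v T ih2 =>
      have h5 := h3 v List.mem_cons_self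
      rw [List.map_cons, List.sum_cons, mul_add, List.flatMap_cons, List.map_append,
        List.sum_append, ih2 fun v' hv' => h3 v' (List.mem_cons_of_mem _ hv')]
      congr 1
      exact h.2 u v hu h5.1 (by omega)

/-- the order -/
def ky (w : List ℕ) : ℕ ×ₗ List ℤ := toLex (w.length, ng w)

lemma ky_inj : Function.Injective ky := by
  intro u v h
  have h1 := congrArg Prod.snd (toLex_inj.1 h)
  exact ng_inj h1

lemma ky_lt {u v : List ℕ} : ky u < ky v ↔ u.length < v.length ∨
    u.length = v.length ∧ ng u < ng v := by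
  unfold ky
  rw [Prod.Lex.toLex_lt_toLex]

/-- the rank of a word -/
noncomputable def rk (p : ℕ) (w0 u : List ℕ) : ℕ :=
  ((Wds (Sms w0) p).filter fun v => ky v < ky u).card

lemma rk_lt {p : ℕ} {w0 u v : List ℕ} (hv : v ∈ Wds (Sms w0) p) (h : ky v < ky u) :
    rk p w0 v < rk p w0 u := by
  unfold rk
  refine Finset.card_lt_card ?_
  rw [Finset.ssubset_iff_of_subset]
  · exact ⟨v, Finset.mem_filter.2 ⟨hv, h⟩, fun h1 => lt_irrefl _ (Finset.mem_filter.1 h1).2⟩
  · intro x hx
    rw [Finset.mem_filter] at hx ⊢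
    exact ⟨hx.1, hx.2.trans h⟩

lemma rk_le (p : ℕ) {w0 : List ℕ} (u : List ℕ) (h : w0.length ≤ p) :
    rk p w0 u ≤ (2 ^ p + 1) ^ p := by
  unfold rk
  refine (Finset.card_filter_le _ _).trans ((card_Wds _ _).trans ?_)
  refine Nat.pow_le_pow_left (Nat.add_le_add_right ((card_Sms _).trans ?_) 1) _
  rw [Multiset.coe_card]
  exact Nat.pow_le_pow_right (by omega) h

lemma sum_split {A : Type} [CommRing A] (φ : List ℕ → A) (u : List ℕ) (L : List (List ℕ)) :
    (L.map φ).sum = (L.countP (· = u) : A) * φ u + ((L.filter (· ≠ u)).map φ).sum := by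
  induction L with
  | nil => simp
  | cons a L ih =>
    rw [List.map_cons, List.sum_cons, ih, List.countP_cons, List.filter_cons]
    by_cases h : a = u
    · subst h
      simp only [decide_true, if_true, ne_eq, not_true_eq_false, decide_false, Bool.false_eq_true,
        if_false]
      push_cast
      ring
    · simp only [h, decide_false, Bool.false_eq_true, if_false, ne_eq, not_false_eq_true,
        decide_true, if_true, List.map_cons, List.sum_cons]
      push_cast
      ring

lemma list_map_choose {A : Type} [CommRing A] (c : A) (φ : List ℕ → A)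
    (Q : List ℕ → MvPolynomial (List ℕ) ℤ) (ψ : List ℕ → A) (L : List (List ℕ))
    (h : ∀ v ∈ L, c * φ v = aeval ψ (Q v)) :
    c * (L.map φ).sum = aeval ψ (L.map Q).sum := by
  induction L with
  | nil => simp
  | cons a L ih =>
    rw [List.map_cons, List.sum_cons, List.map_cons, List.sum_cons, mul_add, map_add,
      h a (by simp), ih fun v hv => h v (by simp [hv])]

lemma length_le_of_Lyn (M : List (List ℕ)) (h : ∀ l ∈ M, IsLyn (ng l)) :
    M.length ≤ M.flatten.length := by
  induction M with
  | nil => simp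
  | cons l M ih =>
    have h1 := ih fun l hl => h l (by simp [hl])
    have h2 : 0 < l.length := by
      rcases l with _ | ⟨a, l⟩
      · exact absurd rfl (h [] (by simp)).1
      · simp
    rw [List.flatten_cons, List.length_cons, List.length_append]
    omega

/-- the heads of the factors -/
lemma Hd_factors {N : ℕ} (M : List (List ℕ)) (hM : (M.map ng).Pairwise (· ≥ ·))
    (hL : ∀ l ∈ M, IsLyn (ng l)) (h : Hd N M.flatten) : ∀ l ∈ M, Hd N l := by
  rcases M with _ | ⟨l0, M⟩
  · intro l hl
    exact absurd hl List.not_mem_nil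
  · rcases l0 with _ | ⟨a, l0⟩
    · exact absurd rfl (hL [] (by simp)).1
    · have ha : N ≤ a := h.1 a (by simp)
      intro l hl
      refine ⟨fun b hb => ?_, fun b hb => h.2 b (List.mem_flatten.2 ⟨l, hl, hb⟩)⟩
      rcases l with _ | ⟨b', l⟩
      · simp at hb
      · simp only [List.head?_cons, Option.mem_def, Option.some.injEq] at hb
        subst hb
        rcases List.mem_cons.1 hl with h1 | h1
        · have := (List.cons.inj h1).1
          omega
        · rw [List.map_cons, List.pairwise_cons] at hM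
          have h2 := hM.1 _ (List.mem_map_of_mem h1)
          unfold ng at h2
          rw [List.map_cons, List.map_cons] at h2
          rcases le_cons h2 with h3 | ⟨h3, _⟩
          · have : (a : ℤ) < b' := by linarith
            omega
          · have : (a : ℤ) = b' := by linarith
            omega

/-- **generation** -/
theorem gen (p : ℕ) : ∀ r : ℕ, ∃ c K : ℕ, 1 ≤ c ∧ ∀ (N : ℕ) (w0 : List ℕ), w0.length ≤ p →
    ∀ u : List ℕ, Mrg (w0 : Multiset ℕ) u → Hd N u → rk p w0 u < r →
    ∃ Q : MvPolynomial (List ℕ) ℤ, Q.totalDegree ≤ p ∧ l1 Q ≤ K ∧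
      ∀ (A : Type) [CommRing A] (φ ψ : List ℕ → A), StH N p φ →
        (∀ l, Good N p w0 l → ψ l = φ l) → (c : A) * φ u = aeval ψ Q := by
  intro r
  induction r with
  | zero => exact ⟨1, 0, le_rfl, fun N w0 _ u _ _ h => absurd h (Nat.not_lt_zero _)⟩
  | succ r ih =>
    obtain ⟨c, K, hc, ih⟩ := ih
    obtain ⟨S, hS⟩ : ∃ S : ℕ, S = (3 ^ (p * p)) ^ p := ⟨_, rfl⟩
    refine ⟨c * S.factorial, S.factorial * (c + S * K), Nat.mul_pos hc (Nat.factorial_pos _),
      fun N w0 hw0 u hu hN hr => ?_⟩
    classical
    obtain ⟨M, hM1, hM2, hM3⟩ := exists_facN u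
    have hulen : u.length ≤ p := by
      have := hu.card_le
      rw [Multiset.coe_card, Multiset.coe_card] at this
      omega
    have hMlen : M.length ≤ p := (length_le_of_Lyn M hM2).trans (by rwa [hM3])
    have hHd : ∀ l ∈ M, Hd N l := Hd_factors M hM1 hM2 (by rwa [hM3])
    have hsub : ∀ l ∈ M, l.length ≤ p ∧ ∀ m ∈ l, m ∈ u := by
      intro l hl
      have h1 : l <:+: M.flatten := List.infix_of_mem_flatten hl
      rw [hM3] at h1
      exact ⟨h1.length_le.trans hulen, fun m hm => h1.subset hm⟩
    have hSl : (stil M).length ≤ S := by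
      refine (stil_count p M fun l hl => (hsub l hl).1).2.trans ?_
      rw [hS]
      refine (Nat.pow_le_pow_left (Nat.pow_le_pow_right (by omega)
        (Nat.mul_le_mul_right p hMlen)) _).trans ?_
      exact Nat.pow_le_pow_right (Nat.one_le_pow _ _ (by omega)) hMlen
    obtain ⟨m, hm⟩ : ∃ m, m = (stil M).countP (· = u) := ⟨_, rfl⟩
    have hm1 : 1 ≤ m := by
      rw [hm, Nat.one_le_iff_ne_zero, ← Nat.pos_iff_ne_zero, List.countP_pos_iff]
      exact ⟨u, by
        have := flatten_mem_stil M
        rwa [hM3] at this, by simp⟩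
    have hm2 : m ≤ S := by
      rw [hm]
      exact List.countP_le_length.trans hSl
    obtain ⟨q, hq⟩ : m ∣ S.factorial := Nat.dvd_factorial hm1 hm2
    have hqS : q ≤ S.factorial := by
      rw [hq]
      exact Nat.le_mul_of_pos_left _ hm1
    have hlow : ∀ v ∈ (stil M).filter (· ≠ u), ∃ Q : MvPolynomial (List ℕ) ℤ,
        Q.totalDegree ≤ p ∧ l1 Q ≤ K ∧
        ∀ (A : Type) [CommRing A] (φ ψ : List ℕ → A), StH N p φ →
          (∀ l, Good N p w0 l → ψ l = φ l) → (c : A) * φ v = aeval ψ Q := by
      intro v hv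
      rw [List.mem_filter] at hv
      have hne : v ≠ u := by simpa using hv.2
      have hv1 := stil_mrg M v hv.1
      rw [hM3] at hv1
      have hv2 := hu.trans hv1
      have hv3 := stil_Hd M hHd v hv.1
      refine ih N w0 hw0 v hv2 hv3 (lt_of_lt_of_le (rk_lt ?_ ?_) (Nat.lt_succ_iff.1 hr))
      · refine mem_Wds _ _ _ ?_ ?_
        · have := hv2.card_le
          rw [Multiset.coe_card, Multiset.coe_card] at this
          omega
        · intro a ha
          obtain ⟨s, h1, _, h2⟩ := hv2.sub a ha
          exact mem_Sms.2 ⟨s, h1, h2⟩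
      · rw [ky_lt]
        obtain ⟨h1, h2⟩ := stil_sh M v hv.1
        have h3 : tot (M : Multiset (List ℕ)) = u.length := by
          rw [← hM3, List.length_flatten]
          unfold tot
          rw [Multiset.map_coe, Multiset.sum_coe]
        rw [h3] at h1 h2
        rcases lt_or_eq_of_le h1 with h4 | h4
        · exact Or.inl h4
        · right
          refine ⟨h4, ?_⟩
          have h5 := Sh.map (fun m : ℕ => -(m : ℤ)) (h2 h4)
          rw [Multiset.map_coe] at h5
          have h6 : ng v ≤ (M.map ng).flatten := max_shuffle (M.map ng) hM1 (by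
            intro l hl
            obtain ⟨u', hu', rfl⟩ := List.mem_map.1 hl
            exact hM2 u' hu') _ h5
          rw [← ng_flatten, hM3] at h6
          exact lt_of_le_of_ne h6 fun h7 => hne (ng_inj h7)
    choose! Q hQ1 hQ2 hQ3 using hlow
    refine ⟨C (q : ℤ) * (C (c : ℤ) * (M.map (X (R := ℤ))).prod -
      (((stil M).filter (· ≠ u)).map Q).sum), ?_, ?_, ?_⟩
    · refine (totalDegree_mul _ _).trans ?_
      rw [totalDegree_C, zero_add]
      refine (totalDegree_sub _ _).trans (max_le ?_ ?_)
      · refine (totalDegree_mul _ _).trans ?_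
        rw [totalDegree_C, zero_add]
        exact (deg_list_prod M).trans hMlen
      · refine deg_list_sum _ _ fun P hP => ?_
        obtain ⟨v, hv, rfl⟩ := List.mem_map.1 hP
        exact hQ1 v hv
    · refine (l1_mul _ _).trans (Nat.mul_le_mul ((l1_C _).trans (by simpa using hqS)) ?_)
      refine (l1_sub _ _).trans (Nat.add_le_add ?_ ?_)
      · refine (l1_mul _ _).trans ?_
        calc _ ≤ c * 1 := Nat.mul_le_mul ((l1_C _).trans (by simp)) (l1_list_prod M)
          _ = c := mul_one _
      · refine (l1_list_sum _).trans ?_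
        have h1 : ∀ L : List (List ℕ), (∀ v ∈ L, l1 (Q v) ≤ K) →
            ((L.map Q).map l1).sum ≤ L.length * K := by
          intro L hL
          induction L with
          | nil => simp
          | cons a L ihL =>
            rw [List.map_cons, List.map_cons, List.sum_cons, List.length_cons, Nat.succ_mul,
              add_comm]
            exact Nat.add_le_add (ihL fun v hv => hL v (by simp [hv])) (hL a (by simp))
        refine (h1 _ hQ2).trans (Nat.mul_le_mul_right _ ((List.length_filter_le _ _).trans hSl))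
    · intro A _ φ ψ hφ hψ
      have h1 := hφ.prod M hHd (by rwa [hM3])
      rw [sum_split φ u, ← hm] at h1
      have h2 := list_map_choose (c : A) φ Q ψ ((stil M).filter (· ≠ u))
        fun v hv => hQ3 v hv A φ ψ hφ hψ
      have h3 : aeval ψ (M.map (X (R := ℤ))).prod = (M.map φ).prod := by
        rw [map_list_prod, List.map_map]
        congr 1
        refine List.map_congr_left fun l hl => ?_
        rw [Function.comp_apply, aeval_X]
        refine hψ l ⟨hM2 l hl, (hsub l hl).1, fun a ha => ?_, hHd l hl⟩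
        exact hu.sub a ((hsub l hl).2 a ha)
      rw [map_mul, map_sub, map_mul, h3, h1, ← h2, aeval_C, aeval_C, hq]
      simp only [algebraMap_int_eq, eq_intCast, Int.cast_natCast, Nat.cast_mul]
      ring

end Pool.Agent.L0h64.ZV
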