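import Pool.Agent.L0h64.ZV.Ger
import Pool.Agent.L0h64.ZV.Det

/-!
# From integer coefficients to arbitrary complex parameters: the general transfer (helper64)
-/

set_option autoImplicit false

namespace Pool.Agent.L0h64.ZV

open Filter IsLocalRing MvPolynomial

/-- lower bounds for integer polynomials in the values `z a`, `a` in the window `W N` -/
def Low {ι : Type*} (W : ℕ → ι → Prop) (z : ι → ℂ) : Prop :=
  ∀ (k D : ℕ) (C : ℝ), ∃ B : ℝ, 1 < B ∧ ∃ N0 : ℕ, ∀ N : ℕ, N0 ≤ N → ∀ s : Fin k → ι,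
    Function.Injective s → (∀ i, W N (s i)) → ∀ P : MvPolynomial (Fin k) ℤ, P ≠ 0 →
    P.totalDegree ≤ D → (∀ b, |((P.coeff b : ℤ) : ℝ)| ≤ C ^ N) →
    (B ^ N)⁻¹ < ‖aeval (fun i => z (s i)) P‖

/-- the values grow at most exponentially -/
def Up {ι : Type*} (W : ℕ → ι → Prop) (z : ι → ℂ) : Prop :=
  ∃ c : ℝ, ∃ N0 : ℕ, ∀ N : ℕ, N0 ≤ N → ∀ a, W N a → ‖z a‖ ≤ c ^ N

namespace Sys

section Gen

variable {ι : Type*} {W : ℕ → ι → Prop} {z : ι → ℂ} {S : Sys}

variable (S W) in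
/-- window sequences -/
def GWin (σ : ℕ → ι) : Prop := ∀ᶠ k in (S.U : Filter ℕ), W (S.N k) (σ k)

lemma gbd (hz : Up W z) {σ : ℕ → ι} (h : S.GWin W σ) : S.Bd fun k => z (σ k) := by
  obtain ⟨c, N0, hz⟩ := hz
  refine bd_of_pow c ?_
  filter_upwards [h, S.ev_ge N0] with k h1 h2
  exact hz _ h2 _ h1

/-- the sequence of values -/
noncomputable def gf (hz : Up W z) (σ : ℕ → ι) (h : S.GWin W σ) : S.O := ⟨_, gbd hz h⟩

/-- evaluation of an integer sequence -/
def evz (k : ℕ) : S.R0 →+* ℤ := (Pi.evalRingHom (fun _ : ℕ => ℤ) k).comp S.R0.subtype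

/-- evaluation of a sequence -/
def ev (k : ℕ) : S.O →+* ℂ := (Pi.evalRingHom (fun _ : ℕ => ℂ) k).comp S.O.subtype

lemma coef_bd {m : Type*} (q : MvPolynomial m S.R0) :
    ∃ C : ℕ, ∀ᶠ k in (S.U : Filter ℕ), ∀ b,
      |((((q.map (evz (S := S) k)).coeff b : ℤ)) : ℝ)| ≤ (C : ℝ) ^ S.N k := by
  classical
  have h1 : ∀ b : m →₀ ℕ, ∃ C : ℕ, ∀ᶠ k in (S.U : Filter ℕ),
      ‖((((q.coeff b : S.R0) : ℕ → ℤ) k : ℤ) : ℂ)‖ ≤ (C : ℝ) ^ S.N k := fun b => (q.coeff b).2
  choose c hc using h1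
  refine ⟨∑ b ∈ q.support, c b, ?_⟩
  have h2 : ∀ᶠ k in (S.U : Filter ℕ), ∀ b ∈ q.support,
      ‖((((q.coeff b : S.R0) : ℕ → ℤ) k : ℤ) : ℂ)‖ ≤ (c b : ℝ) ^ S.N k :=
    (Filter.eventually_all_finset _).2 fun b _ => hc b
  filter_upwards [h2] with k hk b
  rw [coeff_map]
  by_cases hb : b ∈ q.support
  · have h3 := hk b hb
    rw [Complex.norm_intCast] at h3
    refine h3.trans (pow_le_pow_left₀ (Nat.cast_nonneg _) ?_ _)
    exact_mod_cast Finset.single_le_sum (f := c) (fun _ _ => Nat.zero_le _) hb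
  · rw [notMem_support_iff.1 hb, map_zero, Int.cast_zero, abs_zero]
    positivity

/-- **independence of the values in the residue field** -/
lemma gindep (hz : Up W z) (hl : Low W z) {m : ℕ} (σ : Fin m → ℕ → ι) (hσ : ∀ i, S.GWin W (σ i))
    (hd : ∀ i j, i ≠ j → ∀ᶠ k in (S.U : Filter ℕ), σ i k ≠ σ j k) :
    AlgebraicIndependent S.R fun i => S.ρ (gf hz (σ i) (hσ i)) := by
  classical
  rw [AlgebraicIndependent, injective_iff_map_eq_zero]
  intro p hp
  obtain ⟨q, rfl⟩ := MvPolynomial.map_surjective S.β S.β_surj p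
  have h1 : aeval (fun i => S.ρ (gf hz (σ i) (hσ i))) (map S.β q) =
      S.ρ (eval₂ S.ι (fun i => gf hz (σ i) (hσ i)) q) := by
    rw [aeval_def, eval₂_map, eval₂_comp_left]
    rfl
  rw [h1, ρ_eq_zero] at hp
  have h2 : ∀ k, ((eval₂ S.ι (fun i => gf hz (σ i) (hσ i)) q : S.O) : ℕ → ℂ) k =
      aeval (fun i => z (σ i k)) (map (evz (S := S) k) q) := by
    intro k
    have h3 : ((eval₂ S.ι (fun i => gf hz (σ i) (hσ i)) q : S.O) : ℕ → ℂ) k =
      ev (S := S) k (eval₂ S.ι (fun i => gf hz (σ i) (hσ i)) q) := rfl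
    rw [h3, eval₂_comp_left, aeval_def, eval₂_map]
    rfl
  obtain ⟨C, hC⟩ := coef_bd q
  obtain ⟨B, hB, N0, hmain⟩ := hl m q.totalDegree C
  have h3 : ∀ᶠ k in (S.U : Filter ℕ), ∀ i, W (S.N k) (σ i k) := Filter.eventually_all.2 hσ
  have h4 : ∀ᶠ k in (S.U : Filter ℕ), ∀ i j, i ≠ j → σ i k ≠ σ j k := by
    rw [Filter.eventually_all]
    intro i
    rw [Filter.eventually_all]
    intro j
    by_cases hij : i = j
    · exact Filter.Eventually.of_forall fun k h => absurd hij h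
    · filter_upwards [hd i j hij] with k hk _
      exact hk
  have h5 : ∀ᶠ k in (S.U : Filter ℕ), map (evz (S := S) k) q = 0 := by
    filter_upwards [h3, h4, hC, hp ⌈B⌉₊, S.ev_ge N0] with k k3 k4 k5 k6 k7
    by_contra hne
    have k8 := hmain (S.N k) k7 (fun i => σ i k)
      (fun i j hij => by_contra fun h => k4 i j h hij) k3 _ hne
      (Finset.sup_mono (support_map_subset _ _)) k5
    rw [h2] at k6
    have hB0 : 0 < B := by linarith
    have k9 : (0 : ℝ) < B ^ S.N k := by positivity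
    have k10 : B ^ S.N k ≤ ((⌈B⌉₊ : ℕ) : ℝ) ^ S.N k :=
      pow_le_pow_left₀ hB0.le (Nat.le_ceil _) _
    have k11 := (inv_lt_iff_one_lt_mul₀ k9).1 k8
    have k12 := mul_le_mul_of_nonneg_right k10
      (norm_nonneg (aeval (fun i => z (σ i k)) (map (evz (S := S) k) q)))
    linarith
  ext b
  rw [coeff_map, coeff_zero]
  congr 2
  rw [β_eq_zero]
  filter_upwards [h5] with k hk
  have := congrArg (coeff b) hk
  rw [coeff_map, coeff_zero] at this
  exact this

lemma ρ_congr {f g : S.O} (h : ∀ᶠ k in (S.U : Filter ℕ), (f : ℕ → ℂ) k = (g : ℕ → ℂ) k) :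
    S.ρ f = S.ρ g := by
  have : S.toV f = S.toV g := Subtype.ext (Germ.coe_eq.2 h)
  unfold ρ
  rw [RingHom.comp_apply, RingHom.comp_apply, this]

/-- the residues of the values -/
def GZs (S : Sys) (hz : Up W z) : Set (ResidueField S.V) := {u | ∃ σ, ∃ h : S.GWin W σ, S.ρ (gf hz σ h) = u}

lemma gindep_Z (hz : Up W z) (hl : Low W z) :
    (AlgebraicIndependent.matroid S.R (ResidueField S.V)).Indep (GZs S hz) := by
  rw [AlgebraicIndependent.matroid_indep_iff]
  apply algebraicIndependent_of_finite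
  intro t ht hfin
  have := hfin.fintype
  let e : Fin (Fintype.card t) ≃ t := (Fintype.equivFin t).symm
  choose σ hσ hu using fun i => ht (e i).2
  have h1 : AlgebraicIndependent S.R fun i => S.ρ (gf hz (σ i) (hσ i)) := by
    apply gindep hz hl σ hσ
    intro i j hij
    by_contra hcon
    have h2 : ∀ᶠ k in (S.U : Filter ℕ), ¬ (σ i k ≠ σ j k) := S.U.eventually_not.2 hcon
    apply hij
    apply e.injective
    apply Subtype.ext
    rw [← hu i, ← hu j]
    apply ρ_congr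
    filter_upwards [h2] with k hk
    rw [not_not] at hk
    change z (σ i k) = z (σ j k)
    rw [hk]
  have h3 : (fun i => S.ρ (gf hz (σ i) (hσ i))) = (fun a : t => (a : ResidueField S.V)) ∘ e :=
    funext hu
  rw [h3] at h1
  exact (algebraicIndependent_equiv e).1 h1

end Gen

section Sp

variable {S : Sys}

/-- an integer sequence as a germ -/
noncomputable def φ : S.R0 →+* S.K := (algebraMap S.V S.K).comp (S.toV.comp S.ι)

/-- a polynomial over a germ of coordinates -/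
noncomputable def sp {t n : ℕ} (ξ : Fin t → S.K) (p : MvPolynomial (Fin t ⊕ Fin n) S.R0) :
    MvPolynomial (Fin n) S.K := eval₂ (C.comp φ) (Sum.elim (fun i => C (ξ i)) X) p

lemma eval_sp {t n : ℕ} (ξ : Fin t → S.K) (p : MvPolynomial (Fin t ⊕ Fin n) S.R0)
    (u : Fin n → S.K) : eval u (sp ξ p) = eval₂ φ (Sum.elim ξ u) p := by
  unfold sp
  rw [eval₂_comp_left]
  congr 1
  · ext a
    simp
  · funext i
    rcases i with i | i <;> simp

lemma coeff_sp {t n : ℕ} (ξ : Fin t → S.K) (p : MvPolynomial (Fin t ⊕ Fin n) S.R0)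
    (b : Fin n →₀ ℕ) : (sp ξ p).coeff b ∈ Algebra.adjoin S.R (Set.range ξ) := by
  let ξ' : Fin t → Algebra.adjoin S.R (Set.range ξ) := fun i =>
    ⟨ξ i, Algebra.subset_adjoin ⟨i, rfl⟩⟩
  have h : sp ξ p = map (algebraMap (Algebra.adjoin S.R (Set.range ξ)) S.K)
      (eval₂ (C.comp ((algebraMap S.R (Algebra.adjoin S.R (Set.range ξ))).comp S.β))
        (Sum.elim (fun i => C (ξ' i)) X) p) := by
    rw [eval₂_comp_left]
    unfold sp
    congr 1
    · ext a : 1
      simp only [RingHom.comp_apply, map_C]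
      rfl
    · funext i
      rcases i with i | i
      · simp only [Sum.elim_inl, Function.comp_apply, map_C]
        rfl
      · simp
  rw [h, coeff_map]
  exact Subtype.mem _

lemma ev_sp {t n : ℕ} (x : Fin t → ℕ → ℂ) (f : Fin n → ℕ → ℂ)
    (p : MvPolynomial (Fin t ⊕ Fin n) S.R0) (P : ℕ → MvPolynomial (Fin t ⊕ Fin n) ℤ)
    (hP : ∀ k, map (evz k) p = P k) :
    eval (fun j => (f j : S.K)) (sp (fun i => (x i : S.K)) p) =
      ((fun k => aeval (Sum.elim (fun i => x i k) fun j => f j k) (P k) : ℕ → ℂ) : S.K) := by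
  rw [eval_sp]
  have h1 : eval₂ φ (Sum.elim (fun i => (x i : S.K)) fun j => (f j : S.K)) p =
      Germ.coeRingHom (S.U : Filter ℕ) (eval₂ (S.O.subtype.comp S.ι) (Sum.elim x f) p) := by
    rw [eval₂_comp_left]
    congr 1
    funext i
    rcases i with i | i <;> rfl
  rw [h1]
  change ((eval₂ (S.O.subtype.comp S.ι) (Sum.elim x f) p : ℕ → ℂ) : S.K) = _
  congr 1
  funext k
  have h2 : eval₂ (S.O.subtype.comp S.ι) (Sum.elim x f) p k =
      Pi.evalRingHom (fun _ : ℕ => ℂ) k (eval₂ (S.O.subtype.comp S.ι) (Sum.elim x f) p) := rfl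
  rw [h2, eval₂_comp_left, ← hP, aeval_def, eval₂_map]
  congr 1
  funext i
  rcases i with i | i <;> rfl

/-- a bounded sequence of integer polynomials -/
lemma exists_p {m : Type*} [Finite m] (D : ℕ) (c : ℝ) (P : ℕ → MvPolynomial m ℤ)
    (hdeg : ∀ k, (P k).totalDegree ≤ D)
    (hcoef : ∀ k b, |(((P k).coeff b : ℤ) : ℝ)| ≤ c ^ S.N k) :
    ∃ p : MvPolynomial m S.R0, ∀ k, map (evz k) p = P k := by
  classical
  have h1 : ∀ b, (fun k => (P k).coeff b) ∈ S.R0 := by
    intro b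
    refine bd_of_pow c (Filter.Eventually.of_forall fun k => ?_)
    rw [Complex.norm_intCast]
    exact hcoef k b
  refine ⟨∑ b ∈ (Finsupp.finite_of_degree_le (σ := m) D).toFinset, monomial b ⟨_, h1 b⟩,
    fun k => ?_⟩
  ext b
  rw [coeff_map, coeff_sum, map_sum]
  by_cases hb : b ∈ (Finsupp.finite_of_degree_le (σ := m) D).toFinset
  · rw [Finset.sum_eq_single_of_mem b hb]
    · rw [coeff_monomial, if_pos rfl]
      rfl
    · intro b' _ hne
      rw [coeff_monomial, if_neg hne, map_zero]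
  · rw [Finset.sum_eq_zero]
    · rw [Set.Finite.mem_toFinset, Set.mem_ofPred_eq, not_le] at hb
      refine (coeff_eq_zero_of_totalDegree_lt (lt_of_le_of_lt (hdeg k) ?_)).symm
      exact hb
    · intro b' hb'
      rw [coeff_monomial, if_neg, map_zero]
      rintro rfl
      exact hb hb'

/-- the residues of the bounded germs which are algebraic over `ξ` -/
def Xs {t : ℕ} (ξ : Fin t → S.K) : Set (ResidueField S.V) :=
  (IsScalarTower.toAlgHom S.R S.V (ResidueField S.V)) '' {w | (IsScalarTower.toAlgHom S.R S.V S.K) w ∈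
    (AlgebraicIndependent.matroid S.R S.K).closure (Set.range ξ)}

lemma rank_Xs {t : ℕ} (ξ : Fin t → S.K) :
    (AlgebraicIndependent.matroid S.R (ResidueField S.V)).eRk (Xs ξ) ≤ t := by
  refine (rank_res _ ?_ _ _).trans ?_
  · intro a b h
    exact Subtype.ext h
  · rw [← Set.image_univ]
    refine (Set.encard_image_le _ _).trans ?_
    simp

lemma cl_div {X : Set S.K} {a b : S.K} (ha : a ∈ Algebra.adjoin S.R X)
    (hb : b ∈ Algebra.adjoin S.R X) :
    a / b ∈ (AlgebraicIndependent.matroid S.R S.K).closure X := by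
  rw [mem_cl_iff]
  have h1 : IsAlgebraic (Algebra.adjoin S.R X) a :=
    isAlgebraic_algebraMap (⟨a, ha⟩ : Algebra.adjoin S.R X)
  have h2 : IsAlgebraic (Algebra.adjoin S.R X) b :=
    isAlgebraic_algebraMap (⟨b, hb⟩ : Algebra.adjoin S.R X)
  rw [div_eq_mul_inv]
  exact h1.mul h2.inv

end Sp

section Bad

variable {ι : Type*} {W : ℕ → ι → Prop} {z : ι → ℂ} {S : Sys}

/-- **one bad tuple** -/
lemma gbad (hz : Up W z) (hl : Low W z) {t n D : ℕ} {c : ℝ} (x : Fin t → ℕ → ℂ)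
    (σ : Fin n → ℕ → ι) (hσ : ∀ j, S.GWin W (σ j))
    (hd : ∀ i j, i ≠ j → ∀ᶠ k in (S.U : Filter ℕ), σ i k ≠ σ j k)
    (y : Fin n → ℕ → ℂ) (hy : ∀ j k, ‖y j k‖ ≤ 1) (P : ℕ → MvPolynomial (Fin t ⊕ Fin n) ℤ)
    (hdeg : ∀ k, (P k).totalDegree ≤ D)
    (hcoef : ∀ k b, |(((P k).coeff b : ℤ) : ℝ)| ≤ c ^ S.N k)
    (hlt : ∀ B : ℕ, ∀ᶠ k in (S.U : Filter ℕ),
      (B : ℝ) ^ S.N k * ‖aeval (Sum.elim (fun i => x i k) fun j => z (σ j k)) (P k)‖ <
        ‖aeval (Sum.elim (fun i => x i k) fun j => y j k) (P k)‖) :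
    ∃ j, S.ρ (gf hz (σ j) (hσ j)) ∈ (AlgebraicIndependent.matroid S.R (ResidueField S.V)).closure
      (Xs (fun i => (x i : S.K)) ∪
        (Set.range (fun j => S.ρ (gf hz (σ j) (hσ j))) \ {S.ρ (gf hz (σ j) (hσ j))})) := by
  classical
  obtain ⟨p, hp⟩ := exists_p D c P hdeg hcoef
  have hyV : ∀ j, S.Bd (y j) := fun j => bd_of_le 1 (Filter.Eventually.of_forall (hy j))
  obtain ⟨f, hf⟩ : ∃ f : ℕ → ℂ, f = fun k =>
      aeval (Sum.elim (fun i => x i k) fun j => z (σ j k)) (P k) := ⟨_, rfl⟩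
  obtain ⟨g, hg⟩ : ∃ g : ℕ → ℂ, g = fun k =>
      aeval (Sum.elim (fun i => x i k) fun j => y j k) (P k) := ⟨_, rfl⟩
  have h1 : eval (fun j => ((S.toV (gf hz (σ j) (hσ j)) : S.V) : S.K))
      (sp (fun i => (x i : S.K)) p) = (f : S.K) := by
    rw [hf]
    exact ev_sp x (fun j k => z (σ j k)) p P hp
  have h2 : eval (fun j => ((S.toV ⟨y j, hyV j⟩ : S.V) : S.K))
      (sp (fun i => (x i : S.K)) p) = (g : S.K) := by
    rw [hg]
    exact ev_sp x y p P hp
  have hg0 : ∀ᶠ k in (S.U : Filter ℕ), g k ≠ 0 := by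
    filter_upwards [hlt 0] with k hk h0
    have h3 : g k = aeval (Sum.elim (fun i => x i k) fun j => y j k) (P k) := by rw [hg]
    rw [← h3, h0, norm_zero] at hk
    exact absurd hk (not_lt.2 (by positivity))
  have hw : S.Tiny (f / g) := by
    intro B
    filter_upwards [hlt B, hg0] with k hk hk0
    have h3 : g k = aeval (Sum.elim (fun i => x i k) fun j => y j k) (P k) := by rw [hg]
    have h4 : f k = aeval (Sum.elim (fun i => x i k) fun j => z (σ j k)) (P k) := by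
      rw [hf]
    rw [← h3, ← h4] at hk
    rw [Pi.div_apply, norm_div, ← mul_div_assoc]
    exact (div_le_one (norm_pos_iff.2 hk0)).2 hk.le
  have hwb : S.Bd (f / g) := by
    refine bd_of_le 1 ?_
    filter_upwards [hw 1] with k hk
    rwa [Nat.cast_one, one_pow, one_mul] at hk
  obtain ⟨q, b0, hb0, hqc, hq0, hq1⟩ := red S.V (sp (fun i => (x i : S.K)) p)
    (fun j => S.toV (gf hz (σ j) (hσ j))) (fun j => S.toV ⟨y j, hyV j⟩) (by
      rw [h2]
      intro h0
      have h3 : (g : S.K) = ((0 : ℕ → ℂ) : S.K) := h0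
      rw [Germ.coe_eq] at h3
      obtain ⟨k, hk1, hk2⟩ := (h3.and hg0).exists
      exact hk2 hk1) (by
      refine ⟨S.toV ⟨f / g, hwb⟩, ?_, ?_⟩
      · rw [← residue_eq_zero_iff]
        exact (ρ_eq_zero ⟨f / g, hwb⟩).2 hw
      · rw [h1, h2]
        change (f : S.K) = ((f / g * g : ℕ → ℂ) : S.K)
        rw [Germ.coe_eq]
        filter_upwards [hg0] with k hk
        rw [Pi.mul_apply, Pi.div_apply, div_mul_cancel₀ _ hk])
  refine dep (Xs fun i => (x i : S.K)) (fun j => S.ρ (gf hz (σ j) (hσ j))) ?_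
    (q.map (residue S.V)) ?_ hq0 hq1
  · exact (gindep hz hl σ hσ hd).injective
  · intro b
    rw [coeff_map]
    apply Algebra.subset_adjoin
    refine ⟨q.coeff b, ?_, rfl⟩
    change ((q.coeff b : S.V) : S.K) ∈ (AlgebraicIndependent.matroid S.R S.K).closure _
    rw [hqc]
    exact cl_div (coeff_sp _ _ _) (coeff_sp _ _ _)

/-- **at most `t` exceptional sequences** -/
theorem gno_bad [DecidableEq ι] (hz : Up W z) (hl : Low W z) {t n D : ℕ} {c : ℝ}
    (x : Fin t → ℕ → ℂ) (s : ℕ → Finset ι → Fin n → ι)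
    (hs : ∀ k H, H.card ≤ t → (Function.Injective (s k H) ∧ ∀ i, W (S.N k) (s k H i)) ∧ ∀ i, s k H i ∉ H)
    (y : ℕ → Finset ι → Fin n → ℂ) (hy : ∀ k H, H.card ≤ t → ∀ j, ‖y k H j‖ ≤ 1)
    (P : ℕ → Finset ι → MvPolynomial (Fin t ⊕ Fin n) ℤ)
    (hdeg : ∀ k H, H.card ≤ t → (P k H).totalDegree ≤ D)
    (hcoef : ∀ k H, H.card ≤ t → ∀ b, |(((P k H).coeff b : ℤ) : ℝ)| ≤ c ^ S.N k)
    (hlt : ∀ H : ℕ → Finset ι, (∀ k, (H k).card ≤ t) → ∀ B : ℕ, ∀ᶠ k in (S.U : Filter ℕ),
      (B : ℝ) ^ S.N k * ‖aeval (Sum.elim (fun i => x i k)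
          fun j => z (s k (H k) j)) (P k (H k))‖ <
        ‖aeval (Sum.elim (fun i => x i k) fun j => y k (H k) j) (P k (H k))‖) : False := by
  classical
  obtain ⟨M, hM⟩ : ∃ M, M = AlgebraicIndependent.matroid S.R (ResidueField S.V) := ⟨_, rfl⟩
  obtain ⟨X, hX⟩ : ∃ X, X = Xs (S := S) fun i => (x i : S.K) := ⟨_, rfl⟩
  have key : ∀ i : ℕ, i ≤ t + 1 → ∃ (E : Set (ResidueField S.V)) (H : ℕ → Finset ι),
      (∀ k, (H k).card ≤ i) ∧ E ⊆ GZs S hz ∧ E.encard = i ∧ E ⊆ M.closure (X ∪ (GZs S hz \ E)) ∧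
      ∀ σ (h : S.GWin W σ), (∀ k, σ k ∉ H k) → S.ρ (gf hz σ h) ∉ E := by
    intro i
    induction i with
    | zero =>
      intro _
      exact ⟨∅, fun _ => ∅, by simp, by simp, by simp, by simp, by simp⟩
    | succ i ih =>
      intro hi
      obtain ⟨E, H, h1, h2, h3, h4, h5⟩ := ih (by omega)
      have hH : ∀ k, (H k).card ≤ t := fun k => (h1 k).trans (by omega)
      have hσ : ∀ j, S.GWin W fun k => s k (H k) j := fun j =>
        Filter.Eventually.of_forall fun k => (hs k (H k) (hH k)).1.2 j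
      obtain ⟨j, hj⟩ := gbad hz hl x (fun j k => s k (H k) j) hσ
        (fun i j hij => Filter.Eventually.of_forall fun k h =>
          hij ((hs k (H k) (hH k)).1.1 h))
        (fun j k => y k (H k) j) (fun j k => hy k (H k) (hH k) j) (fun k => P k (H k))
        (fun k => hdeg k (H k) (hH k)) (fun k => hcoef k (H k) (hH k)) (hlt H hH)
      have hnE : ∀ j, S.ρ (gf hz (fun k => s k (H k) j) (hσ j)) ∉ E := fun j =>
        h5 _ _ fun k => (hs k (H k) (hH k)).2 j
      refine ⟨insert (S.ρ (gf hz (fun k => s k (H k) j) (hσ j))) E,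
        fun k => insert (s k (H k) j) (H k), fun k => ?_, ?_, ?_, ?_, ?_⟩
      · exact (Finset.card_insert_le _ _).trans (Nat.succ_le_succ (h1 k))
      · exact Set.insert_subset ⟨_, hσ j, rfl⟩ h2
      · rw [Set.encard_insert_of_notMem (hnE j), h3]
        rfl
      · refine step M (by rw [hM]; rfl) h4 ?_
        rw [← hM, ← hX] at hj
        refine M.closure_subset_closure (Set.union_subset_union_right X ?_) hj
        rintro _ ⟨⟨l, rfl⟩, hl⟩
        refine ⟨⟨_, hσ l, rfl⟩, ?_⟩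
        rintro (h | h)
        · exact hl h
        · exact hnE l h
      · intro σ h hσH
        rintro (h6 | h6)
        · have h7 := gindep hz hl ![σ, fun k => s k (H k) j] (by
            intro i
            fin_cases i
            · exact h
            · exact hσ j) (by
            have h8 : ∀ k, σ k ≠ s k (H k) j := fun k hk =>
              hσH k (by rw [hk]; exact Finset.mem_insert_self _ _)
            intro i i' hii
            fin_cases i <;> fin_cases i'
            · exact absurd rfl hii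
            · exact Filter.Eventually.of_forall h8
            · exact Filter.Eventually.of_forall fun k => (h8 k).symm
            · exact absurd rfl hii)
          have h9 := h7.injective (a₁ := 0) (a₂ := 1) h6
          exact absurd h9 (by decide)
        · exact h5 σ h (fun k hk => hσH k (Finset.mem_insert_of_mem hk)) h6
  obtain ⟨E, H, h1, h2, h3, h4, h5⟩ := key (t + 1) le_rfl
  have h6 := count M (by rw [hM]; exact gindep_Z hz hl) h2 h4
  have h7 : E.encard ≤ t := h6.trans (by rw [hM, hX]; exact rank_Xs _)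
  rw [h3] at h7
  have h8 : t + 1 ≤ t := by exact_mod_cast h7
  omega

end Bad

end Sys

/-- **transfer from integer coefficients to arbitrary complex parameters** -/
theorem transfer {ι : Type*} {W : ℕ → ι → Prop} {z : ι → ℂ} (hz : Up W z) (hl : Low W z)
    (n t D : ℕ) (C : ℝ) : ∃ B : ℝ, 1 < B ∧ ∃ N0 : ℕ, ∀ N : ℕ, N0 ≤ N →
    ∀ x : Fin t → ℂ, ∃ H : Finset ι, H.card ≤ t ∧ ∀ s : Fin n → ι, Function.Injective s →
      (∀ i, W N (s i) ∧ s i ∉ H) → ∀ P : MvPolynomial (Fin t ⊕ Fin n) ℤ, P.totalDegree ≤ D →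
      (∀ b, |((P.coeff b : ℤ) : ℝ)| ≤ C ^ N) → ∀ y : Fin n → ℂ, (∀ i, ‖y i‖ ≤ 1) →
      ‖aeval (Sum.elim x y) P‖ ≤ B ^ N * ‖aeval (Sum.elim x fun i => z (s i)) P‖ := by
  classical
  by_contra hcon
  push Not at hcon
  have h1 : ∀ k : ℕ, (1 : ℝ) < k + 2 := fun k => by
    have := Nat.cast_nonneg (α := ℝ) k
    linarith
  choose N hN x hx using fun k : ℕ => hcon (k + 2) (h1 k) k
  by_cases hn : Nonempty (Fin n → ι)
  · choose! s hs1 hs2 P hP1 hP2 y hy hlt using hx
    have hU : (hyperfilter ℕ : Filter ℕ) ≤ atTop := Nat.hyperfilter_le_atTop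
    let S : Sys :=
      { U := hyperfilter ℕ
        N := N
        hN := (tendsto_atTop_mono hN tendsto_id).mono_left hU }
    refine Sys.gno_bad (S := S) hz hl (c := C) (D := D) (fun i k => x k i) s
      (fun k H hH => ⟨⟨hs1 k H hH, fun i => (hs2 k H hH i).1⟩, fun i => (hs2 k H hH i).2⟩)
      y hy P hP1 hP2 ?_
    intro H hH B
    have h2 : ∀ᶠ k in (hyperfilter ℕ : Filter ℕ), B ≤ k := hU (eventually_ge_atTop B)
    filter_upwards [h2] with k hk
    refine lt_of_le_of_lt ?_ (hlt k (H k) (hH k))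
    apply mul_le_mul_of_nonneg_right _ (norm_nonneg _)
    apply pow_le_pow_left₀ (Nat.cast_nonneg _)
    have : (B : ℝ) ≤ k := by exact_mod_cast hk
    linarith
  · obtain ⟨s, -⟩ := hx 0 ∅ (by simp)
    exact hn ⟨s⟩

end Pool.Agent.L0h64.ZV
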