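import Pool.Agent.L0h64.ZV.Lyn

/-!
# Existence of the Lyndon factorization (helper64)
-/

set_option autoImplicit false

namespace Pool.Agent.L0h64.ZV.Lyn

variable {α : Type*} [LinearOrder α]

lemma pre_of_le (l : List α) : ∀ v r : List α, l < v → v ≤ l ++ r →
    ∃ v', v = l ++ v' ∧ v' ≤ r ∧ v' ≠ [] := by
  induction l with
  | nil =>
    intro v r h1 h2
    refine ⟨v, rfl, h2, ?_⟩
    rintro rfl
    exact absurd h1 (lt_irrefl _)
  | cons a l ih =>
    intro v r h1 h2
    rcases v with _ | ⟨b, v⟩
    · exact absurd h1 (not_lt.2 (prefix_le ⟨_, rfl⟩))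
    · rw [List.cons_append] at h2
      rcases le_cons h2 with h3 | ⟨rfl, h3⟩
      · exact absurd h1 (not_lt.2 (cons_lt h3).le)
      · rcases List.cons_lt_cons_iff.1 h1 with h4 | ⟨_, h4⟩
        · exact absurd h4 (lt_irrefl _)
        · obtain ⟨v', rfl, h5, h6⟩ := ih v r h4 h3
          exact ⟨v', rfl, h5, h6⟩

theorem exists_fac (n : ℕ) : ∀ w : List α, w.length = n →
    ∃ L : List (List α), L.Pairwise (· ≥ ·) ∧ (∀ l ∈ L, IsLyn l) ∧ L.flatten = w := by
  induction n using Nat.strong_induction_on with
  | _ n ih =>
    intro w hw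
    by_cases hw0 : w = []
    · subst hw0
      exact ⟨[], List.Pairwise.nil, by simp, rfl⟩
    obtain ⟨v, hv, hmin⟩ := Finset.exists_min_image (w.tails.toFinset.filter (· ≠ [])) id
      ⟨w, by simp [hw0]⟩
    rw [Finset.mem_filter, List.mem_toFinset, List.mem_tails] at hv
    have hmin' : ∀ v', v' <:+ w → v' ≠ [] → v ≤ v' := fun v' h1 h2 => hmin v' (by
      rw [Finset.mem_filter, List.mem_toFinset, List.mem_tails]
      exact ⟨h1, h2⟩)
    obtain ⟨⟨w', rfl⟩, hv0⟩ := hv
    have hlen : 0 < v.length := List.length_pos_iff.2 hv0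
    obtain ⟨L, h1, h2, h3⟩ := ih w'.length (by
      rw [← hw, List.length_append]
      omega) w' rfl
    have hlyn : IsLyn v := by
      refine ⟨hv0, fun u u' h4 h5 h6 => ?_⟩
      have h7 : v ≤ u' := hmin' u' ⟨w' ++ u, by rw [h4, List.append_assoc]⟩ h6
      refine lt_of_le_of_ne h7 fun h8 => ?_
      have h9 := congrArg List.length h4
      rw [List.length_append, ← h8] at h9
      have h10 : 0 < u.length := List.length_pos_iff.2 h5
      omega
    refine ⟨L ++ [v], ?_, ?_, ?_⟩
    · rw [List.pairwise_append]
      refine ⟨h1, List.pairwise_singleton _ _, fun a ha b hb => ?_⟩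
      rw [List.mem_singleton] at hb
      rw [hb]
      rcases List.eq_nil_or_concat L with hL | ⟨L', l, hL⟩
      · rw [hL] at ha
        exact absurd ha List.not_mem_nil
      · rw [List.concat_eq_append] at hL
        subst hL
        rw [List.pairwise_append] at h1
        have h4 : l ≥ v := by
          by_contra hcon
          rw [not_le] at hcon
          have hl0 : l ≠ [] := (h2 l (by simp)).1
          have h5 : v ≤ l ++ v := hmin' _ ⟨L'.flatten, by
            rw [← h3]
            simp⟩ (by simp [hl0])
          obtain ⟨v', h6, h7, h8⟩ := pre_of_le l v v hcon h5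
          exact absurd (hlyn.2 l v' h6 hl0 h8) (not_lt.2 h7)
        rcases List.mem_append.1 ha with ha | ha
        · exact h4.trans (h1.2.2 a ha l (by simp))
        · rw [List.mem_singleton] at ha
          rw [ha]
          exact h4
    · intro l hl
      rcases List.mem_append.1 hl with hl | hl
      · exact h2 l hl
      · rw [List.mem_singleton] at hl
        rw [hl]
        exact hlyn
    · rw [List.flatten_append, h3]
      simp

end Pool.Agent.L0h64.ZV.Lyn
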