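import Mathlib

/-!
# Lyndon words and the largest word of a shuffle (helper64)
-/

set_option autoImplicit false

namespace Pool.Agent.L0h64.ZV.Lyn

variable {α : Type*}

/-- `Sh s w`: the word `w` is a shuffle of the words of the multiset `s` -/
inductive Sh : Multiset (List α) → List α → Prop
  | nil (s : Multiset (List α)) (h : ∀ u ∈ s, u = []) : Sh s []
  | cons (a : α) (u : List α) (s : Multiset (List α)) (w : List α) (h : Sh (u ::ₘ s) w) :
      Sh ((a :: u) ::ₘ s) (a :: w)

/-- the total length -/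
def tot (s : Multiset (List α)) : ℕ := (s.map List.length).sum

lemma tot_cons (u : List α) (s : Multiset (List α)) : tot (u ::ₘ s) = u.length + tot s := by
  unfold tot
  rw [Multiset.map_cons, Multiset.sum_cons]

lemma tot_zero_iff {s : Multiset (List α)} : tot s = 0 ↔ ∀ u ∈ s, u = [] := by
  unfold tot
  rw [Multiset.sum_eq_zero_iff]
  simp

lemma Sh.length {s : Multiset (List α)} {w : List α} (h : Sh s w) : w.length = tot s := by
  induction h with
  | nil s h => rw [List.length_nil, (tot_zero_iff.2 h)]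
  | cons a u s w h ih =>
    rw [tot_cons] at ih ⊢
    rw [List.length_cons, List.length_cons, ih]
    omega

lemma Sh.exists (n : ℕ) : ∀ s : Multiset (List α), tot s = n → ∃ w, Sh s w := by
  induction n with
  | zero =>
    intro s hs
    exact ⟨[], Sh.nil s (tot_zero_iff.1 hs)⟩
  | succ n ih =>
    intro s hs
    have h1 : ¬ ∀ u ∈ s, u = [] := by
      rw [← tot_zero_iff]
      omega
    push Not at h1
    obtain ⟨u, hu, hu0⟩ := h1
    obtain ⟨s', rfl⟩ := Multiset.exists_cons_of_mem hu
    rcases u with _ | ⟨a, u⟩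
    · exact absurd rfl hu0
    · obtain ⟨w, hw⟩ := ih (u ::ₘ s') (by
        rw [tot_cons] at hs ⊢
        rw [List.length_cons] at hs
        omega)
      exact ⟨a :: w, Sh.cons a u s' w hw⟩

lemma Sh.inv {s : Multiset (List α)} {a : α} {w : List α} (h : Sh s (a :: w)) :
    ∃ u s', s = (a :: u) ::ₘ s' ∧ Sh (u ::ₘ s') w := by
  generalize hv : a :: w = v at h
  cases h with
  | nil s h => exact absurd hv (by simp)
  | cons a' u s' w' h =>
    obtain ⟨rfl, rfl⟩ := List.cons.inj hv
    exact ⟨u, s', rfl, h⟩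

lemma Sh.nil_iff {s : Multiset (List α)} (h : Sh s []) : ∀ u ∈ s, u = [] := by
  have := h.length
  rw [List.length_nil] at this
  exact tot_zero_iff.1 this.symm

lemma Sh.cons_nil {w : List α} : ∀ {s : Multiset (List α)}, Sh s w → Sh ([] ::ₘ s) w := by
  induction w with
  | nil =>
    intro s h
    refine Sh.nil _ fun u hu => ?_
    rcases Multiset.mem_cons.1 hu with rfl | hu
    · rfl
    · exact h.nil_iff u hu
  | cons a w ih =>
    intro s h
    obtain ⟨u, s', rfl, h'⟩ := h.inv
    have h1 := ih h'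
    rw [Multiset.cons_swap] at h1 ⊢
    exact Sh.cons a u _ w h1

lemma Sh.of_cons_nil {w : List α} : ∀ {s : Multiset (List α)}, Sh ([] ::ₘ s) w → Sh s w := by
  induction w with
  | nil =>
    intro s h
    exact Sh.nil _ fun u hu => h.nil_iff u (Multiset.mem_cons_of_mem hu)
  | cons a w ih =>
    intro s h
    obtain ⟨u, s', hs, h'⟩ := h.inv
    have h1 : (a :: u) ∈ s := by
      have : (a :: u) ∈ ([] : List α) ::ₘ s := by
        rw [hs]
        exact Multiset.mem_cons_self _ _
      rcases Multiset.mem_cons.1 this with h2 | h2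
      · exact absurd h2 (by simp)
      · exact h2
    obtain ⟨s2, rfl⟩ := Multiset.exists_cons_of_mem h1
    rw [Multiset.cons_swap] at hs
    have h2 := (Multiset.cons_inj_right _).1 hs
    rw [← h2, Multiset.cons_swap] at h'
    exact Sh.cons a u s2 w (ih h')

section Ord

variable [LinearOrder α]

/-- the exchange lemma -/
def EE (n : ℕ) : Prop := ∀ (p u v : List α) (R : Multiset (List α)),
  tot ((p ++ u) ::ₘ v ::ₘ R) = n → v ≤ u → ∀ w, Sh ((p ++ u) ::ₘ v ::ₘ R) w →
    ∃ w', Sh (u ::ₘ (p ++ v) ::ₘ R) w' ∧ w ≤ w'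

/-- the greedy choice is optimal -/
def GG (α : Type*) [LinearOrder α] (n : ℕ) : Prop := ∀ (a : α) (u : List α) (s : Multiset (List α)),
  tot ((a :: u) ::ₘ s) = n → (∀ v ∈ s, v ≤ a :: u) → ∀ w, Sh ((a :: u) ::ₘ s) w →
    ∃ w', Sh (u ::ₘ s) w' ∧ w ≤ a :: w'

lemma le_cons {a b : α} {u v : List α} (h : b :: v ≤ a :: u) : b < a ∨ (b = a ∧ v ≤ u) := by
  rcases h.lt_or_eq with h | h
  · rcases List.cons_lt_cons_iff.1 h with h | ⟨h, h'⟩
    · exact Or.inl h
    · exact Or.inr ⟨h, h'.le⟩
  · obtain ⟨rfl, rfl⟩ := List.cons.inj h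
    exact Or.inr ⟨rfl, le_rfl⟩

lemma cons_le {a : α} {u v : List α} (h : v ≤ u) : a :: v ≤ a :: u := by
  rcases h.lt_or_eq with h | h
  · exact (List.cons_lt_cons_iff.2 (Or.inr ⟨rfl, h⟩)).le
  · rw [h]

lemma cons_lt {a b : α} {u v : List α} (h : b < a) : b :: v < a :: u :=
  List.cons_lt_cons_iff.2 (Or.inl h)

lemma le_nil {u : List α} (h : u ≤ []) : u = [] := by
  rcases u with _ | ⟨a, u⟩
  · rfl
  · exact absurd (List.nil_lt_cons a u) (not_lt.2 h)

lemma gg_of (n : ℕ) (hE : EE (α := α) n) : GG α (n + 1) := by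
  intro a u s hn hmax w hw
  rcases w with _ | ⟨b, w⟩
  · have := hw.length
    rw [hn] at this
    exact absurd this (by simp)
  obtain ⟨v, s', hs, hw'⟩ := hw.inv
  by_cases hvu : b :: v = a :: u
  · obtain ⟨rfl, rfl⟩ := List.cons.inj hvu
    have h2 := (Multiset.cons_inj_right _).1 hs
    rw [← h2] at hw'
    exact ⟨w, hw', le_rfl⟩
  · have h1 : (b :: v) ∈ s := by
      have : (b :: v) ∈ (a :: u) ::ₘ s := by
        rw [hs]
        exact Multiset.mem_cons_self _ _
      exact (Multiset.mem_cons.1 this).resolve_left hvu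
    obtain ⟨s3, rfl⟩ := Multiset.exists_cons_of_mem h1
    rw [Multiset.cons_swap] at hs
    have h2 := (Multiset.cons_inj_right _).1 hs
    rw [← h2] at hw'
    rcases le_cons (hmax _ h1) with h3 | ⟨rfl, h3⟩
    · obtain ⟨w', hw'⟩ := Sh.exists _ (u ::ₘ (b :: v) ::ₘ s3) rfl
      exact ⟨w', hw', (cons_lt h3).le⟩
    · rw [Multiset.cons_swap] at hw'
      obtain ⟨w', hw1, hw2⟩ := hE [b] u v s3 (by
        rw [tot_cons, tot_cons] at hn ⊢
        simp only [List.length_cons, List.cons_append, List.nil_append] at hn ⊢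
        omega) h3 w hw'
      exact ⟨w', hw1, cons_le hw2⟩

lemma ee_of (n : ℕ) (hG : GG α n) (hE : ∀ m, m + 1 = n → EE (α := α) m) : EE (α := α) n := by
  intro p u v R hn hvu w hw
  by_cases h0 : n = 0
  · have h1 : ∀ x ∈ (p ++ u) ::ₘ v ::ₘ R, x = [] := tot_zero_iff.1 (by rw [hn, h0])
    have h2 : p ++ u = [] := h1 _ (Multiset.mem_cons_self _ _)
    obtain ⟨rfl, rfl⟩ := List.append_eq_nil_iff.1 h2
    exact ⟨w, hw, le_rfl⟩
  obtain ⟨m, rfl⟩ := Nat.exists_eq_succ_of_ne_zero h0
  have hE := hE m rfl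
  -- the largest word
  obtain ⟨x, hx, hmax⟩ : ∃ x ∈ (p ++ u) ::ₘ v ::ₘ R, ∀ y ∈ (p ++ u) ::ₘ v ::ₘ R, y ≤ x := by
    obtain ⟨x, hx, hmax⟩ := Finset.exists_max_image ((p ++ u) ::ₘ v ::ₘ R).toFinset id
      ⟨p ++ u, Multiset.mem_toFinset.2 (Multiset.mem_cons_self _ _)⟩
    exact ⟨x, Multiset.mem_toFinset.1 hx, fun y hy => hmax y (Multiset.mem_toFinset.2 hy)⟩
  have hx0 : x ≠ [] := by
    rintro rfl
    have : tot ((p ++ u) ::ₘ v ::ₘ R) = 0 := tot_zero_iff.2 fun y hy => le_nil (hmax y hy)
    omega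
  by_cases h1 : x = p ++ u
  · subst h1
    rcases p with _ | ⟨a, p⟩
    · exact ⟨w, hw, le_rfl⟩
    · obtain ⟨w', hw1, hw2⟩ := hG a (p ++ u) (v ::ₘ R) hn
        (fun y hy => hmax y (Multiset.mem_cons_of_mem hy)) w hw
      obtain ⟨w'', hw3, hw4⟩ := hE p u v R (by
        rw [tot_cons] at hn ⊢
        simp only [List.cons_append, List.length_cons] at hn
        omega) hvu w' hw1
      refine ⟨a :: w'', ?_, hw2.trans (cons_le hw4)⟩
      rw [Multiset.cons_swap] at hw3 ⊢
      exact Sh.cons a _ _ _ hw3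
  · rcases Multiset.mem_cons.1 hx with h2 | h2
    · exact absurd h2 h1
    by_cases h3 : x = v
    · subst h3
      rcases x with _ | ⟨c, v⟩
      · exact absurd rfl hx0
      rcases u with _ | ⟨d, u⟩
      · exact absurd (le_nil hvu) (by simp)
      rw [Multiset.cons_swap] at hw hn
      obtain ⟨w', hw1, hw2⟩ := hG c v ((p ++ d :: u) ::ₘ R) hn (fun y hy => hmax y (by
        rw [Multiset.cons_swap]
        exact Multiset.mem_cons_of_mem hy)) w hw
      rcases le_cons hvu with h4 | ⟨rfl, h4⟩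
      · obtain ⟨w1, hw3⟩ := Sh.exists _ (u ::ₘ (p ++ c :: v) ::ₘ R) rfl
        exact ⟨d :: w1, Sh.cons d _ _ _ hw3, hw2.trans (cons_lt h4).le⟩
      · rw [Multiset.cons_swap] at hw1
        have h5 : p ++ c :: u = (p ++ [c]) ++ u := by simp
        have h6 : p ++ c :: v = (p ++ [c]) ++ v := by simp
        rw [h5] at hw1
        obtain ⟨w1, hw3, hw4⟩ := hE (p ++ [c]) u v R (by
          rw [tot_cons, tot_cons] at hn ⊢
          simp only [List.length_cons, List.length_append, List.length_nil] at hn ⊢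
          omega) h4 w' hw1
        rw [h6]
        exact ⟨c :: w1, Sh.cons c _ _ _ hw3, hw2.trans (cons_le hw4)⟩
    · have h4 : x ∈ R := (Multiset.mem_cons.1 h2).resolve_left h3
      obtain ⟨R', rfl⟩ := Multiset.exists_cons_of_mem h4
      rcases x with _ | ⟨c, r⟩
      · exact absurd rfl hx0
      have e1 : ∀ y : List α, (p ++ u) ::ₘ v ::ₘ y ::ₘ R' = y ::ₘ (p ++ u) ::ₘ v ::ₘ R' := by
        intro y
        rw [Multiset.cons_swap v y, Multiset.cons_swap (p ++ u) y]
      have e2 : ∀ y : List α, u ::ₘ (p ++ v) ::ₘ y ::ₘ R' = y ::ₘ u ::ₘ (p ++ v) ::ₘ R' := by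
        intro y
        rw [Multiset.cons_swap (p ++ v) y, Multiset.cons_swap u y]
      rw [e1] at hn hw
      obtain ⟨w', hw1, hw2⟩ := hG c r _ hn (fun y hy => hmax y (by
        rw [e1]
        exact Multiset.mem_cons_of_mem hy)) w hw
      rw [← e1] at hw1
      obtain ⟨w'', hw3, hw4⟩ := hE p u v (r ::ₘ R') (by
        rw [e1]
        rw [tot_cons] at hn ⊢
        rw [List.length_cons] at hn
        omega) hvu w' hw1
      rw [e2] at hw3 ⊢
      exact ⟨c :: w'', Sh.cons c _ _ _ hw3, hw2.trans (cons_le hw4)⟩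

theorem gg_ee (n : ℕ) : GG α n ∧ EE (α := α) n := by
  induction n with
  | zero =>
    have hG : GG α 0 := by
      intro a u s hn
      rw [tot_cons, List.length_cons] at hn
      omega
    exact ⟨hG, ee_of 0 hG fun m hm => absurd hm (by omega)⟩
  | succ n ih =>
    have hG := gg_of n ih.2
    refine ⟨hG, ee_of (n + 1) hG fun m hm => ?_⟩
    have : m = n := by omega
    rw [this]
    exact ih.2

/-- the greedy choice is optimal -/
theorem greedy {a : α} {u : List α} {s : Multiset (List α)} (hmax : ∀ v ∈ s, v ≤ a :: u)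
    {w : List α} (hw : Sh ((a :: u) ::ₘ s) w) : ∃ w', Sh (u ::ₘ s) w' ∧ w ≤ a :: w' :=
  (gg_ee _).1 a u s rfl hmax w hw

/-- Lyndon words -/
def IsLyn (w : List α) : Prop := w ≠ [] ∧ ∀ u v, w = u ++ v → u ≠ [] → v ≠ [] → w < v

/-- **the largest word of the shuffle of Lyndon words** -/
theorem max_shuffle (L : List (List α)) (hL : L.Pairwise (· ≥ ·)) (hLyn : ∀ l ∈ L, IsLyn l) :
    ∀ w, Sh (L : Multiset (List α)) w → w ≤ L.flatten := by
  induction L with
  | nil =>
    intro w hw
    have := hw.length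
    rw [Multiset.coe_nil] at this
    rw [List.length_eq_zero_iff.1 this]
    exact le_of_eq rfl
  | cons l L ih =>
    rw [List.pairwise_cons] at hL
    have ih := ih hL.2 fun x hx => hLyn x (List.mem_cons_of_mem _ hx)
    have hl := hLyn l (List.mem_cons_self ..)
    have key : ∀ u : List α, (∃ q, l = q ++ u) → ∀ w, Sh (u ::ₘ (L : Multiset (List α))) w →
        w ≤ u ++ L.flatten := by
      intro u
      induction u with
      | nil =>
        intro _ w hw
        exact ih w hw.of_cons_nil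
      | cons a u ihu =>
        rintro ⟨q, hq⟩ w hw
        have h1 : l ≤ a :: u := by
          by_cases hq0 : q = []
          · rw [hq, hq0, List.nil_append]
          · exact (hl.2 q (a :: u) hq hq0 (by simp)).le
        obtain ⟨w', hw1, hw2⟩ := greedy (fun v hv => (hL.1 v (Multiset.mem_coe.1 hv)).trans h1) hw
        have h2 := ihu ⟨q ++ [a], by simp [hq]⟩ w' hw1
        exact hw2.trans (cons_le h2)
    intro w hw
    rw [List.flatten_cons]
    exact key l ⟨[], rfl⟩ w hw

/-- a prefix of a product of words ends with a prefix of one of them -/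
lemma prefix_flatten (T : List (List α)) : ∀ q r : List α, q ++ r = T.flatten → q ≠ [] →
    ∃ q' p t, q = q' ++ p ∧ p ≠ [] ∧ t ∈ T ∧ p <+: t := by
  induction T with
  | nil =>
    intro q r h hq
    rw [List.flatten_nil] at h
    exact absurd (List.append_eq_nil_iff.1 h).1 hq
  | cons t T ih =>
    intro q r h hq
    rw [List.flatten_cons] at h
    rcases List.append_eq_append_iff.1 h with ⟨a, ha, hb⟩ | ⟨a, ha, hb⟩
    · exact ⟨[], q, t, rfl, hq, List.mem_cons_self .., ⟨a, ha.symm⟩⟩
    · by_cases ha0 : a = []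
      · rw [ha0, List.append_nil] at ha
        exact ⟨[], q, t, rfl, hq, List.mem_cons_self .., by rw [ha]⟩
      · obtain ⟨q', p, t', h1, h2, h3, h4⟩ := ih a r hb.symm ha0
        exact ⟨t ++ q', p, t', by rw [ha, h1, List.append_assoc], h2, List.mem_cons_of_mem _ h3, h4⟩

lemma prefix_le {u v : List α} (h : u <+: v) : u ≤ v := by
  obtain ⟨r, rfl⟩ := h
  induction u with
  | nil =>
    rcases r with _ | ⟨a, r⟩
    · exact le_of_eq rfl
    · exact (List.nil_lt_cons a r).le
  | cons a u ih => exact cons_le ih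

/-- the factor which is longer leads to a contradiction -/
lemma no_longer {l l' : List α} {T T' : List (List α)} (hT : ∀ t ∈ T, t ≤ l) (hl' : IsLyn l')
    (hl : l ≠ []) (h : l ++ T.flatten = l' ++ T'.flatten) (hlen : l.length < l'.length) : False := by
  rcases List.append_eq_append_iff.1 h with ⟨a, ha, hb⟩ | ⟨a, ha, hb⟩
  · have ha0 : a ≠ [] := by
      rintro rfl
      rw [List.append_nil] at ha
      rw [ha] at hlen
      exact lt_irrefl _ hlen
    obtain ⟨q', p, t, h1, h2, h3, h4⟩ := prefix_flatten T a _ hb.symm ha0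
    have h5 : l' < p := hl'.2 (l ++ q') p (by rw [ha, h1, List.append_assoc]) (by simp [hl]) h2
    have h6 : l ≤ l' := prefix_le ⟨a, ha.symm⟩
    exact absurd (h5.trans_le ((prefix_le h4).trans ((hT t h3).trans h6))) (lt_irrefl _)
  · rw [ha, List.length_append] at hlen
    omega

/-- **uniqueness of the factorization** -/
theorem unique_fac (L : List (List α)) : ∀ L' : List (List α), L.Pairwise (· ≥ ·) →
    L'.Pairwise (· ≥ ·) → (∀ l ∈ L, IsLyn l) → (∀ l ∈ L', IsLyn l) → L.flatten = L'.flatten →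
    L = L' := by
  induction L with
  | nil =>
    intro L' _ _ _ hL' h
    rcases L' with _ | ⟨l', L'⟩
    · rfl
    · rw [List.flatten_nil, List.flatten_cons] at h
      exact absurd (List.append_eq_nil_iff.1 h.symm).1 (hL' l' (List.mem_cons_self ..)).1
  | cons l L ih =>
    intro L' hp hp' hL hL' h
    rcases L' with _ | ⟨l', L'⟩
    · rw [List.flatten_nil, List.flatten_cons] at h
      exact absurd (List.append_eq_nil_iff.1 h).1 (hL l (List.mem_cons_self ..)).1
    rw [List.flatten_cons, List.flatten_cons] at h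
    rw [List.pairwise_cons] at hp hp'
    have h1 : l.length = l'.length := by
      rcases lt_trichotomy l.length l'.length with h2 | h2 | h2
      · exact (no_longer hp.1 (hL' l' (List.mem_cons_self ..)) (hL l (List.mem_cons_self ..)).1
          h h2).elim
      · exact h2
      · exact (no_longer hp'.1 (hL l (List.mem_cons_self ..)) (hL' l' (List.mem_cons_self ..)).1
          h.symm h2).elim
    obtain ⟨rfl, h2⟩ := List.append_inj h h1
    rw [ih L' hp.2 hp'.2 (fun x hx => hL x (List.mem_cons_of_mem _ hx))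
      (fun x hx => hL' x (List.mem_cons_of_mem _ hx)) h2]

end Ord

end Pool.Agent.L0h64.ZV.Lyn
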