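import Pool.Agent.L0h64.ZV.Trd

/-!
# Zeta values over fields of finite transcendence degree: finite form (helper64)
-/

set_option autoImplicit false

namespace Pool.Agent.L0h64.ZV

open Filter MvPolynomial

lemma zt_eq {s : ℕ} (hs : 2 ≤ s) : ((zt s : ℝ) : ℂ) = riemannZeta s := by
  rw [zeta_eq_tsum_one_div_nat_add_one_cpow (by rw [Complex.natCast_re]; exact_mod_cast hs)]
  unfold zt
  rw [Complex.ofReal_tsum]
  refine tsum_congr fun k => ?_
  rw [Complex.cpow_natCast]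
  push_cast
  rfl

/-- **main theorem** -/
theorem mainT (n t D : ℕ) (κ C : ℝ) : ∃ B : ℝ, 1 < B ∧ ∃ N0 : ℕ, ∀ N : ℕ, N0 ≤ N →
    ∀ x : Fin t → ℂ, ∃ H : Finset ℕ, H.card ≤ t ∧ ∀ s : Fin n → ℕ, Box κ N s →
      (∀ i, s i ∉ H) → ∀ P : MvPolynomial (Fin t ⊕ Fin n) ℤ, P.totalDegree ≤ D →
      (∀ b, |((P.coeff b : ℤ) : ℝ)| ≤ C ^ N) → ∀ y : Fin n → ℂ, (∀ i, ‖y i‖ ≤ 1) →
      ‖aeval (Sum.elim x y) P‖ ≤
        B ^ N * ‖aeval (Sum.elim x fun i => ((zt (s i) : ℝ) : ℂ)) P‖ := by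
  classical
  by_contra hcon
  push Not at hcon
  have h1 : ∀ k : ℕ, (1 : ℝ) < k + 2 := fun k => by
    have := Nat.cast_nonneg (α := ℝ) k
    linarith
  choose N hN x hx using fun k : ℕ => hcon (k + 2) (h1 k) k
  choose! s hs1 hs2 P hP1 hP2 y hy hlt using hx
  have hU : (hyperfilter ℕ : Filter ℕ) ≤ atTop := Nat.hyperfilter_le_atTop
  let S : Sys :=
    { U := hyperfilter ℕ
      N := N
      hN := (tendsto_atTop_mono hN tendsto_id).mono_left hU }
  refine Sys.no_bad (S := S) (κ := κ) (c := C) (D := D) (fun i k => x k i) s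
    (fun k H hH => ⟨hs1 k H hH, hs2 k H hH⟩) y hy P hP1 hP2 ?_
  intro H hH B
  have h2 : ∀ᶠ k in (hyperfilter ℕ : Filter ℕ), B ≤ k := hU (eventually_ge_atTop B)
  filter_upwards [h2] with k hk
  refine lt_of_le_of_lt ?_ (hlt k (H k) (hH k))
  apply mul_le_mul_of_nonneg_right _ (norm_nonneg _)
  apply pow_le_pow_left₀ (Nat.cast_nonneg _)
  have : (B : ℝ) ≤ k := by exact_mod_cast hk
  linarith

end Pool.Agent.L0h64.ZV
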