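import Pool.Agent.L0h64.ZV.Mzl
import Pool.Agent.L0h64.ZV.Lyf

/-!
# Merging letters (helper64)
-/

set_option autoImplicit false

namespace Pool.Agent.L0h64.ZV

open Pool.Agent.Y760.ZG Pool.Agent.Y760.ZF Pool.Agent.L0h64.ZV.Lyn

/-- one merging of two letters -/
def Mg1 (s t : Multiset ℕ) : Prop := ∃ a b r, s = a ::ₘ b ::ₘ r ∧ t = (a + b) ::ₘ r

/-- merging of letters -/
def Mrg : Multiset ℕ → Multiset ℕ → Prop := Relation.ReflTransGen Mg1

lemma Mrg.refl (s : Multiset ℕ) : Mrg s s := Relation.ReflTransGen.refl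

lemma Mrg.trans {s t r : Multiset ℕ} (h1 : Mrg s t) (h2 : Mrg t r) : Mrg s r :=
  Relation.ReflTransGen.trans h1 h2

lemma Mrg.cons (c : ℕ) {s t : Multiset ℕ} (h : Mrg s t) : Mrg (c ::ₘ s) (c ::ₘ t) := by
  induction h with
  | refl => exact Relation.ReflTransGen.refl
  | tail _ h ih =>
    refine Relation.ReflTransGen.tail ih ?_
    obtain ⟨a, b, r, rfl, rfl⟩ := h
    refine ⟨a, b, c ::ₘ r, ?_, ?_⟩
    · rw [Multiset.cons_swap c a, Multiset.cons_swap c b]
    · rw [Multiset.cons_swap]

lemma Mrg.add_left (r : Multiset ℕ) {s t : Multiset ℕ} (h : Mrg s t) : Mrg (r + s) (r + t) := by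
  induction r using Multiset.induction_on with
  | empty => rwa [zero_add, zero_add]
  | cons a r ih =>
    rw [Multiset.cons_add, Multiset.cons_add]
    exact ih.cons a

lemma sti_mrg (u v : List ℕ) : ∀ w ∈ sti u v, Mrg ((u : Multiset ℕ) + (v : Multiset ℕ)) w := by
  induction u, v using sti.induct with
  | case1 v =>
    intro w hw
    rw [sti, List.mem_singleton] at hw
    rw [hw, Multiset.coe_nil, zero_add]
    exact Mrg.refl _
  | case2 i k =>
    intro w hw
    rw [sti, List.mem_singleton] at hw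
    rw [hw, Multiset.coe_nil, add_zero]
    exact Mrg.refl _
  | case3 i k j l ih1 ih2 ih3 =>
    intro w hw
    rw [sti, List.mem_append, List.mem_append, List.mem_map, List.mem_map, List.mem_map] at hw
    rcases hw with (⟨w', hw', rfl⟩ | ⟨w', hw', rfl⟩) | ⟨w', hw', rfl⟩
    · have h := (ih1 w' hw').cons i
      rw [← Multiset.cons_add, Multiset.cons_coe, Multiset.cons_coe] at h
      exact h
    · have h := (ih2 w' hw').cons j
      rw [← Multiset.add_cons, Multiset.cons_coe, Multiset.cons_coe] at h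
      exact h
    · have h := (ih3 w' hw').cons (i + j)
      rw [Multiset.cons_coe] at h
      refine Mrg.trans (Relation.ReflTransGen.single ?_) h
      refine ⟨i, j, (k : Multiset ℕ) + l, ?_, rfl⟩
      rw [← Multiset.add_cons, ← Multiset.cons_add, Multiset.cons_coe, Multiset.cons_coe]

lemma stil_mrg (M : List (List ℕ)) : ∀ w ∈ stil M, Mrg (M.flatten : Multiset ℕ) w := by
  induction M with
  | nil =>
    intro w hw
    rw [stil, List.mem_singleton] at hw
    rw [hw]
    exact Mrg.refl _
  | cons u M ih =>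
    intro w hw
    rw [stil, List.mem_flatMap] at hw
    obtain ⟨v, hv, hw⟩ := hw
    rw [List.flatten_cons, ← Multiset.coe_add]
    exact ((ih v hv).add_left u).trans (sti_mrg u v w hw)

lemma Mrg.blocks {s t : Multiset ℕ} (h : Mrg s t) : ∃ T : Multiset (Multiset ℕ),
    T.join = s ∧ T.map Multiset.sum = t ∧ ∀ x ∈ T, x ≠ 0 := by
  classical
  induction h with
  | refl =>
    refine ⟨s.map fun a => {a}, ?_, ?_, ?_⟩
    · induction s using Multiset.induction_on with
      | empty => rfl
      | cons a s ih =>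
        rw [Multiset.map_cons, Multiset.join_cons, ih, Multiset.singleton_add]
    · rw [Multiset.map_map]
      conv_rhs => rw [← Multiset.map_id s]
      refine Multiset.map_congr rfl fun a _ => ?_
      simp
    · intro x hx
      obtain ⟨a, _, rfl⟩ := Multiset.mem_map.1 hx
      exact Multiset.singleton_ne_zero a
  | tail _ h ih =>
    obtain ⟨T, h1, h2, h3⟩ := ih
    obtain ⟨a, b, r, rfl, rfl⟩ := h
    obtain ⟨A, hA, hA1, hA2⟩ := (Multiset.map_eq_cons _ _ _ _).2 h2
    obtain ⟨B, hB, hB1, hB2⟩ := (Multiset.map_eq_cons _ _ _ _).2 hA2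
    refine ⟨(A + B) ::ₘ ((T.erase A).erase B), ?_, ?_, ?_⟩
    · rw [Multiset.join_cons, add_assoc, ← Multiset.join_cons, Multiset.cons_erase hB,
        ← Multiset.join_cons, Multiset.cons_erase hA, h1]
    · rw [Multiset.map_cons, hB2, Multiset.sum_add, hA1, hB1]
    · intro x hx
      rcases Multiset.mem_cons.1 hx with rfl | hx
      · intro h0
        exact h3 A hA (by
          have := congrArg Multiset.card h0
          rw [Multiset.card_add, Multiset.card_zero] at this
          exact Multiset.card_eq_zero.1 (by omega))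
      · exact h3 x (Multiset.mem_of_mem_erase (Multiset.mem_of_mem_erase hx))

lemma Mrg.card_le {s t : Multiset ℕ} (h : Mrg s t) : t.card ≤ s.card := by
  induction h with
  | refl => exact le_rfl
  | tail _ h ih =>
    obtain ⟨a, b, r, rfl, rfl⟩ := h
    simp only [Multiset.card_cons] at ih ⊢
    omega

/-- the sums of letters -/
def Sms (s : Multiset ℕ) : Finset ℕ := (s.powerset.map Multiset.sum).toFinset

lemma mem_Sms {s : Multiset ℕ} {m : ℕ} : m ∈ Sms s ↔ ∃ r ≤ s, r.sum = m := by
  unfold Sms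
  rw [Multiset.mem_toFinset, Multiset.mem_map]
  simp only [Multiset.mem_powerset]

lemma card_Sms (s : Multiset ℕ) : (Sms s).card ≤ 2 ^ s.card := by
  unfold Sms
  refine (Multiset.toFinset_card_le _).trans ?_
  rw [Multiset.card_map, Multiset.card_powerset]

lemma Mrg.sub {s t : Multiset ℕ} (h : Mrg s t) : ∀ m ∈ t, ∃ r ≤ s, r ≠ 0 ∧ r.sum = m := by
  intro m hm
  obtain ⟨T, h1, h2, h3⟩ := h.blocks
  rw [← h2, Multiset.mem_map] at hm
  obtain ⟨x, hx, rfl⟩ := hm
  refine ⟨x, ?_, h3 x hx, rfl⟩
  rw [← h1]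
  obtain ⟨T', rfl⟩ := Multiset.exists_cons_of_mem hx
  rw [Multiset.join_cons]
  exact Multiset.le_add_right _ _

/-- the words of length at most `p` with letters in `A` -/
def Wds (A : Finset ℕ) : ℕ → Finset (List ℕ)
  | 0 => {[]}
  | p + 1 => insert [] (Finset.image₂ List.cons A (Wds A p))

lemma mem_Wds (A : Finset ℕ) (p : ℕ) : ∀ w : List ℕ, w.length ≤ p → (∀ m ∈ w, m ∈ A) →
    w ∈ Wds A p := by
  induction p with
  | zero =>
    intro w hw _
    rw [Wds, Finset.mem_singleton]
    exact List.length_eq_zero_iff.1 (Nat.le_zero.1 hw)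
  | succ p ih =>
    intro w hw hA
    rw [Wds, Finset.mem_insert]
    rcases w with _ | ⟨a, w⟩
    · exact Or.inl rfl
    · right
      rw [Finset.mem_image₂]
      refine ⟨a, hA a (by simp), w, ih w ?_ fun m hm => hA m (by simp [hm]), rfl⟩
      rw [List.length_cons] at hw
      omega

lemma card_Wds (A : Finset ℕ) (p : ℕ) : (Wds A p).card ≤ (A.card + 1) ^ p := by
  induction p with
  | zero => rw [Wds, Finset.card_singleton, pow_zero]
  | succ p ih =>
    rw [Wds]
    refine (Finset.card_insert_le _ _).trans ?_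
    have h1 := (Finset.card_image₂_le List.cons A (Wds A p)).trans (Nat.mul_le_mul_left _ ih)
    have h2 : 1 ≤ (A.card + 1) ^ p := Nat.one_le_pow _ _ (by omega)
    rw [pow_succ, mul_add, mul_one, mul_comm _ A.card]
    omega

/-- the Lyndon factorization -/
lemma exists_facN (u : List ℕ) : ∃ M : List (List ℕ), (M.map ng).Pairwise (· ≥ ·) ∧
    (∀ l ∈ M, IsLyn (ng l)) ∧ M.flatten = u := by
  obtain ⟨L, h1, h2, h3⟩ := exists_fac _ (ng u) rfl
  have key : ∀ (L : List (List ℤ)) (u : List ℕ), L.flatten = ng u →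
      ∃ M : List (List ℕ), M.map ng = L ∧ M.flatten = u := by
    intro L
    induction L with
    | nil =>
      intro u hu
      refine ⟨[], rfl, ?_⟩
      rw [List.flatten_nil] at hu ⊢
      exact (List.map_eq_nil_iff.1 hu.symm).symm
    | cons l L ih =>
      intro u hu
      rw [List.flatten_cons] at hu
      obtain ⟨u1, u2, rfl, h4, h5⟩ := List.map_eq_append_iff.1 hu.symm
      obtain ⟨M, h6, h7⟩ := ih u2 h5.symm
      refine ⟨u1 :: M, ?_, ?_⟩
      · rw [List.map_cons, h6, ← h4]
        rfl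
      · rw [List.flatten_cons, h7]
  obtain ⟨M, rfl, h5⟩ := key L u h3
  exact ⟨M, h1, fun l hl => h2 _ (List.mem_map_of_mem hl), h5⟩

end Pool.Agent.L0h64.ZV
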