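import Pool.Agent.L0h64.ZV.Lyn
import Pool.Agent.L0h64.ZV.Gtr
import Pool.Agent.Y760.ZF.Prod

/-!
# Multiple zeta values at Lyndon words (helper64)
-/

set_option autoImplicit false

namespace Pool.Agent.L0h64.ZV

open Filter Topology Pool.Agent.Y760.ZG Pool.Agent.Y760.ZF Pool.Agent.L0h64.ZV.Lyn

section Shuffles

lemma sh_self {α : Type*} (u : List α) (s : Multiset (List α)) (hs : ∀ v ∈ s, v = []) :
    Sh (u ::ₘ s) u := by
  induction u with
  | nil =>
    refine Sh.nil _ fun v hv => ?_
    rcases Multiset.mem_cons.1 hv with rfl | hv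
    · rfl
    · exact hs v hv
  | cons a u ih => exact Sh.cons a u s u ih

lemma Sh.map {α β : Type*} (f : α → β) {s : Multiset (List α)} {w : List α} (h : Sh s w) :
    Sh (s.map (List.map f)) (w.map f) := by
  induction h with
  | nil s h =>
    refine Sh.nil _ fun u hu => ?_
    obtain ⟨v, hv, rfl⟩ := Multiset.mem_map.1 hu
    rw [h v hv, List.map_nil]
  | cons a u s w h ih =>
    rw [Multiset.map_cons] at ih ⊢
    exact Sh.cons (f a) (u.map f) _ _ ih

lemma sti_sh (u v : List ℕ) : ∀ w ∈ sti u v, w.length = u.length + v.length →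
    ∀ s : Multiset (List ℕ), Sh s v → Sh (u ::ₘ s) w := by
  induction u, v using sti.induct with
  | case1 v =>
    intro w hw _ s hs
    rw [sti, List.mem_singleton] at hw
    rw [hw]
    exact hs.cons_nil
  | case2 i k =>
    intro w hw _ s hs
    rw [sti, List.mem_singleton] at hw
    rw [hw]
    exact sh_self _ _ hs.nil_iff
  | case3 i k j l ih1 ih2 ih3 =>
    intro w hw hlen s hs
    rw [sti, List.mem_append, List.mem_append, List.mem_map, List.mem_map, List.mem_map] at hw
    rcases hw with (⟨w', hw', rfl⟩ | ⟨w', hw', rfl⟩) | ⟨w', hw', rfl⟩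
    · refine Sh.cons i k s w' (ih1 w' hw' ?_ s hs)
      simp only [List.length_cons] at hlen ⊢
      omega
    · obtain ⟨x, s', rfl, hs'⟩ := hs.inv
      have h1 := ih2 w' hw' (by
        simp only [List.length_cons] at hlen ⊢
        omega) (x ::ₘ s') hs'
      rw [Multiset.cons_swap] at h1 ⊢
      exact Sh.cons j x _ w' h1
    · have h1 := sti_length k l w' hw'
      simp only [List.length_cons] at hlen
      omega

lemma stil_sh (M : List (List ℕ)) : ∀ w ∈ stil M, w.length ≤ tot (M : Multiset (List ℕ)) ∧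
    (w.length = tot (M : Multiset (List ℕ)) → Sh (M : Multiset (List ℕ)) w) := by
  induction M with
  | nil =>
    intro w hw
    rw [stil, List.mem_singleton] at hw
    rw [hw]
    refine ⟨Nat.zero_le _, fun _ => Sh.nil _ fun u hu => ?_⟩
    simp at hu
  | cons u M ih =>
    intro w hw
    rw [stil, List.mem_flatMap] at hw
    obtain ⟨v, hv, hw⟩ := hw
    obtain ⟨h1, h2⟩ := ih v hv
    have h3 := sti_length u v w hw
    rw [← Multiset.cons_coe, tot_cons]
    refine ⟨by omega, fun h4 => ?_⟩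
    exact sti_sh u v w hw (by omega) _ (h2 (by omega))

lemma append_mem_sti (u v : List ℕ) : u ++ v ∈ sti u v := by
  induction u, v using sti.induct with
  | case1 v =>
    rw [sti]
    simp
  | case2 i k =>
    rw [sti]
    simp
  | case3 i k j l ih1 ih2 ih3 =>
    rw [sti, List.mem_append, List.mem_append]
    left
    left
    rw [List.cons_append]
    exact List.mem_map_of_mem ih1

lemma flatten_mem_stil (M : List (List ℕ)) : M.flatten ∈ stil M := by
  induction M with
  | nil =>
    rw [stil]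
    simp
  | cons u M ih =>
    rw [stil, List.mem_flatMap, List.flatten_cons]
    exact ⟨_, ih, append_mem_sti _ _⟩

end Shuffles

/-- a word with negated letters -/
def ng (w : List ℕ) : List ℤ := List.map (fun m : ℕ => -(m : ℤ)) w

lemma ng_inj : Function.Injective ng :=
  List.map_injective_iff.2 fun a b h => by simpa using h

/-- the order by which factors are sorted -/
def Rel (u v : List ℕ) : Prop := ng v ≤ ng u

instance : DecidableRel Rel := fun u v => inferInstanceAs (Decidable (ng v ≤ ng u))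
instance : IsTrans (List ℕ) Rel := ⟨fun _ _ _ h1 h2 => le_trans (α := List ℤ) h2 h1⟩
instance : Std.Antisymm Rel := ⟨fun _ _ h1 h2 => ng_inj (le_antisymm h2 h1)⟩
instance : Std.Total Rel := ⟨fun u v => le_total (ng v) (ng u)⟩

/-- the words of a monomial -/
noncomputable def wd {k : ℕ} (s : Fin k → List ℕ) (a : Fin k →₀ ℕ) : List (List ℕ) :=
  ((Finsupp.toMultiset a).map s).sort Rel

lemma wd_coe {k : ℕ} (s : Fin k → List ℕ) (a : Fin k →₀ ℕ) :
    ((wd s a : List (List ℕ)) : Multiset (List ℕ)) = (Finsupp.toMultiset a).map s :=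
  Multiset.sort_eq _ _

lemma wd_sorted {k : ℕ} (s : Fin k → List ℕ) (a : Fin k →₀ ℕ) :
    ((wd s a).map ng).Pairwise (· ≥ ·) := by
  rw [List.pairwise_map]
  have h1 := Multiset.pairwise_sort ((Finsupp.toMultiset a).map s) Rel
  exact h1

lemma wd_length {k : ℕ} (s : Fin k → List ℕ) (a : Fin k →₀ ℕ) :
    (wd s a).length = a.sum fun _ e => e := by
  unfold wd
  rw [Multiset.length_sort, Multiset.card_map, Finsupp.card_toMultiset]
  rfl

lemma wd_inj {k : ℕ} {s : Fin k → List ℕ} (hs : Function.Injective s) :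
    Function.Injective (wd s) := by
  intro a b h
  have h1 : ((wd s a : List (List ℕ)) : Multiset (List ℕ)) = wd s b := by rw [h]
  rw [wd_coe, wd_coe] at h1
  classical
  have h2 := congrArg Multiset.toFinsupp (Multiset.map_injective hs h1)
  rwa [Finsupp.toMultiset_toFinsupp, Finsupp.toMultiset_toFinsupp] at h2

lemma wd_mem {k : ℕ} {s : Fin k → List ℕ} {a : Fin k →₀ ℕ} {x : List ℕ} (h : x ∈ wd s a) :
    ∃ i, s i = x := by
  have h1 : x ∈ ((wd s a : List (List ℕ)) : Multiset (List ℕ)) := h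
  rw [wd_coe, Multiset.mem_map] at h1
  obtain ⟨i, _, hi⟩ := h1
  exact ⟨i, hi⟩

lemma wd_prod {k : ℕ} (s : Fin k → List ℕ) (a : Fin k →₀ ℕ) (f : List ℕ → ℝ) :
    ((wd s a).map f).prod = a.prod fun i e => f (s i) ^ e := by
  have h1 : ((wd s a).map f).prod =
      (((wd s a : List (List ℕ)) : Multiset (List ℕ)).map f).prod := by
    rw [Multiset.map_coe, Multiset.prod_coe]
  rw [h1, wd_coe, Multiset.map_map, Finsupp.toMultiset_map, Finsupp.prod_toMultiset,
    Finsupp.prod_mapDomain_index (fun _ => pow_zero _) (fun _ _ _ => pow_add _ _ _)]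
  rfl

lemma ng_flatten (M : List (List ℕ)) : ng M.flatten = (M.map ng).flatten := by
  unfold ng
  rw [List.map_flatten]

/-- the leading word determines the monomial -/
lemma lead {M M' : List (List ℕ)} (hM : (M.map ng).Pairwise (· ≥ ·))
    (hM' : (M'.map ng).Pairwise (· ≥ ·)) (hL : ∀ u ∈ M, IsLyn (ng u)) (hL' : ∀ u ∈ M', IsLyn (ng u))
    (htot : tot (M' : Multiset (List ℕ)) ≤ tot (M : Multiset (List ℕ)))
    (hle : tot (M' : Multiset (List ℕ)) = tot (M : Multiset (List ℕ)) →
      ng M'.flatten ≤ ng M.flatten) (hmem : M.flatten ∈ stil M') : M' = M := by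
  have h0 : M.flatten.length = tot (M : Multiset (List ℕ)) := by
    rw [List.length_flatten]
    unfold tot
    rw [Multiset.map_coe, Multiset.sum_coe]
  obtain ⟨h1, h2⟩ := stil_sh M' _ hmem
  rw [h0] at h1 h2
  have h3 : tot (M' : Multiset (List ℕ)) = tot (M : Multiset (List ℕ)) := le_antisymm htot h1
  have h4 := Sh.map (fun m : ℕ => -(m : ℤ)) (h2 h3.symm)
  rw [Multiset.map_coe] at h4
  have h5 : ng M.flatten ≤ (M'.map ng).flatten := max_shuffle (M'.map ng) hM' (by
    intro l hl
    obtain ⟨u, hu, rfl⟩ := List.mem_map.1 hl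
    exact hL' u hu) _ h4
  rw [← ng_flatten] at h5
  have h6 := le_antisymm (hle h3) h5
  rw [ng_flatten, ng_flatten] at h6
  have h7 := unique_fac _ _ hM' hM (by
    intro l hl
    obtain ⟨u, hu, rfl⟩ := List.mem_map.1 hl
    exact hL' u hu) (by
    intro l hl
    obtain ⟨u, hu, rfl⟩ := List.mem_map.1 hl
    exact hL u hu) h6
  exact List.map_injective_iff.2 ng_inj h7

/-- the windows -/
def Wn (p : ℕ) (κ : ℝ) (N : ℕ) (w : List ℕ) : Prop := IsLyn (ng w) ∧ Cl N (κ * N) p w

/-- **integer polynomials in multiple zeta values at Lyndon words** -/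
theorem lynLower (p k D : ℕ) (κ C : ℝ) : ∃ B : ℝ, 1 < B ∧ ∃ N0 : ℕ, ∀ N : ℕ, N0 ≤ N →
    ∀ s : Fin k → List ℕ, Function.Injective s → (∀ i, Wn p κ N (s i)) →
    ∀ P : MvPolynomial (Fin k) ℤ, P ≠ 0 → P.totalDegree ≤ D →
    (∀ a, |((P.coeff a : ℤ) : ℝ)| ≤ C ^ N) →
    (B ^ N)⁻¹ < |MvPolynomial.aeval (fun i => mz (s i)) P| := by
  classical
  obtain ⟨B, hB, n0, hmain⟩ := mainM (l := 1) (fun _ => (1 : ℝ)) (fun _ => isAlgebraic_one)
    (by
      rw [linearIndependent_unique_iff]
      exact one_ne_zero) ((D + 1) ^ k) p D κ C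
  refine ⟨B, hB, n0 + 1, fun N hN s hs hbox P hP hdeg hcoef => ?_⟩
  set T : Finset (List (List ℕ)) := P.support.image (wd s) with hT
  have hsum : ∀ a ∈ P.support, (a.sum fun _ e => e) ≤ D := fun a ha =>
    (Finset.le_sup (f := fun s : Fin k →₀ ℕ => s.sum fun _ e => e) ha).trans hdeg
  have hcard : T.card ≤ (D + 1) ^ k := by
    refine Finset.card_image_le.trans ?_
    have h1 : P.support ⊆ (Fintype.piFinset fun _ : Fin k => Finset.range (D + 1)).image
        Finsupp.equivFunOnFinite.symm := by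
      intro a ha
      rw [Finset.mem_image]
      refine ⟨a, Fintype.mem_piFinset.2 fun i => ?_, ?_⟩
      · rw [Finset.mem_range, Nat.lt_succ_iff]
        refine le_trans ?_ (hsum a ha)
        by_cases hi : a i = 0
        · rw [hi]
          exact Nat.zero_le _
        · exact Finset.single_le_sum (f := fun i => a i) (fun _ _ => Nat.zero_le _)
            (Finsupp.mem_support_iff.2 hi)
      · ext i
        rfl
    refine (Finset.card_le_card h1).trans (Finset.card_image_le.trans ?_)
    rw [Fintype.card_piFinset]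
    simp
  have hcl : ∀ M ∈ T, M.length ≤ D ∧ ∀ u ∈ M, Cl N (κ * N) p u := by
    intro M hM
    rw [hT, Finset.mem_image] at hM
    obtain ⟨a, ha, rfl⟩ := hM
    refine ⟨?_, fun u hu => ?_⟩
    · rw [wd_length]
      exact hsum a ha
    · obtain ⟨i, rfl⟩ := wd_mem hu
      exact (hbox i).2
  have hlyn : ∀ a : Fin k →₀ ℕ, ∀ u ∈ wd s a, IsLyn (ng u) := by
    intro a u hu
    obtain ⟨i, rfl⟩ := wd_mem hu
    exact (hbox i).1
  set inv : List (List ℕ) → (Fin k →₀ ℕ) := Function.invFun (wd s) with hinv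
  have hinv1 : ∀ a, inv (wd s a) = a := fun a => Function.leftInverse_invFun (wd_inj hs) a
  set c : List (List ℕ) → Fin 1 → ℤ := fun M _ => P.coeff (inv M) with hc
  have hval : ∑ M ∈ T, (∑ j : Fin 1, (1 : ℝ) * c M j) * (M.map mz).prod =
      MvPolynomial.aeval (fun i => mz (s i)) P := by
    rw [hT, Finset.sum_image fun a _ b _ h => wd_inj hs h, MvPolynomial.aeval_def,
      MvPolynomial.eval₂_eq']
    refine Finset.sum_congr rfl fun a _ => ?_
    rw [hc]
    simp only [Finset.univ_unique, Finset.sum_const, Finset.card_singleton, one_smul, one_mul,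
      hinv1]
    congr 1
    rw [wd_prod, Finsupp.prod_fintype _ _ fun _ => pow_zero _]
  have h := hmain N (by omega) T hcard hcl c (fun M hM j => hcoef _)
  rw [hval] at h
  rcases h with ⟨h, -⟩ | h
  · exfalso
    obtain ⟨a0, ha0, hmax⟩ := Finset.exists_max_image P.support
      (fun a : Fin k →₀ ℕ => (toLex (tot (wd s a : Multiset (List ℕ)), ng (wd s a).flatten) :
        ℕ ×ₗ List ℤ)) (MvPolynomial.support_nonempty.2 hP)
    have h1 := h (wd s a0).flatten 0
    unfold co at h1
    rw [hT, Finset.sum_image fun a _ b _ h => wd_inj hs h,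
      Finset.sum_eq_single_of_mem a0 ha0 (fun a ha hne => ?_)] at h1
    · rw [hc] at h1
      simp only [hinv1] at h1
      rcases mul_eq_zero.1 h1 with h2 | h2
      · exact MvPolynomial.mem_support_iff.1 ha0 h2
      · have h3 : (stil (wd s a0)).countP (· = (wd s a0).flatten) = 0 := by exact_mod_cast h2
        rw [List.countP_eq_zero] at h3
        have h4 := h3 _ (flatten_mem_stil (wd s a0))
        simp at h4
    · have h3 : (stil (wd s a)).countP (· = (wd s a0).flatten) = 0 := by
        rw [List.countP_eq_zero]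
        intro w hw
        rw [decide_eq_true_eq]
        rintro rfl
        have h4 := hmax a ha
        rw [Prod.Lex.toLex_le_toLex] at h4
        apply hne
        apply wd_inj hs
        refine lead (wd_sorted s a0) (wd_sorted s a) (hlyn a0) (hlyn a) ?_ ?_ hw
        · rcases h4 with h4 | h4
          · exact h4.le
          · exact h4.1.le
        · intro h5
          rcases h4 with h4 | h4
          · exact absurd h5 h4.ne
          · exact h4.2
      rw [h3]
      simp
  · exact h

lemma mz_le {N : ℕ} {K : ℝ} {p : ℕ} {w : List ℕ} (h : Cl N K p w) (hN : p + 2 ≤ N) :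
    |mz w| ≤ 1 + |ze 2| := by
  rcases w with _ | ⟨a, l⟩
  · rw [mz, abs_one]
    have := abs_nonneg (ze 2)
    linarith
  · have ha : N ≤ a := h.2.2 a (by simp)
    have hl : l.length + 1 ≤ p := by
      have := h.1
      rwa [List.length_cons] at this
    have h1 := tail_bd (f := fun m => hr l m / (m : ℝ) ^ a) (k := 1) (C := 1)
        (A := l.length) (σ := a) zero_le_one (by omega) (fun m hm => by
        have h2 := hr_le l m hm
        rw [abs_of_nonneg (div_nonneg (hr_nonneg _ _) (by positivity)), div_eq_mul_inv, one_mul]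
        exact mul_le_mul_of_nonneg_right h2 (by positivity)) le_rfl
    rw [Nat.cast_one, one_pow, one_pow, inv_one, mul_one, mul_one, one_mul] at h1
    have h2 : mz (a :: l) = tl (fun m => hr l m / (m : ℝ) ^ a) 1 := rfl
    rw [h2]
    have := le_abs_self (ze 2)
    linarith

lemma up_lyn (p : ℕ) (κ : ℝ) : Up (Wn p κ) fun w => ((mz w : ℝ) : ℂ) := by
  refine ⟨1 + |ze 2|, p + 2, fun N hN w hw => ?_⟩
  rw [Complex.norm_real, Real.norm_eq_abs]
  refine (mz_le hw.2 hN).trans (le_self_pow₀ ?_ (by omega))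
  have := abs_nonneg (ze 2)
  linarith

lemma low_lyn (p : ℕ) (κ : ℝ) : Low (Wn p κ) fun w => ((mz w : ℝ) : ℂ) := by
  intro k D C
  obtain ⟨B, hB, N0, h⟩ := lynLower p k D κ C
  refine ⟨B, hB, N0, fun N hN s hs hW P hP hdeg hc => ?_⟩
  have h1 := h N hN s hs hW P hP hdeg hc
  have h2 : MvPolynomial.aeval (fun i => ((mz (s i) : ℝ) : ℂ)) P =
      ((MvPolynomial.aeval (fun i => mz (s i)) P : ℝ) : ℂ) := by
    have h3 := MvPolynomial.aeval_algebraMap_apply (R := ℤ) ℂ (fun i => mz (s i)) P
    exact h3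
  rw [h2, Complex.norm_real, Real.norm_eq_abs]
  exact h1

/-- **multiple zeta values at Lyndon words: at most `t` exceptions over `t` complex numbers** -/
theorem lynT (p n t D : ℕ) (κ C : ℝ) : ∃ B : ℝ, 1 < B ∧ ∃ N0 : ℕ, ∀ N : ℕ, N0 ≤ N →
    ∀ x : Fin t → ℂ, ∃ H : Finset (List ℕ), H.card ≤ t ∧ ∀ s : Fin n → List ℕ,
      Function.Injective s → (∀ i, Wn p κ N (s i) ∧ s i ∉ H) →
      ∀ P : MvPolynomial (Fin t ⊕ Fin n) ℤ, P.totalDegree ≤ D →
      (∀ b, |((P.coeff b : ℤ) : ℝ)| ≤ C ^ N) → ∀ y : Fin n → ℂ, (∀ i, ‖y i‖ ≤ 1) →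
      ‖MvPolynomial.aeval (Sum.elim x y) P‖ ≤
        B ^ N * ‖MvPolynomial.aeval (Sum.elim x fun i => ((mz (s i) : ℝ) : ℂ)) P‖ := by
  obtain ⟨B, hB, N0, h⟩ := transfer (up_lyn p κ) (low_lyn p κ) n t D C
  refine ⟨B, hB, N0, fun N hN x => ?_⟩
  obtain ⟨H, hH, h1⟩ := h N hN x
  exact ⟨H, hH, fun s hs hW P hP hc y hy => h1 s hs hW P hP hc y hy⟩

end Pool.Agent.L0h64.ZV
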