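import Pool.Agent.Y760.ZF.Prod

/-!
# Integer polynomials in zeta values at distinct arguments of the same order of magnitude (helper64)
-/

set_option autoImplicit false

namespace Pool.Agent.L0h64.ZV

open Filter Topology Pool.Agent.Y760.ZG Pool.Agent.Y760.ZF

/-- the zeta value -/
noncomputable def zt (s : ℕ) : ℝ := ∑' k : ℕ, 1 / ((k : ℝ) + 1) ^ s

lemma mz_single (s : ℕ) : mz [s] = zt s := by
  rw [mz]
  unfold zt
  refine tsum_congr fun k => ?_
  rw [hr_nil]
  push_cast
  rfl

lemma sti_single (x : ℕ) (v : List ℕ) :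
    (x :: v ∈ sti [x] v) ∧ ∀ w ∈ sti [x] v, w.length ≤ v.length ∨ w.Perm (x :: v) := by
  induction v with
  | nil =>
    rw [sti]
    refine ⟨List.mem_singleton.2 rfl, fun w hw => ?_⟩
    rw [List.mem_singleton] at hw
    rw [hw]
    exact Or.inr (List.Perm.refl _)
  | cons j l ih =>
    have h0 : ∀ u : List ℕ, sti [] u = [u] := fun u => by rw [sti]
    rw [sti, h0, h0]
    refine ⟨?_, fun w hw => ?_⟩
    · simp
    · rw [List.mem_append, List.mem_append, List.mem_map, List.mem_map, List.mem_map] at hw
      rcases hw with (⟨w', hw', rfl⟩ | ⟨w', hw', rfl⟩) | ⟨w', hw', rfl⟩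
      · rw [List.mem_singleton] at hw'
        subst hw'
        exact Or.inr (List.Perm.refl _)
      · rcases ih.2 w' hw' with h | h
        · left
          simp only [List.length_cons]
          omega
        · right
          exact (h.cons j).trans (List.Perm.swap x j l)
      · rw [List.mem_singleton] at hw'
        subst hw'
        left
        simp

lemma stil_single (L : List ℕ) : (L ∈ stil (L.map fun x => [x])) ∧
    ∀ w ∈ stil (L.map fun x => [x]), w.length < L.length ∨ w.Perm L := by
  induction L with
  | nil =>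
    rw [List.map_nil, stil]
    refine ⟨List.mem_singleton.2 rfl, fun w hw => ?_⟩
    rw [List.mem_singleton] at hw
    rw [hw]
    exact Or.inr (List.Perm.refl _)
  | cons x L ih =>
    rw [List.map_cons, stil]
    refine ⟨List.mem_flatMap.2 ⟨L, ih.1, (sti_single x L).1⟩, fun w hw => ?_⟩
    obtain ⟨v, hv, hw⟩ := List.mem_flatMap.1 hw
    rcases ih.2 v hv with h | h
    · left
      have h1 := sti_length [x] v w hw
      simp only [List.length_cons, List.length_nil] at h1 ⊢
      omega
    · rcases (sti_single x v).2 w hw with h1 | h1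
      · left
        have h2 := h.length_eq
        simp only [List.length_cons]
        omega
      · right
        exact h1.trans (h.cons x)

/-- the arguments of a monomial -/
noncomputable def args {k : ℕ} (s : Fin k → ℕ) (a : Fin k →₀ ℕ) : List ℕ :=
  ((Finsupp.toMultiset a).map s).sort (· ≤ ·)

lemma args_coe {k : ℕ} (s : Fin k → ℕ) (a : Fin k →₀ ℕ) :
    ((args s a : List ℕ) : Multiset ℕ) = (Finsupp.toMultiset a).map s :=
  Multiset.sort_eq _ _

lemma args_length {k : ℕ} (s : Fin k → ℕ) (a : Fin k →₀ ℕ) :
    (args s a).length = a.sum fun _ e => e := by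
  unfold args
  rw [Multiset.length_sort, Multiset.card_map, Finsupp.card_toMultiset]
  rfl

lemma args_perm {k : ℕ} {s : Fin k → ℕ} (hs : Function.Injective s) {a b : Fin k →₀ ℕ}
    (h : (args s a).Perm (args s b)) : a = b := by
  have h1 := Multiset.coe_eq_coe.2 h
  rw [args_coe, args_coe] at h1
  classical
  have h2 := congrArg Multiset.toFinsupp (Multiset.map_injective hs h1)
  rwa [Finsupp.toMultiset_toFinsupp, Finsupp.toMultiset_toFinsupp] at h2

lemma args_mem {k : ℕ} {s : Fin k → ℕ} {a : Fin k →₀ ℕ} {x : ℕ} (h : x ∈ args s a) :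
    ∃ i, s i = x := by
  have h1 : x ∈ ((args s a : List ℕ) : Multiset ℕ) := h
  rw [args_coe, Multiset.mem_map] at h1
  obtain ⟨i, _, hi⟩ := h1
  exact ⟨i, hi⟩

lemma args_prod {k : ℕ} (s : Fin k → ℕ) (a : Fin k →₀ ℕ) (f : ℕ → ℝ) :
    ((args s a).map f).prod = a.prod fun i e => f (s i) ^ e := by
  have h1 : ((args s a).map f).prod = (((args s a : List ℕ) : Multiset ℕ).map f).prod := by
    rw [Multiset.map_coe, Multiset.prod_coe]
  rw [h1, args_coe, Multiset.map_map, Finsupp.toMultiset_map, Finsupp.prod_toMultiset,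
    Finsupp.prod_mapDomain_index (fun _ => pow_zero _) (fun _ _ _ => pow_add _ _ _)]
  rfl

/-- the list of words of a monomial -/
noncomputable def wrds {k : ℕ} (s : Fin k → ℕ) (a : Fin k →₀ ℕ) : List (List ℕ) :=
  (args s a).map fun x => [x]

lemma wrds_inj {k : ℕ} {s : Fin k → ℕ} (hs : Function.Injective s) :
    Function.Injective (wrds s) := by
  intro a b h
  have h1 : args s a = args s b :=
    List.map_injective_iff.2 (fun x y h => by simpa using h) h
  exact args_perm hs (h1 ▸ List.Perm.refl _)

/-- **integer polynomials in zeta values** -/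
theorem polyLower (k D : ℕ) (κ C : ℝ) : ∃ B : ℝ, 1 < B ∧ ∃ N0 : ℕ, ∀ N : ℕ, N0 ≤ N →
    ∀ s : Fin k → ℕ, Function.Injective s → (∀ i, N ≤ s i ∧ (s i : ℝ) ≤ κ * N) →
    ∀ P : MvPolynomial (Fin k) ℤ, P ≠ 0 → P.totalDegree ≤ D →
    (∀ a, |((P.coeff a : ℤ) : ℝ)| ≤ C ^ N) →
    (B ^ N)⁻¹ < |MvPolynomial.aeval (fun i => zt (s i)) P| := by
  classical
  obtain ⟨B, hB, n0, hmain⟩ := mainM (l := 1) (fun _ => (1 : ℝ)) (fun _ => isAlgebraic_one)
    (by
      rw [linearIndependent_unique_iff]
      exact one_ne_zero) ((D + 1) ^ k) 1 D κ C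
  refine ⟨B, hB, n0 + 1, fun N hN s hs hbox P hP hdeg hcoef => ?_⟩
  set T : Finset (List (List ℕ)) := P.support.image (wrds s) with hT
  have hsum : ∀ a ∈ P.support, (a.sum fun _ e => e) ≤ D := fun a ha =>
    (Finset.le_sup (f := fun s : Fin k →₀ ℕ => s.sum fun _ e => e) ha).trans hdeg
  have hcard : T.card ≤ (D + 1) ^ k := by
    refine Finset.card_image_le.trans ?_
    have h1 : P.support ⊆ (Fintype.piFinset fun _ : Fin k => Finset.range (D + 1)).image
        Finsupp.equivFunOnFinite.symm := by
      intro a ha
      rw [Finset.mem_image]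
      refine ⟨a, Fintype.mem_piFinset.2 fun i => ?_, ?_⟩
      · rw [Finset.mem_range, Nat.lt_succ_iff]
        refine le_trans ?_ (hsum a ha)
        by_cases hi : a i = 0
        · rw [hi]
          exact Nat.zero_le _
        · exact Finset.single_le_sum (f := fun i => a i) (fun _ _ => Nat.zero_le _)
            (Finsupp.mem_support_iff.2 hi)
      · ext i
        rfl
    refine (Finset.card_le_card h1).trans (Finset.card_image_le.trans ?_)
    rw [Fintype.card_piFinset]
    simp
  have hcl : ∀ M ∈ T, M.length ≤ D ∧ ∀ u ∈ M, Cl N (κ * N) 1 u := by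
    intro M hM
    rw [hT, Finset.mem_image] at hM
    obtain ⟨a, ha, rfl⟩ := hM
    refine ⟨?_, fun u hu => ?_⟩
    · unfold wrds
      rw [List.length_map, args_length]
      exact hsum a ha
    · unfold wrds at hu
      rw [List.mem_map] at hu
      obtain ⟨x, hx, rfl⟩ := hu
      obtain ⟨i, rfl⟩ := args_mem hx
      obtain ⟨h1, h2⟩ := hbox i
      refine ⟨by simp, fun m hm => ?_, fun m hm => ?_⟩
      · rw [List.mem_singleton] at hm
        rw [hm]
        exact ⟨by omega, h2⟩
      · simp only [List.head?_cons, Option.mem_def, Option.some.injEq] at hm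
        rw [← hm]
        exact h1
  set inv : List (List ℕ) → (Fin k →₀ ℕ) := Function.invFun (wrds s) with hinv
  have hinv1 : ∀ a, inv (wrds s a) = a := fun a => Function.leftInverse_invFun (wrds_inj hs) a
  set c : List (List ℕ) → Fin 1 → ℤ := fun M _ => P.coeff (inv M) with hc
  have hval : ∑ M ∈ T, (∑ j : Fin 1, (1 : ℝ) * c M j) * (M.map mz).prod =
      MvPolynomial.aeval (fun i => zt (s i)) P := by
    rw [hT, Finset.sum_image fun a _ b _ h => wrds_inj hs h, MvPolynomial.aeval_def,
      MvPolynomial.eval₂_eq']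
    refine Finset.sum_congr rfl fun a _ => ?_
    rw [hc]
    simp only [Finset.univ_unique, Finset.sum_const, Finset.card_singleton, one_smul, one_mul,
      hinv1]
    congr 1
    unfold wrds
    rw [List.map_map]
    have h1 : (mz ∘ fun x => [x]) = zt := by
      funext x
      exact mz_single x
    rw [h1, args_prod, Finsupp.prod_fintype _ _ fun _ => pow_zero _]
  have h := hmain N (by omega) T hcard hcl c (fun M hM j => hcoef _)
  rw [hval] at h
  rcases h with ⟨h, -⟩ | h
  · exfalso
    obtain ⟨a0, ha0, hmax⟩ := Finset.exists_max_image P.support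
      (fun a : Fin k →₀ ℕ => a.sum fun _ e => e) (MvPolynomial.support_nonempty.2 hP)
    have h1 := h (args s a0) 0
    unfold co at h1
    rw [hT, Finset.sum_image fun a _ b _ h => wrds_inj hs h,
      Finset.sum_eq_single_of_mem a0 ha0 (fun a ha hne => ?_)] at h1
    · rw [hc] at h1
      simp only [hinv1] at h1
      rcases mul_eq_zero.1 h1 with h2 | h2
      · exact MvPolynomial.mem_support_iff.1 ha0 h2
      · have h3 : (stil (wrds s a0)).countP (· = args s a0) = 0 := by exact_mod_cast h2
        rw [List.countP_eq_zero] at h3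
        have h4 := h3 _ (stil_single (args s a0)).1
        simp at h4
    · have h3 : (stil (wrds s a)).countP (· = args s a0) = 0 := by
        rw [List.countP_eq_zero]
        intro w hw
        rw [decide_eq_true_eq]
        rintro rfl
        rcases (stil_single (args s a)).2 _ hw with h4 | h4
        · rw [args_length, args_length] at h4
          have := hmax a ha
          omega
        · exact hne (args_perm hs h4).symm
      rw [h3]
      simp
  · exact h

end Pool.Agent.L0h64.ZV
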