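import Pool.Agent.L0h64.ZV.Ell

/-!
# Substitution of polynomials with a common denominator (helper64)
-/

set_option autoImplicit false

namespace Pool.Agent.L0h64.ZV

open MvPolynomial

variable {σ : Type*} {t n : ℕ}

/-- the degree in the last variables -/
def dY (b : Fin t ⊕ Fin n →₀ ℕ) : ℕ := ∑ j : Fin n, b (Sum.inr j)

/-- the substituted polynomial -/
noncomputable def sbt (D c : ℕ) (Q : Fin n → MvPolynomial σ ℤ) (P : MvPolynomial (Fin t ⊕ Fin n) ℤ) :
    MvPolynomial (Fin t ⊕ σ) ℤ :=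
  ∑ b ∈ P.support, C (P.coeff b * (c : ℤ) ^ (D - dY b)) *
    (∏ i : Fin t, X (Sum.inl i) ^ b (Sum.inl i)) * ∏ j : Fin n, rename Sum.inr (Q j) ^ b (Sum.inr j)

lemma sum_b (b : Fin t ⊕ Fin n →₀ ℕ) :
    (b.sum fun _ e => e) = (∑ i : Fin t, b (Sum.inl i)) + dY b := by
  rw [Finsupp.sum_fintype _ _ fun _ => rfl, Fintype.sum_sum_type]
  rfl

lemma sbt_eval {D c : ℕ} {Q : Fin n → MvPolynomial σ ℤ} {P : MvPolynomial (Fin t ⊕ Fin n) ℤ}
    (hP : P.totalDegree ≤ D) {A : Type*} [CommRing A] (x : Fin t → A) (ψ : σ → A) (Φ : Fin n → A)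
    (h : ∀ j, (c : A) * Φ j = aeval ψ (Q j)) :
    aeval (Sum.elim x ψ) (sbt D c Q P) = (c : A) ^ D * aeval (Sum.elim x Φ) P := by
  unfold sbt
  rw [map_sum, aeval_def (p := P), eval₂_eq', Finset.mul_sum]
  refine Finset.sum_congr rfl fun b hb => ?_
  have hD : dY b ≤ D := by
    have h1 : (b.sum fun _ e => e) ≤ D :=
      (Finset.le_sup (f := fun s : (Fin t ⊕ Fin n) →₀ ℕ => s.sum fun _ e => e) hb).trans hP
    have h2 := sum_b b
    omega
  rw [map_mul, map_mul, aeval_C, map_prod, map_prod, Fintype.prod_sum_type]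
  have h3 : ∏ j : Fin n, aeval (Sum.elim x ψ) (rename Sum.inr (Q j) ^ b (Sum.inr j)) =
      (c : A) ^ dY b * ∏ j : Fin n, Φ j ^ b (Sum.inr j) := by
    unfold dY
    rw [← Finset.prod_pow_eq_pow_sum, ← Finset.prod_mul_distrib]
    refine Finset.prod_congr rfl fun j _ => ?_
    rw [map_pow, aeval_rename, Sum.elim_comp_inr, ← h j, mul_pow]
  have h4 : ∏ i : Fin t, aeval (Sum.elim x ψ) (X (R := ℤ) (Sum.inl i) ^ b (Sum.inl i)) =
      ∏ i : Fin t, x i ^ b (Sum.inl i) := by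
    refine Finset.prod_congr rfl fun i _ => ?_
    rw [map_pow, aeval_X, Sum.elim_inl]
  rw [h3, h4]
  simp only [Sum.elim_inl, Sum.elim_inr, algebraMap_int_eq, eq_intCast, Int.cast_mul, Int.cast_pow,
    Int.cast_natCast]
  have h5 : (c : A) ^ D = (c : A) ^ (D - dY b) * (c : A) ^ dY b := by
    rw [← pow_add]
    congr 1
    omega
  rw [h5]
  ring

lemma deg_prod_le {ι : Type*} (s : Finset ι) (f : ι → MvPolynomial σ ℤ) :
    (∏ i ∈ s, f i).totalDegree ≤ ∑ i ∈ s, (f i).totalDegree := totalDegree_finsetProd s f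

lemma sbt_deg {D c p : ℕ} {Q : Fin n → MvPolynomial σ ℤ} {P : MvPolynomial (Fin t ⊕ Fin n) ℤ}
    (hP : P.totalDegree ≤ D) (hQ : ∀ j, (Q j).totalDegree ≤ p) :
    (sbt D c Q P).totalDegree ≤ (p + 1) * D := by
  unfold sbt
  refine totalDegree_finsetSum_le fun b hb => ?_
  have h1 : (b.sum fun _ e => e) ≤ D :=
    (Finset.le_sup (f := fun s : (Fin t ⊕ Fin n) →₀ ℕ => s.sum fun _ e => e) hb).trans hP
  have h2 := sum_b b
  have h3 : (∏ i : Fin t, X (R := ℤ) (σ := Fin t ⊕ σ) (Sum.inl i) ^ b (Sum.inl i)).totalDegree ≤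
      ∑ i : Fin t, b (Sum.inl i) := by
    refine (deg_prod_le _ _).trans (Finset.sum_le_sum fun i _ => ?_)
    refine (totalDegree_pow _ _).trans ?_
    rw [totalDegree_X, mul_one]
  have h4 : (∏ j : Fin n, rename (Sum.inr : σ → Fin t ⊕ σ) (Q j) ^ b (Sum.inr j)).totalDegree ≤
      p * dY b := by
    refine (deg_prod_le _ _).trans ?_
    unfold dY
    rw [Finset.mul_sum]
    refine Finset.sum_le_sum fun j _ => ?_
    refine (totalDegree_pow _ _).trans ?_
    rw [mul_comm p]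
    exact Nat.mul_le_mul_left _ ((totalDegree_rename_le _ _).trans (hQ j))
  refine (totalDegree_mul _ _).trans ((Nat.add_le_add ((totalDegree_mul _ _).trans
    (Nat.add_le_add (totalDegree_C _).le h3)) h4).trans ?_)
  have h5 : (p + 1) * D = p * D + D := by ring
  have h6 : p * dY b ≤ p * D := Nat.mul_le_mul_left _ (by omega)
  omega

lemma sbt_l1 {D c K : ℕ} {Q : Fin n → MvPolynomial σ ℤ} {P : MvPolynomial (Fin t ⊕ Fin n) ℤ}
    (hc : 1 ≤ c) (hP : P.totalDegree ≤ D) (hQ : ∀ j, l1 (Q j) ≤ K) :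
    l1 (sbt D c Q P) ≤ l1 P * (c ^ D * (K + 1) ^ D) := by
  unfold sbt
  refine (l1_sum _ _).trans ?_
  conv_rhs => rw [l1, Finset.sum_mul]
  refine Finset.sum_le_sum fun b hb => ?_
  have h1 : (b.sum fun _ e => e) ≤ D :=
    (Finset.le_sup (f := fun s : (Fin t ⊕ Fin n) →₀ ℕ => s.sum fun _ e => e) hb).trans hP
  have h2 := sum_b b
  have h3 : l1 (∏ i : Fin t, X (R := ℤ) (σ := Fin t ⊕ σ) (Sum.inl i) ^ b (Sum.inl i)) ≤ 1 := by
    refine (l1_prod _ _).trans ?_
    refine (Finset.prod_le_prod' (g := fun _ => 1) fun i _ => ?_).trans (by simp)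
    refine (l1_pow _ _).trans ((Nat.pow_le_pow_left (l1_X _) _).trans ?_)
    rw [one_pow]
  have h4 : l1 (∏ j : Fin n, rename (Sum.inr : σ → Fin t ⊕ σ) (Q j) ^ b (Sum.inr j)) ≤
      (K + 1) ^ D := by
    refine (l1_prod _ _).trans ?_
    have h5 : ∏ j : Fin n, l1 (rename (Sum.inr : σ → Fin t ⊕ σ) (Q j) ^ b (Sum.inr j)) ≤
        ∏ j : Fin n, (K + 1) ^ b (Sum.inr j) := by
      refine Finset.prod_le_prod' fun j _ => ?_
      refine (l1_pow _ _).trans (Nat.pow_le_pow_left ?_ _)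
      exact (l1_rename _ _).trans ((hQ j).trans (Nat.le_succ _))
    refine h5.trans ?_
    rw [Finset.prod_pow_eq_pow_sum]
    refine Nat.pow_le_pow_right (by omega) ?_
    unfold dY at h2
    omega
  refine (l1_mul _ _).trans ?_
  have h6 : l1 (C (P.coeff b * (c : ℤ) ^ (D - dY b)) *
      ∏ i : Fin t, X (R := ℤ) (σ := Fin t ⊕ σ) (Sum.inl i) ^ b (Sum.inl i)) ≤
      (P.coeff b).natAbs * c ^ D := by
    refine (l1_mul _ _).trans ?_
    calc _ ≤ ((P.coeff b).natAbs * c ^ D) * 1 := Nat.mul_le_mul ((l1_C _).trans ?_) h3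
      _ = _ := mul_one _
    rw [Int.natAbs_mul, Int.natAbs_pow, Int.natAbs_natCast]
    exact Nat.mul_le_mul_left _ (Nat.pow_le_pow_right hc (by omega))
  rw [← mul_assoc]
  exact Nat.mul_le_mul h6 h4

/-- the number of monomials -/
lemma card_supp {m : Type*} [Fintype m] [DecidableEq m] {D : ℕ} (P : MvPolynomial m ℤ)
    (hP : P.totalDegree ≤ D) : P.support.card ≤ (D + 1) ^ Fintype.card m := by
  have hsum : ∀ a ∈ P.support, (a.sum fun _ e => e) ≤ D := fun a ha =>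
    (Finset.le_sup (f := fun s : m →₀ ℕ => s.sum fun _ e => e) ha).trans hP
  have h1 : P.support ⊆ (Fintype.piFinset fun _ : m => Finset.range (D + 1)).image
      Finsupp.equivFunOnFinite.symm := by
    intro a ha
    rw [Finset.mem_image]
    refine ⟨a, Fintype.mem_piFinset.2 fun i => ?_, ?_⟩
    · rw [Finset.mem_range, Nat.lt_succ_iff]
      refine le_trans ?_ (hsum a ha)
      by_cases hi : a i = 0
      · rw [hi]
        exact Nat.zero_le _
      · exact Finset.single_le_sum (f := fun i => a i) (fun _ _ => Nat.zero_le _)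
          (Finsupp.mem_support_iff.2 hi)
    · ext i
      rfl
  refine (Finset.card_le_card h1).trans (Finset.card_image_le.trans ?_)
  rw [Fintype.card_piFinset]
  simp

lemma l1_le {m : Type*} [Fintype m] [DecidableEq m] {D : ℕ} (P : MvPolynomial m ℤ)
    (hP : P.totalDegree ≤ D) {R : ℝ} (hR : 0 ≤ R) (hc : ∀ b, |((P.coeff b : ℤ) : ℝ)| ≤ R) :
    (l1 P : ℝ) ≤ (D + 1 : ℕ) ^ Fintype.card m * R := by
  unfold l1
  push_cast
  calc ∑ b ∈ P.support, (((P.coeff b).natAbs : ℕ) : ℝ) ≤ ∑ _b ∈ P.support, R := by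
        refine Finset.sum_le_sum fun b _ => ?_
        rw [Nat.cast_natAbs, Int.cast_abs]
        exact hc b
    _ = P.support.card * R := by rw [Finset.sum_const, nsmul_eq_mul]
    _ ≤ _ := by
        refine mul_le_mul_of_nonneg_right ?_ hR
        exact_mod_cast card_supp P hP

end Pool.Agent.L0h64.ZV
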