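import Pool.Agent.L0h64.ZV.Gnn
import Pool.Agent.L0h64.ZV.Sbt

/-!
# All multiple zeta values of a window over arbitrary complex numbers (helper64)
-/

set_option autoImplicit false

namespace Pool.Agent.L0h64.ZV

open Pool.Agent.Y760.ZG Pool.Agent.Y760.ZF Pool.Agent.L0h64.ZV.Lyn MvPolynomial

lemma lyn_single (a : ℕ) : IsLyn (ng [a]) := by
  refine ⟨by simp [ng], fun u v h hu hv => ?_⟩
  have h1 := congrArg List.length h
  rw [List.length_append] at h1
  have h2 := List.length_pos_iff.2 hu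
  have h3 := List.length_pos_iff.2 hv
  simp [ng] at h1
  omega

/-- multiple zeta values are a stuffle homomorphism -/
lemma mz_StH {N p : ℕ} (hN : p + 1 ≤ N) : StH N p fun w => ((mz w : ℝ) : ℂ) := by
  have hcv : ∀ w : List ℕ, Hd N w → w.length ≤ p → Cv w := fun w h1 h2 k hk => by
    have := h1.1 k hk
    omega
  refine ⟨by simp [mz], fun u v hu hv hlen => ?_⟩
  have h1 := mz_mul (hcv u hu (by omega)) (hcv v hv (by omega)) fun w hw =>
    hcv w (sti_Hd u v hu hv w hw) ((sti_length u v w hw).trans hlen)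
  rw [← Complex.ofReal_mul, h1]
  generalize sti u v = L
  induction L with
  | nil => simp
  | cons a L ih =>
    rw [List.map_cons, List.sum_cons, Complex.ofReal_add, ih, List.map_cons, List.sum_cons]

/-- a polynomial which vanishes on the unit polydisc vanishes -/
lemma aeval_zero {t m : ℕ} (x : Fin t → ℂ) (P : MvPolynomial (Fin t ⊕ Fin m) ℤ)
    (h : ∀ y : Fin m → ℂ, (∀ i, ‖y i‖ ≤ 1) → aeval (Sum.elim x y) P = 0)
    {A : Type} [CommRing A] [Algebra ℂ A] (y : Fin m → A) :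
    aeval (Sum.elim (fun i => algebraMap ℂ A (x i)) y) P = 0 := by
  obtain ⟨Q, hQ⟩ : ∃ Q : MvPolynomial (Fin m) ℂ, Q =
      aeval (Sum.elim (fun i => C (x i)) X : Fin t ⊕ Fin m → MvPolynomial (Fin m) ℂ) P := ⟨_, rfl⟩
  have h1 : ∀ (B : Type) [CommRing B] [Algebra ℂ B] (y : Fin m → B),
      aeval y Q = aeval (Sum.elim (fun i => algebraMap ℂ B (x i)) y) P := by
    intro B _ _ y
    rw [hQ]
    have h2 := MvPolynomial.aeval_algebraMap_apply (R := ℤ) ℂ (fun i => x i)
      (0 : MvPolynomial (Fin t) ℤ)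
    clear h2
    have h3 : ((aeval y : MvPolynomial (Fin m) ℂ →ₐ[ℂ] B).restrictScalars ℤ).comp
        (aeval (Sum.elim (fun i => C (x i)) X : Fin t ⊕ Fin m → MvPolynomial (Fin m) ℂ)) =
        (aeval (Sum.elim (fun i => algebraMap ℂ B (x i)) y) :
          MvPolynomial (Fin t ⊕ Fin m) ℤ →ₐ[ℤ] B) := by
      refine MvPolynomial.algHom_ext fun i => ?_
      rcases i with i | i
      · simp
      · simp
    exact congrArg (fun f => f P) h3
  have h2 : Q = 0 := by
    refine MvPolynomial.funext_set (fun _ => Metric.closedBall (0 : ℂ) 1) (fun _ => ?_)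
      fun y hy => ?_
    · have h3 : (Metric.closedBall (0 : ℂ) 1) ∈ nhds (0 : ℂ) :=
        Metric.closedBall_mem_nhds 0 one_pos
      exact infinite_of_mem_nhds 0 h3
    · rw [map_zero, ← MvPolynomial.coe_aeval_eq_eval]
      have h3 := h1 ℂ y
      rw [RingHom.coe_coe, h3]
      exact h y fun i => by
        have := hy i (Set.mem_univ i)
        rwa [mem_closedBall_zero_iff] at this
  rw [← h1 A y, h2, map_zero]

/-- the Lyndon words of the window -/
lemma Good.win {N p : ℕ} {κ : ℝ} {w l : List ℕ} (hw : Cl N (κ * N) p w) (h : Good N p w l) :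
    Wn (p + 1) (p * |κ| + 2) N l := by
  obtain ⟨h1, h2, h3, h4⟩ := h
  refine ⟨h1, by omega, fun m hm => ?_, h4.1⟩
  obtain ⟨r, hr, hr0, rfl⟩ := h3 m hm
  have hN0 : (0 : ℝ) ≤ N := Nat.cast_nonneg _
  constructor
  · obtain ⟨a, ha⟩ := Multiset.exists_mem_of_ne_zero hr0
    obtain ⟨r', rfl⟩ := Multiset.exists_cons_of_mem ha
    rw [Multiset.sum_cons]
    have := (hw.2.1 a (Multiset.mem_coe.1 (Multiset.mem_of_le hr ha))).1
    omega
  · have h5 : ∀ r : Multiset ℕ, (∀ a ∈ r, (a : ℝ) ≤ |κ| * N) → (r.sum : ℝ) ≤ r.card * (|κ| * N) := by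
      intro r
      induction r using Multiset.induction_on with
      | empty => simp
      | cons a r ih =>
        intro h6
        rw [Multiset.sum_cons, Multiset.card_cons, Nat.cast_add, Nat.cast_add, Nat.cast_one]
        have h7 := ih fun b hb => h6 b (Multiset.mem_cons_of_mem hb)
        have h8 := h6 a (Multiset.mem_cons_self a r)
        linarith
    have h6 := h5 r fun a ha => by
      refine (hw.2.1 a (Multiset.mem_coe.1 (Multiset.mem_of_le hr ha))).2.trans ?_
      exact mul_le_mul_of_nonneg_right (le_abs_self κ) hN0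
    have h7 : r.card ≤ p := by
      have := Multiset.card_le_card hr
      rw [Multiset.coe_card] at this
      exact this.trans hw.1
    have h8 : (r.card : ℝ) ≤ p := by exact_mod_cast h7
    have h9 : (r.card : ℝ) * (|κ| * N) ≤ p * (|κ| * N) :=
      mul_le_mul_of_nonneg_right h8 (by positivity)
    linarith

/-- **all words of a window** -/
theorem wordT (p n t D : ℕ) (κ C : ℝ) : ∃ B : ℝ, 1 < B ∧ ∃ N0 : ℕ, ∀ N : ℕ, N0 ≤ N →
    ∀ x : Fin t → ℂ, ∃ H : Finset ℕ, H.card ≤ t ∧ ∀ w : Fin n → List ℕ,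
      (∀ i, Cl N (κ * N) p (w i) ∧ ∀ r ≤ (w i : Multiset ℕ), r ≠ 0 → r.sum ∉ H) →
      ∀ P : MvPolynomial (Fin t ⊕ Fin n) ℤ, P.totalDegree ≤ D →
      (∀ b, |((P.coeff b : ℤ) : ℝ)| ≤ C ^ N) →
      (∀ φ : List ℕ → ℂ, StH N p φ → (∀ l, IsLyn (ng l) → ‖φ l‖ ≤ 1) →
        ‖aeval (Sum.elim x fun i => φ (w i)) P‖ ≤
          B ^ N * ‖aeval (Sum.elim x fun i => ((mz (w i) : ℝ) : ℂ)) P‖) ∧
      (aeval (Sum.elim x fun i => ((mz (w i) : ℝ) : ℂ)) P = 0 →
        ∀ (A : Type) [CommRing A] [Algebra ℂ A] (φ : List ℕ → A), StH N p φ →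
          aeval (Sum.elim (fun i => algebraMap ℂ A (x i)) fun i => φ (w i)) P = 0) := by
  classical
  obtain ⟨c, K, hc, hgen⟩ := gen p ((2 ^ p + 1) ^ p + 1)
  obtain ⟨V, hV⟩ : ∃ V : ℕ, V = (2 ^ p + 1) ^ p := ⟨_, rfl⟩
  obtain ⟨m, hm⟩ : ∃ m : ℕ, m = n * V + 1 := ⟨_, rfl⟩
  obtain ⟨E, hE⟩ : ∃ E : ℕ, E = (D + 1) ^ (t + n) * (c ^ D * (K + 1) ^ D) := ⟨_, rfl⟩
  obtain ⟨B, hB, N0, hmain⟩ := lynT (p + 1) m t ((p + 1) * D) (p * |κ| + 2) (E * |C|)
  refine ⟨B, hB, N0 + p + 2 + m + t, fun N hN x => ?_⟩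
  obtain ⟨HL, hHL, hL⟩ := hmain N (by omega) x
  refine ⟨HL.image fun l => l.headD 0, Finset.card_image_le.trans hHL,
    fun w hw P hdeg hcoef => ?_⟩
  have hmN : Nonempty (Fin m) := ⟨⟨0, by omega⟩⟩
  -- the polynomials of the words
  have h1 := fun j => hgen N (w j) (hw j).1.1 (w j) (Mrg.refl _)
    ⟨(hw j).1.2.2, fun a ha => ((hw j).1.2.1 a ha).1⟩
    (Nat.lt_succ_of_le (rk_le p (w j) (hw j).1.1))
  choose Q hQ1 hQ2 hQ3 using h1
  -- the Lyndon words
  obtain ⟨S, hS⟩ : ∃ S : Finset (List ℕ), S = (Finset.univ.biUnion fun j =>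
      Wds (Sms (w j)) p).filter fun l => Wn (p + 1) (p * |κ| + 2) N l ∧ l ∉ HL := ⟨_, rfl⟩
  have hSc : S.card ≤ m := by
    rw [hS]
    refine (Finset.card_filter_le _ _).trans (Finset.card_biUnion_le.trans ?_)
    have h2 : ∀ j : Fin n, (Wds (Sms (w j)) p).card ≤ V := by
      intro j
      refine (card_Wds _ _).trans ?_
      rw [hV]
      refine Nat.pow_le_pow_left (Nat.add_le_add_right ((card_Sms _).trans ?_) 1) _
      rw [Multiset.coe_card]
      exact Nat.pow_le_pow_right (by omega) (hw j).1.1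
    refine (Finset.sum_le_sum fun j _ => h2 j).trans ?_
    rw [Finset.sum_const, Finset.card_univ, Fintype.card_fin, smul_eq_mul]
    omega
  have hGS : ∀ j l, Good N p (w j) l → l ∈ S := by
    intro j l hl
    rw [hS, Finset.mem_filter, Finset.mem_biUnion]
    refine ⟨⟨j, Finset.mem_univ _, mem_Wds _ _ _ hl.2.1 fun a ha => ?_⟩, hl.win (hw j).1, ?_⟩
    · obtain ⟨r, hr, _, h2⟩ := hl.2.2.1 a ha
      exact mem_Sms.2 ⟨r, hr, h2⟩
    · intro h2
      rcases l with _ | ⟨a, l⟩
      · exact hl.1.1 rfl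
      · obtain ⟨r, hr, hr0, h3⟩ := hl.2.2.1 a (by simp)
        refine (hw j).2 r hr hr0 ?_
        rw [h3, Finset.mem_image]
        exact ⟨_, h2, rfl⟩
  obtain ⟨T, hT⟩ : ∃ T : Finset (List ℕ), T =
      S ∪ ((Finset.Icc N (2 * N)).image (fun a => [a])) \ HL := ⟨_, rfl⟩
  have hTc : m ≤ T.card := by
    have h2 : ((Finset.Icc N (2 * N)).image (fun a => [a])).card = N + 1 := by
      rw [Finset.card_image_of_injective _ (fun a b h => by simpa using h), Nat.card_Icc]
      omega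
    have h3 := Finset.le_card_sdiff HL ((Finset.Icc N (2 * N)).image (fun a => [a]))
    have h4 : (((Finset.Icc N (2 * N)).image (fun a => [a])) \ HL).card ≤ T.card := by
      rw [hT]
      exact Finset.card_le_card Finset.subset_union_right
    omega
  obtain ⟨S', hS1, hS2, hS3⟩ := Finset.exists_subsuperset_card_eq
    (by rw [hT]; exact Finset.subset_union_left) hSc hTc
  have hS'W : ∀ l ∈ S', Wn (p + 1) (p * |κ| + 2) N l ∧ l ∉ HL := by
    intro l hl
    have h2 := hS2 hl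
    rw [hT, Finset.mem_union] at h2
    rcases h2 with h2 | h2
    · rw [hS, Finset.mem_filter] at h2
      exact h2.2
    · rw [Finset.mem_sdiff, Finset.mem_image] at h2
      obtain ⟨⟨a, ha, rfl⟩, h3⟩ := h2
      rw [Finset.mem_Icc] at ha
      refine ⟨⟨lyn_single a, by simp, fun b hb => ?_, fun b hb => ?_⟩, h3⟩
      · rw [List.mem_singleton] at hb
        subst hb
        refine ⟨by omega, ?_⟩
        have h4 : (b : ℝ) ≤ 2 * N := by exact_mod_cast ha.2
        have h5 : (0 : ℝ) ≤ p * |κ| * N := by positivity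
        linarith
      · simp only [List.head?_cons, Option.mem_def, Option.some.injEq] at hb
        omega
  let e : S' ≃ Fin m := Fintype.equivFinOfCardEq (by rw [Fintype.card_coe, hS3])
  obtain ⟨s, hs⟩ : ∃ s : Fin m → List ℕ, s = fun i => ((e.symm i : S') : List ℕ) := ⟨_, rfl⟩
  have hsinj : Function.Injective s := by
    rw [hs]
    exact Subtype.val_injective.comp e.symm.injective
  have hsmem : ∀ i, s i ∈ S' := fun i => by
    rw [hs]
    exact (e.symm i).2
  have hssurj : ∀ l ∈ S', ∃ i, s i = l := fun l hl => ⟨e ⟨l, hl⟩, by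
    rw [hs]
    simp⟩
  obtain ⟨back, hback⟩ : ∃ back : List ℕ → Fin m, back = Function.invFun s := ⟨_, rfl⟩
  have hback1 : ∀ l ∈ S', s (back l) = l := by
    intro l hl
    rw [hback]
    exact Function.invFun_eq (hssurj l hl)
  -- the polynomial in Lyndon words
  obtain ⟨R, hR⟩ : ∃ R : MvPolynomial (Fin t ⊕ Fin m) ℤ, R =
      rename (Sum.map id back) (sbt D c Q P) := ⟨_, rfl⟩
  have hRev : ∀ (A : Type) [CommRing A] (x' : Fin t → A) (φ : List ℕ → A), StH N p φ →
      aeval (Sum.elim x' fun i => φ (s i)) R = (c : A) ^ D * aeval (Sum.elim x' fun i => φ (w i)) P := by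
    intro A _ x' φ hφ
    rw [hR, aeval_rename, Sum.elim_comp_map, Function.comp_id]
    refine sbt_eval hdeg x' _ _ fun j => hQ3 j A φ _ hφ fun l hl => ?_
    rw [Function.comp_apply, hback1 l (hS1 (hGS j l hl))]
  have hRdeg : R.totalDegree ≤ (p + 1) * D := by
    rw [hR]
    exact (totalDegree_rename_le _ _).trans (sbt_deg hdeg hQ1)
  have hE1 : (1 : ℝ) ≤ E := by
    have : 1 ≤ E := by
      rw [hE]
      exact Nat.mul_pos (Nat.pow_pos (Nat.succ_pos _)) (Nat.mul_pos (Nat.pow_pos hc)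
        (Nat.pow_pos (Nat.succ_pos _)))
    exact_mod_cast this
  have hRcoef : ∀ b, |((R.coeff b : ℤ) : ℝ)| ≤ (E * |C|) ^ N := by
    intro b
    have h2 : ((R.coeff b).natAbs : ℝ) ≤ l1 P * (c ^ D * (K + 1) ^ D) := by
      have h3 : (R.coeff b).natAbs ≤ l1 P * (c ^ D * (K + 1) ^ D) := by
        refine (coeff_le_l1 R b).trans ?_
        rw [hR]
        exact (l1_rename _ _).trans (sbt_l1 hc hdeg hQ2)
      exact_mod_cast h3
    rw [Nat.cast_natAbs, Int.cast_abs] at h2
    have h4 : (l1 P : ℝ) ≤ (D + 1 : ℕ) ^ (t + n) * |C| ^ N := by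
      have h5 := l1_le P hdeg (R := |C| ^ N) (by positivity) fun b =>
        (hcoef b).trans ((le_abs_self _).trans (abs_pow _ _).le)
      rwa [Fintype.card_sum, Fintype.card_fin, Fintype.card_fin] at h5
    refine h2.trans ?_
    rw [mul_pow]
    calc (l1 P : ℝ) * (c ^ D * (K + 1) ^ D) ≤
        ((D + 1 : ℕ) ^ (t + n) * |C| ^ N) * (c ^ D * (K + 1) ^ D) :=
          mul_le_mul_of_nonneg_right h4 (by positivity)
      _ = E * |C| ^ N := by
          rw [hE]
          push_cast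
          ring
      _ ≤ E ^ N * |C| ^ N := by
          refine mul_le_mul_of_nonneg_right (le_self_pow₀ hE1 (by omega)) (by positivity)
  have hfin := hL s hsinj (fun i => hS'W _ (hsmem i)) R hRdeg hRcoef
  have hc0 : (0 : ℝ) < (c : ℝ) ^ D := by
    have : (0 : ℝ) < c := by exact_mod_cast hc
    positivity
  have hmz := hRev ℂ x _ (mz_StH (N := N) (p := p) (by omega))
  constructor
  · intro φ hφ hφ1
    have h2 := hfin (fun i => φ (s i)) fun i => hφ1 _ (hS'W _ (hsmem i)).1.1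
    rw [hRev ℂ x φ hφ, hmz, norm_mul, norm_mul, norm_pow, Complex.norm_natCast] at h2
    refine le_of_mul_le_mul_left ?_ hc0
    calc _ ≤ _ := h2
      _ = _ := by ring
  · intro h0 A _ _ φ hφ
    have h2 := aeval_zero x R (fun y hy => by
      have h3 := hfin y hy
      rw [hmz, h0, mul_zero, norm_zero, mul_zero] at h3
      exact norm_le_zero_iff.1 h3) (fun i => φ (s i))
    rw [hRev A _ φ hφ] at h2
    have h3 : ((c : ℂ) ^ D)⁻¹ • ((c : A) ^ D * aeval (Sum.elim (fun i => algebraMap ℂ A (x i))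
        fun i => φ (w i)) P) = aeval (Sum.elim (fun i => algebraMap ℂ A (x i))
        fun i => φ (w i)) P := by
      have h4 : (c : A) ^ D = algebraMap ℂ A ((c : ℂ) ^ D) := by simp
      have h5 : ((c : ℂ) ^ D) ≠ 0 := by
        have : (c : ℂ) ≠ 0 := by exact_mod_cast (by omega : c ≠ 0)
        exact pow_ne_zero _ this
      rw [h4, ← Algebra.smul_def, smul_smul, inv_mul_cancel₀ h5, one_smul]
    rw [← h3, h2, smul_zero]

end Pool.Agent.L0h64.ZV
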